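import Pool.Agent.Lib.DR.LS.Spec

/-!
# Theorem DR, part LS, module Bt: systems of representatives modulo `f 2^N`
-/

set_option autoImplicit false

open scoped Pointwise

noncomputable section

namespace Pool.Agent.DR.LS

open Pool.Agent.MuZ Pool.Agent.FW Pool.Agent.DN
open Pool.Agent.DI (io ofC io_inj exists_io io_ofC ofC_io VP MP UP TP ex sqr sqr_sq kap)
open Pool.Agent.DN.GL (EE pH IsR)
open Pool.Agent.DL (vl GE Pl)
open Pool.Agent.DS.G (bt IsRI CN Pm Hy)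
open Pool.Agent.DR.GL (pl2 II Cls Un Orb Hn Hs PtN dv SS)

private theorem Bt_sub {n t : ℕ} {f F : ℕ} {v : OO n t} {x y : ℕ}
    (h1 : (F : ℤ) ∣ v.re - (1 + f * x)) (h2 : (F : ℤ) ∣ v.im - f * y) :
    (F : OO n t) ∣ v - bp f (x, y) := by
  rw [nat_dvd_iff, QuadraticAlgebra.re_sub, QuadraticAlgebra.im_sub]
  exact ⟨h1, h2⟩

private theorem Bt_one {n t : ℕ} (f : ℕ) (p : ℕ × ℕ) : (f : OO n t) ∣ bp f p - 1 := by
  rw [nat_dvd_iff, QuadraticAlgebra.re_sub, QuadraticAlgebra.im_sub, re_one, im_one]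
  refine ⟨⟨p.1, ?_⟩, ⟨p.2, ?_⟩⟩
  · change 1 + (f : ℤ) * p.1 - 1 = f * p.1
    ring
  · change (f : ℤ) * p.2 - 0 = f * p.2
    ring

private theorem Bt_key {f q : ℕ} (hf : 0 < f) {a b : ℕ} (ha : a < q) (hb : b < q)
    (h5 : ((f * q : ℕ) : ℤ) ∣ (f : ℤ) * a - (f : ℤ) * b) : a = b := by
  have he0 : (f : ℤ) ≠ 0 := by exact_mod_cast hf.ne'
  rw [← mul_sub] at h5
  push_cast at h5
  have h6 : (q : ℤ) ∣ (a : ℤ) - b := (mul_dvd_mul_iff_left he0).1 h5
  have h7 : (a : ℤ) - b = 0 := by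
    apply Int.eq_zero_of_abs_lt_dvd h6
    rw [abs_lt]
    constructor <;> omega
  omega

private theorem Bt_first {n t : ℕ} [Rmf n t] {f : ℕ} (N : ℕ) (hf : 0 < f) :
    RpI (fun v : OO n t => (f : OO n t) ∣ v - 1) (f * 2 ^ N) (Bx N) (bp f) := by
  have hq : (0 : ℤ) < ((2 ^ N : ℕ) : ℤ) := by
    have := Nat.pos_of_ne_zero (pow_ne_zero N (two_ne_zero (α := ℕ)))
    exact_mod_cast this
  refine ⟨fun p _ => Bt_one f p, ?_, ?_⟩
  · rintro ⟨x, y⟩ hp ⟨x', y'⟩ hp' h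
    unfold Bx at hp hp'
    rw [Finset.mem_product, Finset.mem_range, Finset.mem_range] at hp hp'
    rw [nat_dvd_iff, QuadraticAlgebra.re_sub, QuadraticAlgebra.im_sub] at h
    obtain ⟨h3, h4⟩ := h
    change ((f * 2 ^ N : ℕ) : ℤ) ∣ (1 + (f : ℤ) * x) - (1 + (f : ℤ) * x') at h3
    change ((f * 2 ^ N : ℕ) : ℤ) ∣ (f : ℤ) * y - (f : ℤ) * y' at h4
    have e3 : (1 + (f : ℤ) * x) - (1 + (f : ℤ) * x') = (f : ℤ) * x - (f : ℤ) * x' := by ring
    rw [e3] at h3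
    exact Prod.ext (Bt_key hf hp.1 hp'.1 h3) (Bt_key hf hp.2 hp'.2 h4)
  · intro v hv
    change (f : OO n t) ∣ v - 1 at hv
    rw [nat_dvd_iff, QuadraticAlgebra.re_sub, QuadraticAlgebra.im_sub, re_one, im_one, sub_zero] at hv
    obtain ⟨⟨a, ha⟩, ⟨b, hb⟩⟩ := hv
    obtain ⟨x, hx⟩ : ∃ x : ℕ, (x : ℤ) = a % (2 ^ N : ℕ) :=
      ⟨(a % (2 ^ N : ℕ)).toNat, Int.toNat_of_nonneg (Int.emod_nonneg _ hq.ne')⟩
    obtain ⟨y, hy⟩ : ∃ y : ℕ, (y : ℤ) = b % (2 ^ N : ℕ) :=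
      ⟨(b % (2 ^ N : ℕ)).toNat, Int.toNat_of_nonneg (Int.emod_nonneg _ hq.ne')⟩
    have hx1 : x < 2 ^ N := by
      have := Int.emod_lt_of_pos a hq
      rw [← hx] at this
      exact_mod_cast this
    have hy1 : y < 2 ^ N := by
      have := Int.emod_lt_of_pos b hq
      rw [← hy] at this
      exact_mod_cast this
    refine ⟨(x, y), ?_, ?_⟩
    · unfold Bx
      rw [Finset.mem_product, Finset.mem_range, Finset.mem_range]
      exact ⟨hx1, hy1⟩
    · have h5 := Int.emod_add_mul_ediv a (2 ^ N : ℕ)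
      have h6 := Int.emod_add_mul_ediv b (2 ^ N : ℕ)
      rw [← hx] at h5
      rw [← hy] at h6
      apply Bt_sub
      · refine ⟨a / (2 ^ N : ℕ), ?_⟩
        push_cast at h5 ⊢
        linear_combination ha - (f : ℤ) * h5
      · refine ⟨b / (2 ^ N : ℕ), ?_⟩
        push_cast at h6 ⊢
        linear_combination hb - (f : ℤ) * h6

private theorem two_iff {n t : ℕ} (v : OO n t) : (2 : OO n t) ∣ v ↔ (2 : ℤ) ∣ v.re ∧ (2 : ℤ) ∣ v.im := by
  have h := nat_dvd_iff (n := n) (t := t) 2 v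
  push_cast at h
  exact h

private theorem tm2_aux {n t : ℕ} {f : ℕ} (hf : Odd f) :
    (2 : OO n t) ∣ (⟨1 - f * (n % 2 : ℕ), f⟩ : OO n t) - (1 + pO n t) := by
  obtain ⟨j, rfl⟩ := hf
  rw [two_iff, QuadraticAlgebra.re_sub, QuadraticAlgebra.im_sub, QuadraticAlgebra.re_add,
    QuadraticAlgebra.im_add, re_one, im_one]
  refine ⟨⟨-((j + 1 : ℤ) * (n % 2 : ℕ)), ?_⟩, ⟨j, ?_⟩⟩
  · change (1 - ((2 * j + 1 : ℕ) : ℤ) * ((n % 2 : ℕ) : ℤ)) - (1 + ((n % 2 : ℕ) : ℤ)) = _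
    push_cast
    ring
  · change ((2 * j + 1 : ℕ) : ℤ) - (0 + 1) = _
    push_cast
    ring

private theorem tm2_one {n t : ℕ} {f : ℕ} {α : OO n t} (hα : α ∈ tm2 n t f) : (f : OO n t) ∣ α - 1 := by
  unfold tm2 at hα
  rw [Finset.mem_insert, Finset.mem_singleton] at hα
  rcases hα with rfl | rfl
  · rw [sub_self]
    exact dvd_zero _
  · rw [nat_dvd_iff, QuadraticAlgebra.re_sub, QuadraticAlgebra.im_sub, re_one, im_one]
    refine ⟨⟨-((n % 2 : ℕ) : ℤ), ?_⟩, ⟨1, ?_⟩⟩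
    · change (1 - (f : ℤ) * ((n % 2 : ℕ) : ℤ)) - 1 = _
      ring
    · change (f : ℤ) - 0 = _
      ring

private theorem tm2_cop (O4 : S_O4) {n t : ℕ} [Rmf n t] {f : ℕ} (hf : Odd f) {α : OO n t}
    (hα : α ∈ tm2 n t f) : Cop α 2 := by
  obtain ⟨-, -, -, -, -, -, -, -, -, -, hc, -⟩ := O4 n t
  rw [hc]
  unfold tm2 at hα
  rw [Finset.mem_insert, Finset.mem_singleton] at hα
  rcases hα with rfl | rfl
  · left
    rw [sub_self]
    exact dvd_zero _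
  · right
    exact tm2_aux hf

private theorem tm2_ne {n t : ℕ} {f : ℕ} (hf : Odd f) :
    ¬ (2 : OO n t) ∣ (1 : OO n t) - ⟨1 - f * (n % 2 : ℕ), f⟩ := by
  intro h
  rw [two_iff, QuadraticAlgebra.re_sub, QuadraticAlgebra.im_sub, re_one, im_one] at h
  have h2 := h.2
  change (2 : ℤ) ∣ 0 - (f : ℤ) at h2
  obtain ⟨j, rfl⟩ := hf
  omega

private theorem tm2_uni {n t : ℕ} {f : ℕ} (hf : Odd f) {α α' : OO n t}
    (hα : α ∈ tm2 n t f) (hα' : α' ∈ tm2 n t f) (h : (2 : OO n t) ∣ α - α') : α = α' := by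
  unfold tm2 at hα hα'
  rw [Finset.mem_insert, Finset.mem_singleton] at hα hα'
  rcases hα with rfl | rfl <;> rcases hα' with rfl | rfl
  · rfl
  · exact absurd h (tm2_ne hf)
  · refine absurd ?_ (tm2_ne (n := n) (t := t) hf)
    rw [← neg_sub]
    exact h.neg_right
  · rfl

private theorem tm2_ex (O4 : S_O4) {n t : ℕ} [Rmf n t] {f : ℕ} (hf : Odd f) {v : OO n t} (hv : Cop v 2) :
    ∃ α ∈ tm2 n t f, (2 : OO n t) ∣ v - α := by
  obtain ⟨-, -, -, -, -, -, -, -, -, -, hc, -⟩ := O4 n t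
  rcases (hc v).1 hv with h | h
  · exact ⟨1, by unfold tm2; exact Finset.mem_insert_self _ _, h⟩
  · refine ⟨⟨1 - f * (n % 2 : ℕ), f⟩, by
      unfold tm2; exact Finset.mem_insert_of_mem (Finset.mem_singleton_self _), ?_⟩
    have e : v - ⟨1 - f * (n % 2 : ℕ), f⟩ =
        (v - (1 + pO n t)) - ((⟨1 - f * (n % 2 : ℕ), f⟩ : OO n t) - (1 + pO n t)) := by ring
    rw [e]
    exact dvd_sub h (tm2_aux hf)

private theorem tm2_cop2 (O4 : S_O4) {n t : ℕ} [Rmf n t] {f : ℕ} (hf : Odd f) {α : OO n t}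
    (hα : α ∈ tm2 n t f) : Cop α (2 * f) := by
  have h4 := tm2_cop O4 hf hα
  have h5 := CV_cop_of_dvd (tm2_one hα)
  unfold Cop at *
  push_cast
  exact IsCoprime.mul_right (by exact_mod_cast h4) h5

theorem tBt : S_Bt := by
  classical
  intro O4 n t _ f N hf
  have hf0 : 0 < f := by
    obtain ⟨j, rfl⟩ := hf
    omega
  have h1 := Bt_first (n := n) (t := t) N hf0
  refine ⟨h1, fun hN => ⟨?_, ?_⟩, fun α hα => ⟨tm2_one hα, tm2_cop O4 hf hα, tm2_cop2 O4 hf hα, ?_⟩⟩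
  · have h2 : 2 ∣ f * 2 ^ N := dvd_mul_of_dvd_right (dvd_pow_self 2 (by omega)) f
    refine ⟨?_, ?_, ?_⟩
    · intro p hp
      rw [Finset.mem_filter] at hp
      exact ⟨h1.mem p hp.1, hp.2⟩
    · intro p hp p' hp' h
      rw [Finset.mem_filter] at hp hp'
      exact h1.inj p hp.1 p' hp'.1 h
    · rintro v ⟨hv1, hv2⟩
      obtain ⟨p, hp, h3⟩ := h1.ex v hv1
      refine ⟨p, ?_, h3⟩
      rw [Finset.mem_filter]
      exact ⟨hp, cop_congr (CV_cast_dvd h2 h3) hv2⟩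
  · obtain ⟨K, rfl⟩ : ∃ K, N = K + 1 := ⟨N - 1, by omega⟩
    have hcop : f.Coprime 2 := by
      obtain ⟨j, rfl⟩ := hf
      rw [Nat.coprime_two_right]
      exact ⟨j, rfl⟩
    have hS : RpI (fun v : OO n t => (f : OO n t) ∣ v - 1 ∧ Cop v 2) (2 * f) (tm2 n t f) id := by
      refine ⟨fun α hα => ⟨tm2_one hα, tm2_cop O4 hf hα⟩, ?_, ?_⟩
      · intro α hα α' hα' h
        refine tm2_uni hf hα hα' ?_
        have h3 := CV_cast_dvd (Dvd.intro _ rfl : 2 ∣ 2 * f) h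
        rwa [CV_cast_two] at h3
      · rintro v ⟨hv1, hv2⟩
        obtain ⟨α, hα, h3⟩ := tm2_ex O4 hf hv2
        refine ⟨α, hα, ?_⟩
        refine CV_cast_mul hcop.symm ?_ ?_
        · rw [CV_cast_two]
          exact h3
        · have h4 := tm2_one hα
          have e : v - id α = (v - 1) - (α - 1) := by
            change v - α = _
            ring
          rw [e]
          exact dvd_sub hv1 h4
    have hα : ∀ α ∈ tm2 n t f, Cop (id α) (2 * f * 2 ^ K) := by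
      intro α hα
      have h3 := tm2_one hα
      have h4 := tm2_cop O4 hf hα
      have h5 := CV_cop_of_dvd h3
      unfold Cop at *
      push_cast
      exact IsCoprime.mul_right (IsCoprime.mul_right (by exact_mod_cast h4) h5)
        ((by exact_mod_cast h4 : IsCoprime (Nm α) (2 : ℤ)).pow_right)
    have h3 := RpI.ga (by omega : 0 < 2 * f) (Nat.pos_of_ne_zero (pow_ne_zero K (two_ne_zero (α := ℕ))))
      (Dvd.intro_left 2 rfl) (Dvd.intro _ rfl) hα hS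
    have e1 : 2 * f * 2 ^ K = f * 2 ^ (K + 1) := by
      rw [pow_succ]
      ring
    rw [e1] at h3
    have e2 : (fun p : OO n t × (ℕ × ℕ) => id p.1 * Pool.Agent.DN.ga (2 * f) p.2.1 p.2.2) =
        (fun p : OO n t × (ℕ × ℕ) => p.1 * ⟨1 + 2 * f * p.2.1, 2 * f * p.2.2⟩) := by
      funext p
      unfold Pool.Agent.DN.ga
      push_cast
      rfl
    rw [e2] at h3
    exact h3
  · rintro rfl
    have h4 := tm2_cop O4 hf hα
    unfold Cop at h4
    have e : Nm (0 : OO n t) = 0 := by simp [Nm]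
    rw [e, isCoprime_zero_left] at h4
    exact absurd h4 (by decide)

end Pool.Agent.DR.LS
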