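import Pool.Agent.Lib.DR.LS.Spec

/-!
# Theorem DR, part LS, module CaA: the final estimate, `n` not `6` modulo `8`
-/

set_option autoImplicit false

open scoped Pointwise

noncomputable section

namespace Pool.Agent.DR.LS

open Pool.Agent.MuZ Pool.Agent.FW Pool.Agent.DN
open Pool.Agent.DI (io ofC io_inj exists_io io_ofC ofC_io VP MP UP TP ex sqr sqr_sq kap)
open Pool.Agent.DN.GL (EE pH IsR)
open Pool.Agent.DL (vl GE Pl)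
open Pool.Agent.DS.G (bt IsRI CN Pm Hy)
open Pool.Agent.DR.GL (pl2 II Cls Un Orb Hn Hs PtN dv SS)

variable {n t : ℕ}

private theorem CaA_pow {θ : Om} {N : ℕ} (h : θ ^ 2 ^ N = 1) {a : ℕ} {z : ℤ} (hz : 0 ≤ z)
    (hd : (2 : ℤ) ^ N ∣ z - a) : θ ^ z.toNat = θ ^ a := by
  rw [pow_eq_pow_mod z.toNat h, pow_eq_pow_mod a h]
  have h1 : Nat.ModEq (2 ^ N) a z.toNat := by
    rw [Nat.modEq_iff_dvd, Int.toNat_of_nonneg hz]
    exact_mod_cast hd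
  rw [show a % 2 ^ N = z.toNat % 2 ^ N from h1]

/-- Conjugation preserves `Gal(Om/K)`. -/
private theorem CaA_conj [Rmf n t] {σ τ : Gal(Om/ℚ)} (hσ : σ ∈ GK n t) : τ⁻¹ * σ * τ ∈ GK n t := by
  rw [mem_GK_iff] at hσ ⊢
  have ht : t = 0 := Rmf.zero (n := n)
  have h1 : wO n t ^ 2 = -(n : Om) := by
    have h2 := wO_sq (n := n) (t := t)
    have h3 : ((t : ℕ) : Om) = 0 := by rw [ht, Nat.cast_zero]
    rw [h2, h3]
    ring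
  have h4 : (τ (wO n t)) ^ 2 = wO n t ^ 2 := by
    rw [← map_pow, h1, map_neg, map_natCast]
  have h5 : ∀ x : Om, (τ⁻¹ * σ * τ) x = τ⁻¹ (σ (τ x)) := fun x => rfl
  have h6 : ∀ x : Om, τ⁻¹ (τ x) = x := fun x => τ.symm_apply_apply x
  rw [h5]
  rcases sq_eq_sq_iff_eq_or_eq_neg.1 h4 with h | h
  · have h7 := h6 (wO n t)
    rw [h] at h7
    rw [h, hσ, h7]
  · rw [h, map_neg, hσ, ← h, h6]

theorem tCaA : S_CaA := by
  intro hT0 hIn hAct hSur hTrN hTau hUAct hNrm n t _ P hP hn8 f N m R χ z0 d SH θ hFM hFR hχ hN hpt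
    hSH hθ hθ1 hv hU hUτ
  have hPp : P.IsPrime := hP.1.1
  have h2 : Pl P 2 := pl2 hP
  have hm2 : MP P 2 := hP.2
  obtain ⟨-, hpM, hp0, hpv, hpσ, -, -, -⟩ := hT0 n t P hP
  obtain ⟨-, -, -, -, hodd, -, -⟩ := CV_fm hFM
  obtain ⟨F, hF⟩ : ∃ F : ℕ, F = f * NI m := ⟨_, rfl⟩
  have hFodd : Odd F := by rw [hF]; exact hFM.odd.mul hodd
  have hF15 : 15 ∣ F := by rw [hF]; exact hFM.dvd.mul_right _
  have hfF : f ∣ F := by rw [hF]; exact Dvd.intro _ rfl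
  obtain ⟨-, hAodd, hAex, hAcov, hAuni, hneg⟩ := hNrm n t N (by omega)
  have hneg' := hneg hn8
  obtain ⟨hUc, hUa⟩ := hUAct n t P hP f N m R χ hFM hFR hχ (by omega)
  rw [← hF] at hUa
  obtain ⟨D, hD⟩ : ∃ D : ℚ, D = dv n t P z0 d SH := ⟨_, rfl⟩
  obtain ⟨U, hUd⟩ : ∃ U : Om, U = UU f N m R χ 1 := ⟨_, rfl⟩
  rw [← hD, ← hUd] at hU
  rw [← hD, ← hUd] at hUτ
  have h2N : (0 : ℕ) < 2 ^ N := by positivity
  have hθu : UP P θ := CV_up_of_pow hPp h2N hθ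
  have hθ0 : θ ≠ 0 := hθu.ne_zero
  have hinv1 : θ⁻¹ ^ 2 ^ N = 1 := by rw [inv_pow, hθ, inv_one]
  -- the action
  have hact : ∀ (σ : Gal(Om/ℚ)) (h : OO n t), Cls P F N h σ → ∀ ζ : Om, ζ ^ 2 ^ N = 1 →
      σ ζ = ζ ^ (Nm h).toNat := fun σ h hc ζ hζ =>
    (hAct n t P hP F N h σ hFodd hF15 hc ⊤ ⟨(CV_fb_top 1).ne, CV_top 15⟩).2.2.2.2.2.1 ζ hζ
  have hUh : ∀ (σ : Gal(Om/ℚ)) (h : OO n t), Cls P F N h σ → σ U = UU f N m R χ (Nm h) :=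
    fun σ h hc => by
    have h3 := hUa 1 h σ odd_one hc
    rwa [mul_one, ← hUd] at h3
  have hone : ∀ (σ : Gal(Om/ℚ)) (h : OO n t), Cls P F N h σ → (2 : ℤ) ^ N ∣ Nm h - 1 →
      (∀ ζ : Om, ζ ^ 2 ^ N = 1 → σ ζ = ζ) ∧ σ U = U := fun σ h hc hd => by
    refine ⟨fun ζ hζ => ?_, ?_⟩
    · rw [hact σ h hc ζ hζ, CaA_pow (a := 1) hζ (Nm_nonneg h) (by exact_mod_cast hd), pow_one]
    · rw [hUh σ h hc, hUc _ 1 (Or.inl hd), hUd]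
  -- an element of `II` which fixes the roots of unity fixes `U`
  obtain ⟨ζ0, hζ0⟩ := HasEnoughRootsOfUnity.exists_primitiveRoot Om (2 ^ N)
  have hfix : ∀ ρ ∈ II n t P, (∀ ζ : Om, ζ ^ 2 ^ N = 1 → ρ ζ = ζ) → ρ U = U := by
    intro ρ hρ hρζ
    obtain ⟨h, hc⟩ := (hIn n t P hP F N hFodd hF15).1 ρ hρ
    refine (hone ρ h hc ?_).2
    have h3 := hact ρ h hc ζ0 hζ0.pow_eq_one
    rw [hρζ ζ0 hζ0.pow_eq_one] at h3
    have h4 : ζ0 ^ (Nm h - 1) = 1 := by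
      have h5 : ζ0 ≠ 0 := hζ0.ne_zero (by positivity)
      rw [zpow_sub₀ h5, zpow_one, ← Int.toNat_of_nonneg (Nm_nonneg h), zpow_natCast, ← h3,
        div_self h5]
    have h6 := (hζ0.zpow_eq_one_iff_dvd _).1 h4
    exact_mod_cast h6
  -- the system
  choose! ha ha1 using fun a (h : a ∈ As n N) => hAex F a hFodd h
  choose! s hs using fun a (h : a ∈ As n N) =>
    hSur n t P hP F N hFodd hF15 (by omega) (ha a) (ha1 a h).1 (ha1 a h).2.1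
  have hsζ : ∀ a ∈ As n N, ∀ ζ : Om, ζ ^ 2 ^ N = 1 → s a ζ = ζ ^ a := fun a h ζ hζ => by
    rw [hact _ _ (hs a h) ζ hζ, CaA_pow hζ (Nm_nonneg _) (ha1 a h).2.2]
  have hsU : ∀ a ∈ As n N, s a U = UU f N m R χ a := fun a h => by
    rw [hUh _ _ (hs a h), hUc _ a (Or.inl (ha1 a h).2.2)]
  have hsp : ∀ a ∈ As n N, s a (toO (pO n t)) = toO (pO n t) := fun a h =>
    GK_toO (hs a h).mem.2 _
  obtain ⟨⟨τ, hτ, hτζ⟩, -⟩ := hTau n t P hP hn8 N (by omega)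
  have hτi : ∀ x : Om, τ⁻¹ (τ x) = x := fun x => τ.symm_apply_apply x
  have hτI : τ⁻¹ ∈ P.inertia Gal(Om/ℚ) := inv_mem hτ
  have hconj : ∀ σ ∈ II n t P, τ⁻¹ * σ * τ ∈ II n t P := fun σ hσ =>
    ⟨mul_mem (mul_mem hτI hσ.1) hτ, CaA_conj hσ.2⟩
  -- traces
  have hTr : ∀ z : Om, (∀ (σ : Gal(Om/ℚ)) (h : OO n t), Cls P F N h σ → (2 : ℤ) ^ N ∣ Nm h - 1 →
      σ z = z) → GE P 2 (1 / 2 + D) z → GE P 2 N (∑ a ∈ As n N, s a z) := by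
    intro z hz1 hz2
    rw [hD] at hz2
    refine hTrN n t P hP f N z0 d hpt.toPt SH hSH F hFodd hfF (As n N) s
      (fun a h => ⟨ha a, hs a h, (ha1 a h).2.2⟩) (fun h h3 _ => hAcov h h3) hAuni z ?_ hz2
    intro σ h hc hh
    exact hz1 σ h hc (hh.2.2.resolve_right (hneg' h hh.2.1))
  obtain ⟨z1, hz1⟩ : ∃ z1 : Om, z1 = (θ - 1) * U := ⟨_, rfl⟩
  obtain ⟨z2, hz2⟩ : ∃ z2 : Om, z2 = (θ⁻¹ - 1) * U := ⟨_, rfl⟩
  have hgv : GE P 2 (vl P 2 (θ - 1)) (θ - 1) := Or.inr le_rfl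
  have hgv' : GE P 2 (vl P 2 (θ - 1)) (θ⁻¹ - 1) := by
    have e : θ⁻¹ - 1 = -((θ - 1) * θ⁻¹) := by
      rw [sub_mul, mul_inv_cancel₀ hθ0]
      ring
    rw [e]
    exact DL.GE.neg h2 (DL.GE.mul_right h2 hgv (DI.UP.inv hθu).1)
  have hgp : GE P 2 (1 / 2) (toO (pO n t)) := Or.inr hpv.ge
  have hz1σ : ∀ σ : Gal(Om/ℚ), (∀ ζ : Om, ζ ^ 2 ^ N = 1 → σ ζ = ζ) → σ U = U → σ z1 = z1 :=
    fun σ h3 h4 => by rw [hz1, map_mul, map_sub, map_one, h3 θ hθ, h4]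
  have hz2σ : ∀ σ : Gal(Om/ℚ), (∀ ζ : Om, ζ ^ 2 ^ N = 1 → σ ζ = ζ) → σ U = U → σ z2 = z2 :=
    fun σ h3 h4 => by rw [hz2, map_mul, map_sub, map_one, h3 _ hinv1, h4]
  have hσ1 : ∀ (σ : Gal(Om/ℚ)) (h : OO n t), Cls P F N h σ → (2 : ℤ) ^ N ∣ Nm h - 1 →
      σ (τ z1) = τ z1 := by
    intro σ h hc hd
    obtain ⟨h3, -⟩ := hone σ h hc hd
    have h4 := hconj σ hc.mem
    have h5 : ∀ ζ : Om, ζ ^ 2 ^ N = 1 → (τ⁻¹ * σ * τ) ζ = ζ := fun ζ hζ => by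
      change τ⁻¹ (σ (τ ζ)) = ζ
      rw [h3 (τ ζ) (by rw [← map_pow, hζ, map_one]), hτi]
    have h6 := hz1σ _ h5 (hfix _ h4 h5)
    have h7 : τ ((τ⁻¹ * σ * τ) z1) = σ (τ z1) := τ.apply_symm_apply _
    rw [← h7, h6]
  have hsτ : ∀ a ∈ As n N, s a (τ z1) = τ (s a z1) := by
    intro a h
    have h4 : (s a)⁻¹ * (τ⁻¹ * s a * τ) ∈ II n t P :=
      mul_mem (inv_mem (hs a h).mem) (hconj _ (hs a h).mem)
    have h5 : ∀ ζ : Om, ζ ^ 2 ^ N = 1 → ((s a)⁻¹ * (τ⁻¹ * s a * τ)) ζ = ζ := fun ζ hζ => by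
      change (s a)⁻¹ (τ⁻¹ (s a (τ ζ))) = ζ
      rw [hsζ a h (τ ζ) (by rw [← map_pow, hζ, map_one]), ← map_pow, hτi, ← hsζ a h ζ hζ]
      exact (s a).symm_apply_apply ζ
    have h6 := hz1σ _ h5 (hfix _ h4 h5)
    have h7 : s a (((s a)⁻¹ * (τ⁻¹ * s a * τ)) z1) = τ⁻¹ (s a (τ z1)) :=
      (s a).apply_symm_apply _
    rw [h6] at h7
    rw [h7]
    exact (τ.apply_symm_apply _).symm
  obtain ⟨S1, hS1⟩ : ∃ S1 : Om, S1 = ∑ a ∈ As n N, s a z1 := ⟨_, rfl⟩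
  obtain ⟨S2, hS2⟩ : ∃ S2 : Om, S2 = ∑ a ∈ As n N, s a z2 := ⟨_, rfl⟩
  have hi : GE P 2 N (toO (pO n t) * S1) := by
    have h3 : ∑ a ∈ As n N, s a (toO (pO n t) * z1) = toO (pO n t) * S1 := by
      rw [hS1, Finset.mul_sum]
      refine Finset.sum_congr rfl fun a h => ?_
      rw [map_mul, hsp a h]
    rw [← h3]
    refine hTr _ (fun σ h hc hd => ?_) ?_
    · obtain ⟨h4, h5⟩ := hone σ h hc hd
      rw [map_mul, GK_toO hc.mem.2, hz1σ σ h4 h5]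
    · refine DL.GE.mul h2 hgp ?_
      rw [hz1]
      exact DL.GE.mono (DL.GE.mul h2 hgv hU) (by linarith)
  have hii : GE P 2 N (S2 - τ S1) := by
    have h3 : ∑ a ∈ As n N, s a (z2 - τ z1) = S2 - τ S1 := by
      rw [hS2, hS1, map_sum, ← Finset.sum_sub_distrib]
      refine Finset.sum_congr rfl fun a h => ?_
      rw [map_sub, hsτ a h]
    rw [← h3]
    refine hTr _ (fun σ h hc hd => ?_) ?_
    · obtain ⟨h4, h5⟩ := hone σ h hc hd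
      rw [map_sub, hz2σ σ h4 h5, hσ1 σ h hc hd]
    · have e : z2 - τ z1 = (θ⁻¹ - 1) * (U - τ U) := by
        rw [hz2, hz1, map_mul, map_sub, map_one, hτζ θ hθ]
        ring
      rw [e]
      exact DL.GE.mono (DL.GE.mul h2 hgv' (hUτ τ hτ hτζ)) (by linarith)
  -- division by `2 ^ N`
  have h20 : (2 : Om) ^ N ≠ 0 := pow_ne_zero N two_ne_zero
  have hvl : vl P 2 ((2 : Om) ^ N) = N := by
    have h3 := DL.vl_two_pow h2 N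
    exact_mod_cast h3
  have hdiv : ∀ x : Om, GE P 2 N x → VP P ((2 ^ N)⁻¹ * x) := fun x hx => by
    have h3 := DL.GE.div h2 hx h20
    rw [hvl, sub_self] at h3
    rw [← div_eq_inv_mul]
    exact (DL.GE.vp_iff h2).1 h3
  obtain ⟨w, hw⟩ : ∃ w : Om, w = toO (pO n t) * ((2 ^ N)⁻¹ * S1) := ⟨_, rfl⟩
  have hwV : VP P w := by
    have h3 := hdiv _ hi
    rwa [mul_left_comm, ← hw] at h3
  have hsum : ∑ a ∈ As n N, (θ ^ a + (θ ^ a)⁻¹ - 2) * UU f N m R χ a = S1 + S2 := by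
    rw [hS1, hS2, ← Finset.sum_add_distrib]
    refine Finset.sum_congr rfl fun a h => ?_
    rw [hz1, hz2, map_mul, map_mul, map_sub, map_sub, map_one, hsζ a h θ hθ, map_inv₀, hsζ a h θ hθ,
      hsU a h]
    ring
  rw [hsum]
  have hτp : τ (toO (pO n t)) ≠ 0 := fun h => hp0 (by
    have h3 := hτi (toO (pO n t))
    rw [h, map_zero] at h3
    exact h3.symm)
  obtain ⟨c, hc⟩ : ∃ c : Om, c = τ (toO (pO n t)) / toO (pO n t) := ⟨_, rfl⟩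
  have hcM : MP P (c - 1) := by
    rw [hc]
    exact hpσ τ hτ
  have hcU : UP P c := DI.UP.congr DI.UP.one hcM
  have hτw : τ w = τ (toO (pO n t)) * ((2 ^ N)⁻¹ * τ S1) := by
    rw [hw, map_mul, map_mul, map_inv₀, map_pow, map_ofNat]
  have e1 : toO (pO n t) * ((2 ^ N)⁻¹ * (S1 + S2)) =
      toO (pO n t) * ((2 ^ N)⁻¹ * (S2 - τ S1)) + (-((c - 1) * c⁻¹) * τ w) + (τ w - w) + w * 2 := by
    have h3 : c⁻¹ * τ w = toO (pO n t) * ((2 ^ N)⁻¹ * τ S1) := by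
      rw [hτw, hc, inv_div]
      field_simp
    have h4 : -((c - 1) * c⁻¹) * τ w = c⁻¹ * τ w - τ w := by
      rw [sub_mul, mul_inv_cancel₀ hcU.ne_zero]
      ring
    rw [h4, h3, hw]
    ring
  rw [e1]
  refine ((DI.MP.add (DI.MP.add ?_ ?_) (DI.VP.inertia hτ hwV)).add (DI.MP.mul_left hwV hm2))
  · exact DI.MP.mul_right hpM (hdiv _ hii)
  · exact DI.MP.mul_right (DI.MP.mul_right hcM (DI.UP.inv hcU).1).neg (DI.VP.inertia_vp hτ hwV)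

end Pool.Agent.DR.LS
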