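import Pool.Agent.Lib.DR.LS.Spec

set_option autoImplicit false

open scoped Pointwise

noncomputable section

namespace Pool.Agent.DR.LS

open Pool.Agent.MuZ Pool.Agent.FW Pool.Agent.DN
open Pool.Agent.DI (io ofC io_inj exists_io io_ofC ofC_io VP MP UP TP ex sqr sqr_sq kap)
open Pool.Agent.DN.GL (EE pH IsR)
open Pool.Agent.DL (vl GE Pl)
open Pool.Agent.DS.G (bt IsRI CN Pm Hy)
open Pool.Agent.DR.GL (pl2 II Cls Un Orb Hn Hs PtN dv SS)

variable {n t : ℕ}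

private lemma pow_congr {θ : Om} {N : ℕ} (h1 : θ ^ 2 ^ N = 1) (h0 : θ ≠ 0) {x : ℤ} (hx : 0 ≤ x) {y : ℤ}
    (h : (2 : ℤ) ^ N ∣ x - y) : θ ^ x.toNat = θ ^ y := by
  obtain ⟨c, hc⟩ := h
  have e : (x.toNat : ℤ) = y + ((2 ^ N : ℕ) : ℤ) * c := by
    rw [Int.toNat_of_nonneg hx]
    push_cast
    linarith
  rw [← zpow_natCast, e, zpow_add₀ h0, zpow_mul, zpow_natCast, h1, one_zpow, mul_one]

theorem tCaB : S_CaB := by
  intro T0a Act Sur TrN UAct Nrm n t _ P hP hn6 f N m R χ z0 d SH θ hFM hFR hχ hN hp hO hθ1 hθn hθv b hb hU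
  have hPp := hP.1.1
  have h2 := pl2 hP
  obtain ⟨-, h3, h4', h5', h6', -⟩ := Nrm n t N (by omega)
  obtain ⟨hU1, hU2⟩ := UAct n t P hP f N m R χ hFM hFR hχ (by omega)
  obtain ⟨hf0, -, -, -, hNIodd, -, hNI0⟩ := CV_fm hFM
  have hf'odd : Odd (f * NI m) := hFM.odd.mul hNIodd
  have hf'15 : 15 ∣ f * NI m := hFM.dvd.mul_right _
  have hff' : f ∣ f * NI m := Dvd.intro _ rfl
  have hθ0 : θ ≠ 0 := by
    rintro rfl
    rw [zero_pow (by positivity)] at hθ1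
    exact zero_ne_one hθ1
  have hex : ∀ a : ℕ, ∃ s : Gal(Om/ℚ), a ∈ As n N → ∃ h : OO n t, Cls P (f * NI m) N h s ∧ (2 : ℤ) ^ N ∣ Nm h - a := by
    intro a
    by_cases ha : a ∈ As n N
    · obtain ⟨h, hh1, hh2, hh3⟩ := h4' (f * NI m) a hf'odd ha
      obtain ⟨τ, hτ⟩ := Sur n t P hP (f * NI m) N hf'odd hf'15 (by omega) h hh1 hh2
      exact ⟨τ, fun _ => ⟨h, hτ, hh3⟩⟩
    · exact ⟨1, fun h => absurd h ha⟩
  choose s hs using hex
  have hroot : ∀ (σ : Gal(Om/ℚ)) (h : OO n t), Cls P (f * NI m) N h σ → ∀ ζ : Om, ζ ^ 2 ^ N = 1 →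
      σ ζ = ζ ^ (Nm h).toNat := by
    intro σ h hσ ζ hζ
    exact (Act n t P hP (f * NI m) N h σ hf'odd hf'15 hσ ⊤ ⟨top_ne_bot, top_sup_eq _⟩).2.2.2.2.2.1 ζ hζ
  have hθb1 : (θ ^ b) ^ 2 ^ N = 1 := by rw [← pow_mul, mul_comm, pow_mul, hθ1, one_pow]
  have hbZ : Odd (b : ℤ) := by exact_mod_cast hb
  -- the action on z
  set κ : Om := θ ^ b + (θ ^ b)⁻¹ - 2 with hκ
  set z : Om := κ * UU f N m R χ b with hz
  have hsz : ∀ a ∈ As n N, s a z = (θ ^ (a * b) + (θ ^ (a * b))⁻¹ - 2) * UU f N m R χ ((a : ℤ) * b) := by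
    intro a ha
    obtain ⟨h, hh, hd⟩ := hs a ha
    have e1 : s a (θ ^ b) = θ ^ (a * b) := by
      rw [hroot _ _ hh _ hθb1, pow_congr hθb1 (pow_ne_zero _ hθ0) (Nm_nonneg h) hd, zpow_natCast, ← pow_mul, mul_comm b a]
    have e2 : s a (UU f N m R χ b) = UU f N m R χ ((a : ℤ) * b) := by
      rw [hU2 b h (s a) hbZ hh]
      refine hU1 _ _ (Or.inl ?_)
      rw [← sub_mul]
      exact Dvd.dvd.mul_right hd _
    rw [hz, map_mul, e2, hκ, map_sub, map_add, map_inv₀, e1, map_ofNat]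
  have hinv : ∀ (σ : Gal(Om/ℚ)) (h : OO n t), Cls P (f * NI m) N h σ → Hn (f * NI m) N h → σ z = z := by
    intro σ h hh hH
    have e2 : σ (UU f N m R χ b) = UU f N m R χ b := by
      rw [hU2 b h σ hbZ hh]
      refine hU1 _ _ ?_
      rcases hH.2.2 with hd | hd
      · refine Or.inl ?_
        have e : Nm h * (b : ℤ) - b = (Nm h - 1) * b := by ring
        rw [e]; exact Dvd.dvd.mul_right hd _
      · refine Or.inr ?_
        have e : Nm h * (b : ℤ) + b = (Nm h + 1) * b := by ring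
        rw [e]; exact Dvd.dvd.mul_right hd _
    have e1 : σ κ = κ := by
      have e3 : σ (θ ^ b) = (θ ^ b) ∨ σ (θ ^ b) = (θ ^ b)⁻¹ := by
        rcases hH.2.2 with hd | hd
        · left
          rw [hroot _ _ hh _ hθb1, pow_congr hθb1 (pow_ne_zero _ hθ0) (Nm_nonneg h) hd, zpow_one]
        · right
          have hd' : (2 : ℤ) ^ N ∣ Nm h - (-1) := by rwa [sub_neg_eq_add]
          rw [hroot _ _ hh _ hθb1, pow_congr hθb1 (pow_ne_zero _ hθ0) (Nm_nonneg h) hd', zpow_neg, zpow_one]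
      rw [hκ, map_sub, map_add, map_inv₀, map_ofNat]
      rcases e3 with e | e
      · rw [e]
      · rw [e, inv_inv, add_comm (θ ^ b)⁻¹ (θ ^ b)]
    rw [hz, map_mul, e1, e2]
  -- the valuation of z
  have hGθ : GE P 2 ((2 : ℚ) ^ 21 / 2 ^ N) (θ - 1) := Or.inr hθv
  have hVθ : VP P θ := DI.VP.of_pow (n := 2 ^ N) (by positivity) (by rw [hθ1]; exact DI.VP.one)
  have hVθi : VP P (θ ^ b)⁻¹ := DI.VP.of_pow (n := 2 ^ N) (by positivity) (by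
    rw [inv_pow, hθb1, inv_one]; exact DI.VP.one)
  have hgeom : θ ^ b - 1 = (∑ i ∈ Finset.range b, θ ^ i) * (θ - 1) := (geom_sum_mul θ b).symm
  have hVg : VP P (∑ i ∈ Finset.range b, θ ^ i) := DI.VP.sum _ _ fun i _ => DI.VP.pow hVθ i
  have hVb1 : VP P (θ ^ b - 1) := DI.VP.sub (DI.VP.pow hVθ b) DI.VP.one
  have hκe : κ = ((∑ i ∈ Finset.range b, θ ^ i) * (θ ^ b - 1) * (θ ^ b)⁻¹) * (θ - 1) := by
    have hb0 : θ ^ b ≠ 0 := pow_ne_zero _ hθ0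
    have e : ((∑ i ∈ Finset.range b, θ ^ i) * (θ ^ b - 1) * (θ ^ b)⁻¹) * (θ - 1) =
        ((∑ i ∈ Finset.range b, θ ^ i) * (θ - 1)) * (θ ^ b - 1) * (θ ^ b)⁻¹ := by ring
    rw [e, ← hgeom, hκ]
    field_simp
    ring
  have hGκ : GE P 2 ((2 : ℚ) ^ 21 / 2 ^ N) κ := by
    rw [hκe]
    exact DL.GE.mul_left h2 (DI.VP.mul (DI.VP.mul hVg hVb1) hVθi) hGθ
  have hGz : GE P 2 (1 / 2 + dv n t P z0 d SH) z := by
    have h := DL.GE.mul h2 hGκ hU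
    refine h.mono (le_of_eq ?_)
    ring
  have key := TrN n t P hP f N z0 d hp.toPt SH hO (f * NI m) hf'odd hff' (As n N) s hs
    (fun h hh _ => h5' h hh) h6' z hinv hGz
  obtain ⟨-, -, hpn, hpv, -⟩ := T0a n t P hP
  have e : toO (pO n t) * ((2 ^ N)⁻¹ * ∑ a ∈ As n N,
      (θ ^ (a * b) + (θ ^ (a * b))⁻¹ - 2) * UU f N m R χ ((a : ℤ) * b)) =
      toO (pO n t) * ((∑ a ∈ As n N, s a z) / (((2 : ℕ) : Om) ^ N)) := by
    rw [Finset.sum_congr rfl hsz]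
    push_cast
    rw [inv_mul_eq_div]
  rw [e]
  have h2N : (((2 : ℕ) : Om) ^ N) ≠ 0 := pow_ne_zero _ h2.nz
  have k1 := DL.GE.div h2 key h2N
  rw [DL.vl_two_pow h2, sub_self] at k1
  have k2 : GE P 2 (1 / 2) (toO (pO n t)) := Or.inr hpv.ge
  have k3 := DL.GE.mul h2 k2 k1
  rwa [add_zero] at k3

end Pool.Agent.DR.LS
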