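import Pool.Agent.Lib.DR.LS.Spec

/-!
# Theorem DR, part LS: Fou, the formula for `xs` (author helper67, after `DN/G/Fou.lean`)
-/

set_option autoImplicit false

open scoped Pointwise

noncomputable section

namespace Pool.Agent.DR.LS

open Pool.Agent.MuZ Pool.Agent.FW Pool.Agent.DN
open Pool.Agent.DI (io ofC io_inj exists_io io_ofC ofC_io VP MP UP TP ex sqr sqr_sq kap)
open Pool.Agent.DN.GL (EE pH IsR)
open Pool.Agent.DL (vl GE Pl)
open Pool.Agent.DS.G (bt IsRI CN Pm Hy)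
open Pool.Agent.DR.GL (pl2 II Cls Un Orb Hn Hs PtN dv SS)

variable {n t : ℕ}

/-- The summand. -/
private def Ph (f N : ℕ) (m b : Ideal (OO n t)) (c : ℤ) (v : OO n t) : Om :=
  zet (2 ^ (N - 1)) ^ (c * (NI m * NI b * Nm v)) * gO m b (toC v / (f * 2 ^ N : ℕ))

open Classical in
private theorem et_eq (h4 : S_C4) (hG : C_Gb) (hB : C_Bt) [Rmf n t] {P : Ideal ZZ}
    (hP : Ab2 P) {f N : ℕ} {m b : Ideal (OO n t)} (hm : FM f m) (hb : FB f b) (hN : 3 ≤ N)
    (c : ℤ) :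
    etE f m b (c / 2 ^ (N - 3)) = (2 ^ (N - 1) : Om)⁻¹ *
      ∑ p ∈ (Bx N).filter (fun p => Cop (bp (n := n) (t := t) f p) 2), Ph f N m b c (bp f p) := by
  obtain ⟨hf0, hf15, -, hmf, hnodd, hncop, hn0⟩ := CV_fm hm
  have hq0 : 0 < 2 ^ (N - 1) := by positivity
  have hM : f * 2 ^ N = 2 * f * 2 ^ (N - 1) := by
    obtain ⟨N', rfl⟩ : ∃ N', N = N' + 1 := ⟨N - 1, by omega⟩
    rw [Nat.add_sub_cancel, pow_succ]
    ring
  obtain ⟨-, hB2, hB4⟩ := hB n t f N hm.odd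
  obtain ⟨hB2, hB3⟩ := hB2 (by omega)
  have hg := hG n t P hP f N m b hm (by omega) hb
  have hcp : ∀ v : OO n t, (f : OO n t) ∣ v - 1 → Cop v 2 → Cop v (2 * f) := fun v h1 h2 =>
    CV_cop_mul.2 ⟨h2, CV_cop_of_dvd h1⟩
  -- periodicity
  have hper : ∀ v u : OO n t, ((f : OO n t) ∣ v - 1 ∧ Cop v 2) → ((f : OO n t) ∣ u - 1 ∧ Cop u 2) →
      ((f * 2 ^ N : ℕ) : OO n t) ∣ v - u → Ph f N m b c v = Ph f N m b c u := by
    intro v u hv hu hvu
    have e2 : zet (2 ^ (N - 1)) ^ (c * (NI m * NI b * Nm v)) =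
        zet (2 ^ (N - 1)) ^ (c * (NI m * NI b * Nm u)) := by
      refine CV_zet_congr hq0 ?_
      have h0 := CV_cast_dvd (M := 2 ^ (N - 1)) ⟨2 * f, by rw [hM]; ring⟩ hvu
      have h1 := Nm_congr h0
      have e : c * (NI m * NI b * Nm v) - c * (NI m * NI b * Nm u) =
          (Nm v - Nm u) * (c * (NI m * NI b)) := by ring
      rw [e]
      exact dvd_mul_of_dvd_left h1 _
    have e3 := (hg.2.1 v u (hcp v hv.1 hv.2) hvu).1
    unfold Ph
    rw [e2, e3]
  have key : ∀ α ∈ tm2 n t f, etaM (2 * f) m (sp α * b) ((c / 2 ^ (N - 3) : ℚ) / 4) =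
      (2 ^ (N - 1) : Om)⁻¹ *
        ∑ p ∈ Bx (N - 1), Ph f N m b c (α * ⟨1 + 2 * f * p.1, 2 * f * p.2⟩) := by
    intro α hα
    obtain ⟨hα1, hα2, hαc, -⟩ := hB4 α hα
    have hfb : FB f (sp α * b) := CV_fb_mul (CV_fb_sp hf0 hαc) hb
    have hpr : PrI (sp α * b) (2 ^ (N - 1)) := CV_pri_pow (CV_fb hm hfb).2.1 (N - 1)
    have hqc : (2 ^ (N - 1)).Coprime (NI m) :=
      Nat.Coprime.pow_left _ (Nat.coprime_two_left.2 hnodd)
    have hr : ((c / 2 ^ (N - 3) : ℚ) / 4) = ((c : ℚ) / ((2 ^ (N - 1) : ℕ) : ℚ)) := by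
      obtain ⟨N', rfl⟩ : ∃ N', N = N' + 3 := ⟨N - 3, by omega⟩
      rw [show N' + 3 - 3 = N' from rfl, show N' + 3 - 1 = N' + 2 from rfl]
      push_cast
      rw [pow_add, div_div]
      norm_num
    rw [hr, (h4 n t f m (sp α * b) hm hfb c (2 ^ (N - 1)) hq0 hqc).2.2 hpr]
    unfold Bx
    have e1 : ((2 ^ (N - 1) : ℕ) : Om) = 2 ^ (N - 1) := by push_cast; rfl
    rw [Finset.sum_product, one_div, e1]
    refine congrArg (fun X : Om => (2 ^ (N - 1) : Om)⁻¹ * X) ?_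
    refine Finset.sum_congr rfl fun x _ => ?_
    refine Finset.sum_congr rfl fun y _ => ?_
    have hu1 : ((2 * f : ℕ) : OO n t) ∣ (⟨1 + 2 * f * x, 2 * f * y⟩ : OO n t) - 1 := by
      rw [nat_dvd_iff, QuadraticAlgebra.re_sub, QuadraticAlgebra.im_sub, re_one, im_one]
      refine ⟨⟨x, ?_⟩, ⟨y, ?_⟩⟩
      · change 1 + 2 * (f : ℤ) * x - 1 = ((2 * f : ℕ) : ℤ) * x
        push_cast
        ring
      · change 2 * (f : ℤ) * y - 0 = ((2 * f : ℕ) : ℤ) * y
        push_cast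
        ring
    change zet (2 ^ (N - 1)) ^ (c * (NI m * NI (sp α * b) *
      Nm (⟨1 + 2 * f * x, 2 * f * y⟩ : OO n t))) * gO m (sp α * b)
        (toC (⟨1 + 2 * f * x, 2 * f * y⟩ : OO n t) / (2 * f * 2 ^ (N - 1) : ℕ)) =
      Ph f N m b c (α * (⟨1 + 2 * f * x, 2 * f * y⟩ : OO n t))
    generalize (⟨1 + 2 * f * x, 2 * f * y⟩ : OO n t) = u at hu1 ⊢
    have huc : Cop u (2 * f) := CV_cop_of_dvd hu1
    have e3 : c * (NI m * NI (sp α * b) * Nm u) = c * (NI m * NI b * Nm (α * u)) := by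
      rw [CV_NI_mul, Nm_mul, ← CV_NI_sp α]
      push_cast
      ring
    have e4 := hg.2.2.2.1 α u hα2 hα1 huc
    unfold Ph
    rw [e3, ← hM, e4]
  unfold etE
  rw [Finset.sum_congr rfl key, ← Finset.mul_sum]
  refine congrArg (fun X : Om => (2 ^ (N - 1) : Om)⁻¹ * X) ?_
  have e := hB2.sum hB3 (Ph f N m b c) hper
  rw [e, Finset.sum_product]

private theorem pm_trans {N : ℕ} {s a a' : ℤ} (h : Pm N s a) (h' : Pm N s a') : Pm N a a' := by
  rcases h with h | h <;> rcases h' with h' | h'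
  · left
    have := dvd_sub h' h
    rwa [show (s - a' - (s - a) : ℤ) = a - a' by ring] at this
  · right
    have := dvd_sub h' h
    rwa [show (s + a' - (s - a) : ℤ) = a + a' by ring] at this
  · right
    have := dvd_sub h h'
    rwa [show (s + a - (s - a') : ℤ) = a + a' by ring] at this
  · left
    have := dvd_sub h h'
    rwa [show (s + a - (s + a') : ℤ) = a - a' by ring] at this

open Classical in
private theorem pm_sum {N : ℕ} (hN : 3 ≤ N) {ι : Type} {I : Finset ι} {g : ι → ℤ} (hI : IsPm N I g)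
    (s : ℤ) (F : ℤ → Om) (hF : ∀ a : ℤ, Pm N s a → F a = F s) :
    (∑ i ∈ I, if Pm N s (g i) then F (g i) else 0) = if s % 2 = 1 then F s else 0 := by
  by_cases hs : s % 2 = 1
  · rw [if_pos hs]
    obtain ⟨i, hi, h⟩ := hI.ex s (Int.odd_iff.2 hs)
    rw [Finset.sum_eq_single i, if_pos h, hF _ h]
    · intro j hj hne
      rw [if_neg]
      intro h'
      exact hne (hI.uni j hj i hi (pm_trans h' h))
    · intro h1
      exact absurd hi h1
  · rw [if_neg hs]
    refine Finset.sum_eq_zero fun i hi => if_neg ?_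
    intro h
    apply hs
    have h1 := Int.odd_iff.1 (hI.odd i hi)
    have h2 : (2 : ℤ) ∣ 2 ^ N := dvd_pow_self 2 (by omega)
    rcases h with h | h
    · have := dvd_trans h2 h
      omega
    · have := dvd_trans h2 h
      omega

private theorem cop2 (v : OO n t) : Cop v 2 ↔ Nm v % 2 = 1 := by
  unfold Cop
  constructor
  · rintro ⟨a, b, h⟩
    by_contra h1
    obtain ⟨x, hx⟩ : ∃ x : ℤ, Nm v = 2 * x := ⟨Nm v / 2, by omega⟩
    rw [hx] at h
    have h3 : (2 : ℤ) ∣ 1 := ⟨a * x + b, by push_cast at h; linarith⟩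
    omega
  · intro h
    exact ⟨1, -(Nm v / 2), by push_cast; omega⟩

/-- The factor. -/
private def zc (N ν : ℕ) (c a : ℤ) : Om :=
  zet (2 ^ (N - 1)) ^ (c * ν * a) + zet (2 ^ (N - 1)) ^ (-(c * ν * a))

private theorem zc_congr {N ν : ℕ} {c a s : ℤ} (h : Pm N s a) : zc N ν c a = zc N ν c s := by
  have hq0 : 0 < 2 ^ (N - 1) := by positivity
  have hd : ((2 ^ (N - 1) : ℕ) : ℤ) ∣ 2 ^ N := by
    push_cast
    exact pow_dvd_pow 2 (Nat.sub_le N 1)
  unfold zc
  rcases h with h | h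
  · have h1 := dvd_trans hd h
    rw [CV_zet_congr hq0 (a := c * ν * a) (b := c * ν * s) (by
        have e : c * ν * a - c * ν * s = (s - a) * (-(c * ν)) := by ring
        rw [e]
        exact dvd_mul_of_dvd_left h1 _),
      CV_zet_congr hq0 (a := -(c * ν * a)) (b := -(c * ν * s)) (by
        have e : -(c * ν * a) - -(c * ν * s) = (s - a) * (c * ν) := by ring
        rw [e]
        exact dvd_mul_of_dvd_left h1 _)]
  · have h1 := dvd_trans hd h
    rw [CV_zet_congr hq0 (a := c * ν * a) (b := -(c * ν * s)) (by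
        have e : c * ν * a - -(c * ν * s) = (s + a) * (c * ν) := by ring
        rw [e]
        exact dvd_mul_of_dvd_left h1 _),
      CV_zet_congr hq0 (a := -(c * ν * a)) (b := c * ν * s) (by
        have e : -(c * ν * a) - c * ν * s = (s + a) * (-(c * ν)) := by ring
        rw [e]
        exact dvd_mul_of_dvd_left h1 _), add_comm]

open Classical in
private theorem b_eq [Rmf n t] {f N : ℕ} {m b : Ideal (OO n t)} (χb : Om)
    (hm : FM f m) (hb : FB f b) (hN : 3 ≤ N) {ι : Type} {I : Finset ι} {g : ι → ℤ}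
    (hI : IsPm N I g) (c : ℤ) :
    χb * rO ⊤ b * (∑ p ∈ (Bx N).filter (fun p => Cop (bp (n := n) (t := t) f p) 2),
      (Ph f N m b c (bp f p) + Ph f N m b (-c) (bp f p))) =
    ∑ i ∈ I, zc N (NI m) c (g i) * ∑ p ∈ Bx N,
      if Pm N (NI b * Nm (bp (n := n) (t := t) f p)) (g i) then
        χb * gB f N m b (bp f p) else 0 := by
  have hodd : (NI b : ℤ) % 2 = 1 := by
    have h := CV_NI_odd (CV_fb hm hb).2.1
    obtain ⟨j, hj⟩ := h
    omega
  have e1 : (∑ i ∈ I, zc N (NI m) c (g i) * ∑ p ∈ Bx N,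
      if Pm N (NI b * Nm (bp (n := n) (t := t) f p)) (g i) then
        χb * gB f N m b (bp f p) else 0) =
      ∑ p ∈ Bx N, ∑ i ∈ I, if Pm N (NI b * Nm (bp (n := n) (t := t) f p)) (g i) then
        zc N (NI m) c (g i) * (χb * gB f N m b (bp f p)) else 0 := by
    rw [Finset.sum_comm]
    refine Finset.sum_congr rfl fun a _ => ?_
    rw [Finset.mul_sum]
    refine Finset.sum_congr rfl fun p _ => ?_
    rw [mul_ite, mul_zero]
  rw [e1, Finset.sum_filter, Finset.mul_sum]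
  refine Finset.sum_congr rfl fun p _ => ?_
  rw [pm_sum hN hI (NI b * Nm (bp (n := n) (t := t) f p)) (fun a => zc N (NI m) c a *
    (χb * gB f N m b (bp f p))) (fun a ha => by
      rw [zc_congr ha])]
  have hc : Cop (bp (n := n) (t := t) f p) 2 ↔ ((NI b : ℤ) * Nm (bp (n := n) (t := t) f p)) % 2 = 1 := by
    rw [cop2, Int.mul_emod, hodd, one_mul]
    omega
  by_cases h : Cop (bp (n := n) (t := t) f p) 2
  · rw [if_pos h, if_pos (hc.1 h)]
    unfold Ph gB zc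
    generalize (bp f p : OO n t) = v
    have e2 : c * (NI m * NI b * Nm v) = c * NI m * (NI b * Nm v) := by ring
    have e3 : -c * (NI m * NI b * Nm v) = -(c * NI m * (NI b * Nm v)) := by ring
    rw [e2, e3]
    ring
  · rw [if_neg h, if_neg (fun h' => h (hc.2 h')), mul_zero]

theorem tFou : S_Fou := by
  classical
  intro h4 hG hB n t _ P hP f N m R χ hm hR hN ι I g hI c
  have e0 : (-((c : ℚ) / 2 ^ (N - 3))) = ((-c : ℤ) : ℚ) / 2 ^ (N - 3) := by
    push_cast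
    ring
  have key : ∀ b ∈ R, χ b * rO ⊤ b * (etE f m b ((c : ℚ) / 2 ^ (N - 3)) +
      etE f m b (-((c : ℚ) / 2 ^ (N - 3)))) = (2 ^ (N - 1) : Om)⁻¹ *
      ∑ i ∈ I, zc N (NI m) c (g i) * ∑ p ∈ Bx N,
      if Pm N (NI b * Nm (bp (n := n) (t := t) f p)) (g i) then
        χ b * gB f N m b (bp f p) else 0 := by
    intro b hb
    rw [e0, et_eq h4 hG hB hP hm (hR b hb) hN c, et_eq h4 hG hB hP hm (hR b hb) hN (-c),
      ← mul_add, ← Finset.sum_add_distrib, mul_left_comm, b_eq (χ b) hm (hR b hb) hN hI c]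
  have e2 : (2 ^ N : Om)⁻¹ = 2⁻¹ * (2 ^ (N - 1))⁻¹ := by
    obtain ⟨N', rfl⟩ : ∃ N', N = N' + 1 := ⟨N - 1, by omega⟩
    rw [Nat.add_sub_cancel, pow_succ, mul_inv, mul_comm]
  have e3 : (∑ i ∈ I, (zet (2 ^ (N - 1)) ^ (c * NI m * g i : ℤ) +
      zet (2 ^ (N - 1)) ^ (-(c * NI m * g i) : ℤ)) * UU f N m R χ (g i)) =
      ∑ i ∈ I, ∑ b ∈ R, zc N (NI m) c (g i) * ∑ p ∈ Bx N,
      if Pm N (NI b * Nm (bp (n := n) (t := t) f p)) (g i) then
        χ b * gB f N m b (bp f p) else 0 := by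
    refine Finset.sum_congr rfl fun i _ => ?_
    change zc N (NI m) c (g i) * SI f N R (g i) (fun b v => χ b * gB f N m b v) = _
    unfold SI
    rw [Finset.mul_sum]
  unfold xs
  rw [Finset.sum_congr rfl key, ← Finset.mul_sum, Finset.sum_comm, e2, e3]
  ring

end Pool.Agent.DR.LS
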