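import Pool.Agent.Lib.DR.LS.Spec

set_option autoImplicit false

open scoped Pointwise

noncomputable section

namespace Pool.Agent.DR.LS

open Pool.Agent.MuZ Pool.Agent.FW Pool.Agent.DN
open Pool.Agent.DI (io ofC io_inj exists_io io_ofC ofC_io VP MP UP TP ex sqr sqr_sq kap)
open Pool.Agent.DN.GL (EE pH IsR)
open Pool.Agent.DL (vl GE Pl)
open Pool.Agent.DS.G (bt IsRI CN Pm Hy)
open Pool.Agent.DR.GL (pl2 II Cls Un Orb Hn Hs PtN dv SS)

variable {n t : ℕ}

private lemma sq_root (u : ℤ) (hu : u % 8 = 1) : ∀ j : ℕ, ∃ s : ℤ, Odd s ∧ (2 : ℤ) ^ (j + 3) ∣ s ^ 2 - u := by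
  intro j
  induction j with
  | zero => exact ⟨1, odd_one, by norm_num; omega⟩
  | succ j ih =>
    obtain ⟨s, ⟨e, he⟩, c, hc⟩ := ih
    rcases Int.even_or_odd c with ⟨d, hd⟩ | ⟨d, hd⟩
    · exact ⟨s, ⟨e, he⟩, d, by rw [hc, hd]; ring⟩
    · refine ⟨s + 2 ^ (j + 2), ?_, e + d + 1 + 2 ^ j, ?_⟩
      · exact ⟨e + 2 ^ (j + 1), by rw [he]; ring⟩
      · have : (s + 2 ^ (j + 2)) ^ 2 - u = (s ^ 2 - u) + 2 * s * 2 ^ (j + 2) + (2 ^ (j + 2)) ^ 2 := by ring
        rw [this, hc, hd, he]; ring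

private lemma rep (N : ℕ) (hN : 3 ≤ N) (s : ℤ) :
    ∃ a : ℕ, a < 2 ^ N ∧ (2 : ℤ) ^ N ∣ s - a ∧ (8 : ℤ) ∣ s - a := by
  have hq : (0 : ℤ) < 2 ^ N := by positivity
  have h0 := Int.emod_nonneg s hq.ne'
  have h1 := Int.emod_lt_of_pos s hq
  have h2 : (2 : ℤ) ^ N ∣ s - s % 2 ^ N := Int.dvd_self_sub_emod
  refine ⟨(s % 2 ^ N).toNat, ?_, ?_, ?_⟩
  · zify
    rw [Int.toNat_of_nonneg h0]
    exact h1
  · rw [Int.toNat_of_nonneg h0]
    exact h2
  · rw [Int.toNat_of_nonneg h0]
    refine dvd_trans ?_ h2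
    exact pow_dvd_pow (2 : ℤ) hN

private lemma e8 {N : ℕ} (hN : 3 ≤ N) {x : ℤ} (h : (2 : ℤ) ^ N ∣ x) : (8 : ℤ) ∣ x :=
  dvd_trans (pow_dvd_pow (2 : ℤ) hN) h

private lemma mem_As {N a : ℕ} (hn : n % 4 = 1 ∨ n % 4 = 2) : a ∈ As n N ↔ a < 2 ^ N ∧
    (n % 4 = 1 ∧ a % 4 = 1 ∨ n % 8 = 2 ∧ (a % 8 = 1 ∨ a % 8 = 3) ∨ n % 8 = 6 ∧ a % 8 = 1) := by
  unfold As
  rw [Finset.mem_filter, Finset.mem_range]
  refine and_congr_right fun _ => ?_
  split_ifs with h1 h2 <;> omega

private lemma uniA {N : ℕ} (hN : 3 ≤ N) (hn : n % 4 = 1 ∨ n % 4 = 2) {a a' : ℕ} (ha : a ∈ As n N)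
    (ha' : a' ∈ As n N) (h : (2 : ℤ) ^ N ∣ (a : ℤ) - a' ∨ (2 : ℤ) ^ N ∣ (a : ℤ) + a') : a = a' := by
  rw [mem_As hn] at ha ha'
  rcases h with h | h
  · obtain ⟨h1, -⟩ := ha
    obtain ⟨h2, -⟩ := ha'
    have h3 : ((a : ℤ) - a') = 0 := by
      refine Int.eq_zero_of_abs_lt_dvd h ?_
      rw [abs_lt]
      zify at h1 h2
      constructor <;> linarith [Int.natCast_nonneg a, Int.natCast_nonneg a']
    omega
  · have := e8 hN h
    omega

theorem tNrm : S_Nrm := by
  intro O4 n t _ N hN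
  obtain ⟨hn, -, -, -, -, -, -, hcop, -, -, -, -, -, hn1, hn2, -⟩ := O4 n t
  have hodd : ∀ a ∈ As n N, Odd a := by
    intro a ha
    rw [mem_As hn] at ha
    rw [Nat.odd_iff]
    omega
  have ht : t = 0 := Rmf.zero n
  have ncop : ∀ v : OO n t, Cop v 2 → ¬ (2 : ℤ) ∣ Nm v := fun v hv => (hcop v).1 hv
  refine ⟨?_, hodd, ?_, ?_, ?_, ?_⟩
  · have hB : ∀ b ∈ Bs n, (b = 1 ∨ b = 3 ∧ n % 8 = 6) := by
      intro b hb
      unfold Bs at hb
      split_ifs at hb with h6
      · simp only [Finset.mem_insert, Finset.mem_singleton] at hb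
        omega
      · simp only [Finset.mem_singleton] at hb
        omega
    have hB1 : 1 ∈ Bs n := by
      unfold Bs
      split_ifs <;> simp
    have hB3 : n % 8 = 6 → 3 ∈ Bs n := by
      intro h
      unfold Bs
      rw [if_pos h]; simp
    constructor
    · rintro ⟨a, b⟩ hp
      rw [Finset.mem_product] at hp
      have h1 := hodd _ hp.1
      have h2 := hB _ hp.2
      have h3 : Odd b := by
        rcases h2 with h | ⟨h, -⟩
        · simp only at h; rw [h]; exact odd_one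
        · simp only at h; rw [h]; decide
      exact_mod_cast Odd.mul h1 h3
    · intro s hs
      rw [Int.odd_iff] at hs
      -- the elements 1 times
      have base : ∀ s' : ℤ, (s' = s ∨ s' = -s) →
          (n % 4 = 1 ∧ s' % 4 = 1 ∨ n % 8 = 2 ∧ (s' % 8 = 1 ∨ s' % 8 = 3) ∨ n % 8 = 6 ∧ s' % 8 = 1) →
          ∃ i ∈ As n N ×ˢ Bs n, Pm N s ((i.1 : ℤ) * i.2) := by
        intro s' hs' hc
        obtain ⟨a, ha, h1, h2⟩ := rep N hN s'
        refine ⟨(a, 1), ?_, ?_⟩
        · rw [Finset.mem_product]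
          refine ⟨?_, hB1⟩
          rw [mem_As hn]
          refine ⟨ha, ?_⟩
          simp only
          omega
        · unfold Pm
          simp only [Nat.cast_one, mul_one]
          rcases hs' with rfl | rfl
          · exact Or.inl h1
          · refine Or.inr ?_
            have : s + a = -(-s - a) := by ring
            rw [this]
            exact (dvd_neg).2 h1
      have three : ∀ s' : ℤ, (s' = s ∨ s' = -s) → n % 8 = 6 → s' % 8 = 3 →
          ∃ i ∈ As n N ×ˢ Bs n, Pm N s ((i.1 : ℤ) * i.2) := by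
        intro s' hs' h6 hc
        have hco : IsCoprime (3 : ℤ) (2 ^ N) := IsCoprime.pow_right (by norm_num)
        obtain ⟨v, w, hvw⟩ := hco
        obtain ⟨a, ha, h1, h2⟩ := rep N hN (v * s')
        have h8 : (8 : ℤ) ∣ v * 3 - 1 := e8 hN ⟨-w, by linear_combination hvw⟩
        have ha8 : (8 : ℤ) ∣ 3 * (a : ℤ) - s' := by
          have e : 3 * (a : ℤ) - s' = -3 * (v * s' - a) + s' * (v * 3 - 1) := by ring
          rw [e]
          exact dvd_add (Dvd.dvd.mul_left h2 _) (Dvd.dvd.mul_left h8 _)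
        have hN3 : (2 : ℤ) ^ N ∣ s' - 3 * (a : ℤ) := by
          have e : s' - 3 * (a : ℤ) = 3 * (v * s' - a) + s' * (w * 2 ^ N) := by
            linear_combination (-s') * hvw
          rw [e]
          exact dvd_add (Dvd.dvd.mul_left h1 _) (Dvd.dvd.mul_left (Dvd.intro_left _ rfl) _)
        refine ⟨(a, 3), ?_, ?_⟩
        · rw [Finset.mem_product]
          refine ⟨?_, hB3 h6⟩
          rw [mem_As hn]
          refine ⟨ha, ?_⟩
          simp only
          omega
        · unfold Pm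
          simp only [Nat.cast_ofNat]
          rcases hs' with rfl | rfl
          · refine Or.inl ?_
            rw [mul_comm (a : ℤ) 3]
            exact hN3
          · refine Or.inr ?_
            have : s + a * 3 = -(-s - 3 * a) := by ring
            rw [this]
            exact (dvd_neg).2 hN3
      rcases hn with hn' | hn'
      · rcases (by omega : s % 4 = 1 ∨ s % 4 = 3) with h | h
        · exact base s (Or.inl rfl) (by omega)
        · exact base (-s) (Or.inr rfl) (by omega)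
      · rcases (by omega : n % 8 = 2 ∨ n % 8 = 6) with h6 | h6
        · rcases (by omega : (s % 8 = 1 ∨ s % 8 = 3) ∨ (s % 8 = 5 ∨ s % 8 = 7)) with h | h
          · exact base s (Or.inl rfl) (by omega)
          · exact base (-s) (Or.inr rfl) (by omega)
        · rcases (by omega : s % 8 = 1 ∨ s % 8 = 7 ∨ s % 8 = 3 ∨ s % 8 = 5) with h | h | h | h
          · exact base s (Or.inl rfl) (by omega)
          · exact base (-s) (Or.inr rfl) (by omega)
          · exact three s (Or.inl rfl) h6 h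
          · exact three (-s) (Or.inr rfl) h6 (by omega)
    · rintro ⟨a, b⟩ hp ⟨a', b'⟩ hp' h
      rw [Finset.mem_product] at hp hp'
      have hb := hB _ hp.2
      have hb' := hB _ hp'.2
      have ha1 := hp.1
      have ha2 := hp'.1
      simp only at hb hb' ha1 ha2 h
      unfold Pm at h
      have hbb : b = b' := by
        rcases hb with rfl | ⟨rfl, h6⟩ <;> rcases hb' with rfl | ⟨rfl, h6'⟩
        · rfl
        · exfalso
          rw [mem_As hn] at ha1 ha2
          push_cast at h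
          rcases h with h | h
          · have := e8 hN h; omega
          · have := e8 hN h; omega
        · exfalso
          rw [mem_As hn] at ha1 ha2
          push_cast at h
          rcases h with h | h
          · have := e8 hN h; omega
          · have := e8 hN h; omega
        · rfl
      subst hbb
      have hcb : IsCoprime ((2 : ℤ) ^ N) (b : ℤ) := by
        rcases hb with rfl | ⟨rfl, h6⟩
        · push_cast; exact isCoprime_one_right
        · push_cast; exact IsCoprime.pow_left (by norm_num)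
      have haa : a = a' := by
        refine uniA hN hn ha1 ha2 ?_
        rcases h with h | h
        · left
          rw [← sub_mul] at h
          exact hcb.dvd_of_dvd_mul_right h
        · right
          rw [← add_mul] at h
          exact hcb.dvd_of_dvd_mul_right h
      rw [haa]
  · intro f' a hf' ha
    have ha0 := hodd a ha
    rw [mem_As hn] at ha
    obtain ⟨j, rfl⟩ : ∃ j, N = j + 3 := ⟨N - 3, by omega⟩
    -- a solution modulo 2^N
    obtain ⟨x0, y0, h0⟩ : ∃ x0 y0 : ℤ, (2 : ℤ) ^ (j + 3) ∣ x0 ^ 2 + n * y0 ^ 2 - a := by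
      rcases (by omega : (a % 8 = 1) ∨ (n % 4 = 1 ∧ a % 8 = 5) ∨ (n % 8 = 2 ∧ a % 8 = 3)) with h | ⟨h, h'⟩ | ⟨h, h'⟩
      · obtain ⟨s, -, hs⟩ := sq_root a (by omega) j
        exact ⟨s, 0, by simpa using hs⟩
      · obtain ⟨s, -, hs⟩ := sq_root (a - 4 * n) (by omega) j
        refine ⟨s, 2, ?_⟩
        have e : s ^ 2 + (n : ℤ) * 2 ^ 2 - a = s ^ 2 - (a - 4 * n) := by ring
        rw [e]; exact hs
      · obtain ⟨s, -, hs⟩ := sq_root (a - n) (by omega) j
        refine ⟨s, 1, ?_⟩
        have e : s ^ 2 + (n : ℤ) * 1 ^ 2 - a = s ^ 2 - (a - n) := by ring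
        rw [e]; exact hs
    have hco : IsCoprime ((2 : ℤ) ^ (j + 3)) (f' : ℤ) := by
      refine IsCoprime.pow_left ?_
      rw [Int.isCoprime_iff_gcd_eq_one]
      have : Nat.Coprime 2 f' := (Nat.coprime_two_left).2 hf'
      exact_mod_cast this
    obtain ⟨u, v, huv⟩ := hco
    set h : OO n t := ⟨x0 * (v * f') + u * 2 ^ (j + 3), y0 * (v * f')⟩ with hh
    have hc1 : (f' : OO n t) ∣ h - 1 := by
      rw [nat_dvd_iff]
      refine ⟨⟨x0 * v - v, ?_⟩, ⟨y0 * v, ?_⟩⟩
      · simp only [hh, QuadraticAlgebra.re_sub, QuadraticAlgebra.re_one]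
        linear_combination huv
      · simp only [hh, QuadraticAlgebra.im_sub, QuadraticAlgebra.im_one]
        ring
    have hc2 : (2 : ℤ) ^ (j + 3) ∣ Nm h - a := by
      have h1 : (((2 ^ (j + 3) : ℕ) : ℕ) : OO n t) ∣ h - ⟨x0, y0⟩ := by
        rw [nat_dvd_iff]
        refine ⟨⟨u - x0 * u, ?_⟩, ⟨-(y0 * u), ?_⟩⟩
        · simp only [hh, QuadraticAlgebra.re_sub]
          push_cast
          linear_combination x0 * huv
        · simp only [hh, QuadraticAlgebra.im_sub]
          push_cast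
          linear_combination y0 * huv
      have h2 := Nm_congr h1
      have h3 : Nm (⟨x0, y0⟩ : OO n t) = x0 ^ 2 + n * y0 ^ 2 := by
        simp [Nm, ht]
      rw [h3] at h2
      push_cast at h2
      have e : Nm h - a = (Nm h - (x0 ^ 2 + n * y0 ^ 2)) + (x0 ^ 2 + n * y0 ^ 2 - a) := by ring
      rw [e]
      exact dvd_add h2 h0
    refine ⟨h, hc1, ?_, hc2⟩
    rw [hcop]
    intro h2
    have h8 := e8 (by omega : 3 ≤ j + 3) hc2
    rw [Nat.odd_iff] at ha0
    omega
  · intro h hh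
    have h2 := ncop h hh
    rcases hn with hn' | hn'
    · have h4 := hn1 h hh hn'
      obtain ⟨a, ha, h1, h8⟩ := rep N hN (Nm h)
      refine ⟨a, ?_, Or.inl h1⟩
      rw [mem_As (Or.inl hn')]
      exact ⟨ha, by omega⟩
    · have h4 := hn2 h hh hn'
      by_cases h7 : Nm h % 8 = 7
      · obtain ⟨a, ha, h1, h8⟩ := rep N hN (-Nm h)
        refine ⟨a, ?_, Or.inr ?_⟩
        · rw [mem_As (Or.inr hn')]
          exact ⟨ha, by omega⟩
        · have e : Nm h + a = -(-Nm h - a) := by ring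
          rw [e]
          exact (dvd_neg).2 h1
      · obtain ⟨a, ha, h1, h8⟩ := rep N hN (Nm h)
        refine ⟨a, ?_, Or.inl h1⟩
        rw [mem_As (Or.inr hn')]
        exact ⟨ha, by omega⟩
  · intro a ha a' ha' h
    exact uniA hN hn ha ha' h
  · intro h6 h hh hd
    have h8 := e8 hN hd
    rcases hn with hn' | hn'
    · have h4 := hn1 h hh hn'
      omega
    · have h4 := hn2 h hh hn'
      omega

end Pool.Agent.DR.LS
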