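import Pool.Agent.Lib.DR.LS.Spec

/-!
# Theorem DR, part LS: the two systems of classes modulo `f 2^N` with norm `± a`
-/

set_option autoImplicit false

open scoped Pointwise

noncomputable section

namespace Pool.Agent.DR.LS

open Pool.Agent.MuZ Pool.Agent.FW Pool.Agent.DN
open Pool.Agent.DI (io ofC io_inj exists_io io_ofC ofC_io VP MP UP TP ex sqr sqr_sq kap)
open Pool.Agent.DN.GL (EE pH IsR)
open Pool.Agent.DL (vl GE Pl)
open Pool.Agent.DS.G (bt IsRI CN Pm Hy)
open Pool.Agent.DR.GL (pl2 II Cls Un Orb Hn Hs PtN dv SS)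

variable {n t : ℕ}

private theorem RBa_re (f x y : ℕ) : (bt n t f x y).re = 1 + f * x := rfl

private theorem RBa_im (f x y : ℕ) : (bt n t f x y).im = f * y := rfl

private theorem RBa_ne (f x y : ℕ) : bt n t f x y ≠ 0 := by
  intro h
  have h1 := congrArg QuadraticAlgebra.re h
  rw [RBa_re, QuadraticAlgebra.re_zero] at h1
  have h2 : (0 : ℤ) ≤ (f : ℤ) * x := by positivity
  linarith

private theorem RBa_f (f x y : ℕ) : (f : OO n t) ∣ bt n t f x y - 1 := by
  rw [nat_dvd_iff, QuadraticAlgebra.re_sub, QuadraticAlgebra.im_sub, RBa_re, RBa_im, re_one, im_one]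
  exact ⟨⟨x, by ring⟩, ⟨y, by ring⟩⟩

private theorem RBa_copf (f x y : ℕ) : Cop (bt n t f x y) f := by
  refine cop_congr ?_ (cop_one f)
  rw [← neg_sub, dvd_neg]
  exact RBa_f f x y

private theorem RBa_two {N : ℕ} (hN : 1 ≤ N) {a b c : ℤ} (hc : Odd c) (h : Pm N (a * b) c) :
    ¬ (2 : ℤ) ∣ b := by
  intro hb
  have h2 : (2 : ℤ) ∣ 2 ^ N := dvd_pow_self 2 (by omega)
  have hab : (2 : ℤ) ∣ a * b := hb.mul_left a
  have hc2 : ¬ (2 : ℤ) ∣ c := by
    obtain ⟨u, hu⟩ := hc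
    omega
  rcases h with h | h
  · have h3 := h2.trans h
    apply hc2
    have := dvd_sub hab h3
    rwa [sub_sub_cancel] at this
  · have h3 := h2.trans h
    apply hc2
    have := dvd_sub h3 hab
    rwa [add_sub_cancel_left] at this

private theorem RBa_lt {N x x' f : ℕ} (hf : 0 < f) (hx : x < 2 ^ N) (hx' : x' < 2 ^ N)
    (h : ((f * 2 ^ N : ℕ) : ℤ) ∣ (f : ℤ) * ((x : ℤ) - x')) : x = x' := by
  have hf' : (f : ℤ) ≠ 0 := by exact_mod_cast hf.ne'
  have h1 : ((2 ^ N : ℕ) : ℤ) ∣ (x : ℤ) - x' := by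
    rw [Nat.cast_mul] at h
    exact (mul_dvd_mul_iff_left hf').1 h
  have h2 : (x : ℤ) - x' = 0 := by
    apply Int.eq_zero_of_abs_lt_dvd h1
    rw [abs_lt]
    have e1 : (x : ℤ) < (2 ^ N : ℕ) := by exact_mod_cast hx
    have e2 : (x' : ℤ) < (2 ^ N : ℕ) := by exact_mod_cast hx'
    constructor <;> linarith [Int.natCast_nonneg x, Int.natCast_nonneg x']
  omega

private theorem RBa_symm {N : ℕ} {x y : ℤ} (h : Pm N x y) : Pm N y x := by
  rcases h with h | h
  · left
    rw [← neg_sub, dvd_neg]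
    exact h
  · right
    rwa [add_comm]

private theorem RBa_trans {N : ℕ} {x y z : ℤ} (h : Pm N x y) (h' : Pm N y z) : Pm N x z := by
  rcases h with h | h <;> rcases h' with h' | h'
  · left
    have := dvd_add h h'
    rwa [sub_add_sub_cancel] at this
  · right
    have := dvd_add h h'
    have e : x - y + (y + z) = x + z := by ring
    rwa [e] at this
  · right
    have := dvd_sub h h'
    have e : x + y - (y - z) = x + z := by ring
    rwa [e] at this
  · left
    have := dvd_sub h h'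
    have e : x + y - (y + z) = x - z := by ring
    rwa [e] at this

private theorem RBa_mul {N : ℕ} {x y z : ℤ} (h : Pm N x y) : Pm N (z * x) (z * y) := by
  rcases h with h | h
  · left
    rw [← mul_sub]
    exact h.mul_left z
  · right
    rw [← mul_add]
    exact h.mul_left z

theorem tRBa : S_RBa := by
  intro n t _ f N a hodd hf15 hN ha
  have hf0 : 0 < f := hodd.pos
  have hf3 : 3 ≤ f := by
    have := Nat.le_of_dvd hf0 hf15
    omega
  have hM0 : 0 < f * 2 ^ N := Nat.mul_pos hf0 (pow_pos two_pos N)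
  have hfM : f ∣ f * 2 ^ N := dvd_mul_right f _
  obtain ⟨o1, o2, o3, o4, o5⟩ := aO6 n t
  obtain ⟨n1, n2, n3, n4, n5, n6, n7, n8⟩ := aO2 n t
  obtain ⟨c1, c2, c3, c4, c5, c6, c7, c8, c9⟩ := DS.G.aCop n t
  obtain ⟨r1, r2, r3, r4, r5, r6, r7, r8, r9, r10, -⟩ := aO7 n t (f * 2 ^ N) hM0
  obtain ⟨q1, q2, q3, q4, q5, q6, q7, q8, q9, -⟩ := aO7 n t f hf0
  -- from `2 f` to `f 2^N`
  have hPM : ∀ b : Ideal (OO n t), PrI b (2 * f) → PrI b (f * 2 ^ N) := by
    intro b hb
    rw [o3 _ _ hM0]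
    rw [o3 _ _ (by omega)] at hb
    exact Nat.Coprime.mul_right (Nat.Coprime.coprime_dvd_right (dvd_mul_left f 2) hb)
      (Nat.Coprime.pow_right N (Nat.Coprime.coprime_dvd_right (dvd_mul_right 2 f) hb))
  -- norms
  have hNI : ∀ (v : OO n t) (b : Ideal (OO n t)), (NI (sp v * b) : ℤ) = NI b * Nm v := by
    intro v b
    rw [n5, Nat.cast_mul, n4, mul_comm]
  constructor
  · intro R hR hR2 I hI
    -- coprimality of `β`
    have hc : ∀ p ∈ I, Cop (bt n t f p.2.1 p.2.2) (2 * f) := by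
      intro p hp
      rw [c2]
      exact ⟨(c3 _).2 (RBa_two hN ha ((hI p).1 hp).2.2.2), RBa_copf f _ _⟩
    have hcM : ∀ p ∈ I, Cop (bt n t f p.2.1 p.2.2) (f * 2 ^ N) := fun p hp => c9 f N _ (hc p hp)
    have hcore : ∀ p ∈ I, ∀ q ∈ I, Ray (f * 2 ^ N) (sp (bt n t f p.2.1 p.2.2) * p.1)
        (sp (bt n t f q.2.1 q.2.2) * q.1) → p = q := by
      intro p hp q hq h
      obtain ⟨hp1, hp2, hp3, hp4⟩ := (hI p).1 hp
      obtain ⟨hq1, hq2, hq3, hq4⟩ := (hI q).1 hq
      have hone : ∀ (x y : ℕ) (b : Ideal (OO n t)), Ray f (sp (bt n t f x y) * b) b := by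
        intro x y b
        have h1 : Ray f (sp (bt n t f x y)) (sp 1) :=
          (q8 _ _ (RBa_ne f x y) one_ne_zero (RBa_copf f x y) (cop_one f)).2
            ⟨1, Nm_one, by rw [one_mul]; exact RBa_f f x y⟩
        have h2 := q4 _ _ _ _ h1 (q1 b)
        have h3 : sp (1 : OO n t) * b = b := by
          rw [sp, Ideal.span_singleton_one, Ideal.top_mul]
        rwa [h3] at h2
      have hb : p.1 = q.1 := by
        refine hR.uni _ hp1 _ hq1 ?_
        exact q3 _ _ _ (q2 _ _ (hone p.2.1 p.2.2 p.1)) (q3 _ _ _ (r7 f _ _ hfM h) (hone _ _ _))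
      rw [← hb] at h
      have h1 := r5 _ _ _ (hR.mem _ hp1).1 (hPM _ (hR2 _ hp1)) h
      have h3 : ((f * 2 ^ N : ℕ) : OO n t) ∣ bt n t f p.2.1 p.2.2 - bt n t f q.2.1 q.2.2 := by
        obtain ⟨u, hu, hd⟩ := (r8 _ _ (RBa_ne f _ _) (RBa_ne f _ _) (hcM p hp) (hcM q hq)).1 h1
        have hu1 : (f : OO n t) ∣ u - 1 := by
          have hd' : (f : OO n t) ∣ bt n t f p.2.1 p.2.2 - u * bt n t f q.2.1 q.2.2 :=
            (Nat.cast_dvd_cast hfM).trans hd
          have e : u - 1 = (bt n t f p.2.1 p.2.2 - 1) - (bt n t f p.2.1 p.2.2 - u * bt n t f q.2.1 q.2.2) -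
              u * (bt n t f q.2.1 q.2.2 - 1) := by ring
          rw [e]
          exact dvd_sub (dvd_sub (RBa_f f _ _) hd') ((RBa_f f _ _).mul_left _)
        rw [q9 u hf3 hu hu1, one_mul] at hd
        exact hd
      obtain ⟨h4, h5⟩ := (nat_dvd_iff _ _).1 h3
      rw [QuadraticAlgebra.re_sub, RBa_re, RBa_re] at h4
      rw [QuadraticAlgebra.im_sub, RBa_im, RBa_im] at h5
      have e1 : p.2.1 = q.2.1 := by
        refine RBa_lt hf0 hp2 hq2 ?_
        have e : 1 + (f : ℤ) * (p.2.1 : ℤ) - (1 + f * (q.2.1 : ℤ)) = f * ((p.2.1 : ℤ) - q.2.1) := by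
          ring
        rwa [e] at h4
      have e2 : p.2.2 = q.2.2 := by
        refine RBa_lt hf0 hp3 hq3 ?_
        have e : (f : ℤ) * (p.2.2 : ℤ) - f * (q.2.2 : ℤ) = f * ((p.2.2 : ℤ) - q.2.2) := by
          ring
        rwa [e] at h5
      exact Prod.ext hb (Prod.ext e1 e2)
    refine ⟨fun p hp q hq h => hcore p hp q hq (by
      have h' : sp (bt n t f p.2.1 p.2.2) * p.1 = sp (bt n t f q.2.1 q.2.2) * q.1 := h
      rw [h']
      exact r1 _), fun B hB => ?_⟩
    have hBm : ∀ b, b ∈ B ↔ ∃ p ∈ I, sp (bt n t f p.2.1 p.2.2) * p.1 = b := by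
      intro b
      rw [← Finset.mem_coe, hB]
      rfl
    refine ⟨?_, ?_, ?_⟩
    · intro b hb
      obtain ⟨p, hp, rfl⟩ := (hBm b).1 hb
      obtain ⟨hp1, hp2, hp3, hp4⟩ := (hI p).1 hp
      refine ⟨?_, ?_, ?_⟩
      · intro h
        rw [Ideal.mul_eq_bot] at h
        rcases h with h | h
        · exact RBa_ne f _ _ (Ideal.span_singleton_eq_bot.1 h)
        · exact (hR.mem _ hp1).1 h
      · rw [o1]
        exact ⟨(o4 _ _ (by omega)).2 (hc p hp), hR2 _ hp1⟩
      · rw [hNI]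
        exact hp4
    · intro b' hb'
      obtain ⟨hb0, hb2, hbN⟩ := hb'
      have hbf : PrI b' f := ((o2 2 f b').1 hb2).2
      obtain ⟨b, hbR, hRay⟩ := hR.ex b' hb0 hbf
      have hbM := hPM b (hR2 b hbR)
      have hbM' := hPM b' hb2
      obtain ⟨β, hβ0, hβf, hβc, hβR⟩ :=
        DS.G.aRUp n t f (2 ^ N) b b' hf0 (pow_pos two_pos N) (hR.mem b hbR).1 hb0
        hbM hbM' hRay
      obtain ⟨hg1, hg2⟩ := (nat_dvd_iff _ _).1 hβf
      rw [QuadraticAlgebra.re_sub, re_one] at hg1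
      rw [QuadraticAlgebra.im_sub, im_one, sub_zero] at hg2
      obtain ⟨g1, hg1⟩ := hg1
      obtain ⟨g2, hg2⟩ := hg2
      have h2N : (0 : ℤ) < 2 ^ N := by positivity
      have hres : ∀ g : ℤ, ∃ x : ℕ, x < 2 ^ N ∧ (2 : ℤ) ^ N ∣ g - x := by
        intro g
        have e1 := Int.emod_nonneg g h2N.ne'
        have e2 := Int.emod_lt_of_pos g h2N
        refine ⟨(g % 2 ^ N).toNat, ?_, ?_⟩
        · have : ((g % 2 ^ N).toNat : ℤ) < ((2 ^ N : ℕ) : ℤ) := by
            rw [Int.toNat_of_nonneg e1]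
            push_cast
            exact e2
          exact_mod_cast this
        · rw [Int.toNat_of_nonneg e1]
          exact Int.dvd_self_sub_emod
      obtain ⟨x, hx, hx'⟩ := hres g1
      obtain ⟨y, hy, hy'⟩ := hres g2
      have hdiv : ((f * 2 ^ N : ℕ) : OO n t) ∣ β - bt n t f x y := by
        rw [nat_dvd_iff, QuadraticAlgebra.re_sub, QuadraticAlgebra.im_sub, RBa_re, RBa_im]
        push_cast
        constructor
        · have e : β.re - (1 + f * (x : ℤ)) = f * (g1 - x) := by linarith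
          rw [e]
          exact mul_dvd_mul_left _ hx'
        · have e : β.im - f * (y : ℤ) = f * (g2 - y) := by linarith
          rw [e]
          exact mul_dvd_mul_left _ hy'
      have hbc : Cop (bt n t f x y) (f * 2 ^ N) := cop_congr hdiv hβc
      have hR1 : Ray (f * 2 ^ N) (sp β) (sp (bt n t f x y)) :=
        (r8 _ _ hβ0 (RBa_ne f x y) hβc hbc).2 ⟨1, Nm_one, by rw [one_mul]; exact hdiv⟩
      have hR3 : Ray (f * 2 ^ N) b' (sp (bt n t f x y) * b) := r3 _ _ _ hβR (r4 _ _ _ _ hR1 (r1 b))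
      have hPr : PrI (sp (bt n t f x y) * b) (f * 2 ^ N) := by
        rw [o1]
        exact ⟨(o4 _ _ hM0).2 hbc, hbM⟩
      have h9 := aO9 n t (f * 2 ^ N) hM0 _ _ hbM' hPr hR3
      rw [hNI] at h9
      have h10 : (2 : ℤ) ^ N ∣ (NI b' : ℤ) - NI b * Nm (bt n t f x y) := by
        refine Dvd.dvd.trans ?_ h9
        push_cast
        exact dvd_mul_left _ _
      have hPm : Pm N (NI b * Nm (bt n t f x y)) a := by
        rcases hbN with h | h
        · left
          have := dvd_sub h h10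
          have e : (NI b' : ℤ) - a - (NI b' - NI b * Nm (bt n t f x y)) = NI b * Nm (bt n t f x y) - a := by
            ring
          rwa [e] at this
        · right
          have := dvd_sub h h10
          have e : (NI b' : ℤ) + a - (NI b' - NI b * Nm (bt n t f x y)) = NI b * Nm (bt n t f x y) + a := by
            ring
          rwa [e] at this
      refine ⟨sp (bt n t f x y) * b, (hBm _).2 ⟨(b, x, y), (hI _).2 ⟨hbR, hx, hy, hPm⟩, rfl⟩, hR3⟩
    · intro b hb b' hb' h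
      obtain ⟨p, hp, rfl⟩ := (hBm b).1 hb
      obtain ⟨q, hq, rfl⟩ := (hBm b').1 hb'
      rw [hcore p hp q hq h]
  · intro T D a0 hT hD ha0
    obtain ⟨hinj, hRI⟩ := DS.G.aRD n t f N T D hodd hf15 hN hT hD.mem
      (fun b hb => hD.ex b hb.1 hb.2.1 hb.2.2) hD.uni
    classical
    have hB0 := hRI ((D ×ˢ T).image (fun p : Ideal (OO n t) × OO n t => sp p.2 * p.1))
      (Finset.coe_image)
    have hm0 : ∀ p ∈ D ×ˢ T, sp p.2 * p.1 ∈
        (D ×ˢ T).image (fun p : Ideal (OO n t) × OO n t => sp p.2 * p.1) :=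
      fun p hp => Finset.mem_image_of_mem _ hp
    obtain ⟨ha1, ha2, ha3⟩ := ha0
    have ha2M := hPM a0 ha2
    obtain ⟨a1, hb1, hb2, hb3⟩ := r10 a0 ha1 ha2M
    have htop : PrI (⊤ : Ideal (OO n t)) (f * 2 ^ N) := by
      unfold PrI
      rw [top_sup_eq]
    have hNtop : (NI (⊤ : Ideal (OO n t)) : ℤ) = 1 := by
      have := n4 1
      rw [sp, Ideal.span_singleton_one, Nm_one] at this
      exact this
    have hinv : Pm N (NI a1 * NI a0 : ℤ) 1 := by
      left
      have h1 := aO9 n t (f * 2 ^ N) hM0 _ _ ((o1 _ _ _).2 ⟨ha2M, hb2⟩) htop hb3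
      have e1 : ((NI a0 * NI a1 : ℕ) : ℤ) = (NI a1 : ℤ) * NI a0 := by
        push_cast
        ring
      rw [hNtop, n5, e1] at h1
      refine Dvd.dvd.trans ?_ h1
      push_cast
      exact dvd_mul_left _ _
    have hP2 : PrI a1 (2 * f) := by
      rw [o3 _ _ (by omega)]
      rw [o3 _ _ hM0] at hb2
      refine Nat.Coprime.mul_right ?_ (Nat.Coprime.coprime_dvd_right (dvd_mul_right f _) hb2)
      exact Nat.Coprime.coprime_dvd_right (Dvd.dvd.mul_left (dvd_pow_self 2 (by omega)) f) hb2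
    have hcore : ∀ p ∈ D ×ˢ T, ∀ q ∈ D ×ˢ T, Ray (f * 2 ^ N) (sp p.2 * (a0 * p.1))
        (sp q.2 * (a0 * q.1)) → p = q := by
      intro p hp q hq h
      have e1 : ∀ p : Ideal (OO n t) × OO n t, sp p.2 * (a0 * p.1) = (sp p.2 * p.1) * a0 := by
        intro p
        rw [mul_comm a0, mul_assoc]
      rw [e1, e1] at h
      have h1 := r5 _ _ a0 ha1 ha2M h
      have h2 := hB0.uni _ (hm0 p hp) _ (hm0 q hq) h1
      exact hinj (Finset.mem_coe.2 hp) (Finset.mem_coe.2 hq) h2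
    refine ⟨fun p hp q hq h => hcore p (Finset.mem_coe.1 hp) q (Finset.mem_coe.1 hq) (by
      have h' : sp p.2 * (a0 * p.1) = sp q.2 * (a0 * q.1) := h
      rw [h']
      exact r1 _), fun B hB => ?_⟩
    have hBm : ∀ b, b ∈ B ↔ ∃ p ∈ D ×ˢ T, sp p.2 * (a0 * p.1) = b := by
      intro b
      rw [← Finset.mem_coe, hB]
      rfl
    refine ⟨?_, ?_, ?_⟩
    · intro b hb
      obtain ⟨p, hp, rfl⟩ := (hBm b).1 hb
      obtain ⟨c1, c2, c3⟩ := hB0.mem _ (hm0 p hp)
      have e1 : sp p.2 * (a0 * p.1) = a0 * (sp p.2 * p.1) := by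
        rw [mul_left_comm]
      rw [e1]
      refine ⟨?_, ?_, ?_⟩
      · intro h
        rw [Ideal.mul_eq_bot] at h
        rcases h with h | h
        · exact ha1 h
        · exact c1 h
      · exact (o1 _ _ _).2 ⟨ha2, c2⟩
      · have h3 : Pm N (NI (sp p.2 * p.1) : ℤ) 1 := c3
        have h4 := RBa_mul (z := (NI a0 : ℤ)) h3
        rw [mul_one] at h4
        rw [n5, Nat.cast_mul]
        exact RBa_trans h4 ha3
    · intro b hb
      obtain ⟨d1, d2, d3⟩ := hb
      have hc : CN f N (a1 * b) := by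
        refine ⟨?_, (o1 _ _ _).2 ⟨hP2, d2⟩, ?_⟩
        · intro h
          rw [Ideal.mul_eq_bot] at h
          rcases h with h | h
          · exact hb1 h
          · exact d1 h
        · have h3 : Pm N (NI (a1 * b) : ℤ) 1 := by
            rw [n5, Nat.cast_mul]
            exact RBa_trans (RBa_mul (RBa_trans d3 (RBa_symm ha3))) hinv
          exact h3
      obtain ⟨b', hb', hR⟩ := hB0.ex _ hc
      obtain ⟨p, hp, rfl⟩ := Finset.mem_image.1 hb'
      refine ⟨sp p.2 * (a0 * p.1), (hBm _).2 ⟨p, hp, rfl⟩, ?_⟩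
      have h1 := r4 _ _ _ _ (r1 a0) hR
      have h2 := r4 _ _ _ _ hb3 (r1 b)
      rw [Ideal.top_mul] at h2
      have e1 : a0 * a1 * b = a0 * (a1 * b) := mul_assoc _ _ _
      have e2 : a0 * (sp p.2 * p.1) = sp p.2 * (a0 * p.1) := mul_left_comm _ _ _
      rw [e1] at h2
      rw [e2] at h1
      exact r3 _ _ _ (r2 _ _ h2) h1
    · intro b hb b' hb' h
      obtain ⟨p, hp, rfl⟩ := (hBm b).1 hb
      obtain ⟨q, hq, rfl⟩ := (hBm b').1 hb'
      rw [hcore p hp q hq h]

end Pool.Agent.DR.LS
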