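import Pool.Agent.Lib.DR.LS.Spec

/-!
# Theorem DR, part LS, module RS: reindexing the classes modulo `f 2^N` with norm `± a`
-/

set_option autoImplicit false

open scoped Pointwise

noncomputable section

namespace Pool.Agent.DR.LS

open Pool.Agent.MuZ Pool.Agent.FW Pool.Agent.DN
open Pool.Agent.DI (io ofC io_inj exists_io io_ofC ofC_io VP MP UP TP ex sqr sqr_sq kap)
open Pool.Agent.DN.GL (EE pH IsR)
open Pool.Agent.DL (vl GE Pl)
open Pool.Agent.DS.G (bt IsRI CN Pm Hy)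
open Pool.Agent.DR.GL (pl2 II Cls Un Orb Hn Hs PtN dv SS)

private theorem RS_sum {P : Ideal ZZ} (hP : Ab2 P) (q : ℚ) {ι : Type} (s : Finset ι) (g : ι → Om) :
    (QuotientAddGroup.mk (∑ i ∈ s, g i) : Om ⧸ GEs P hP q) =
      ∑ i ∈ s, (QuotientAddGroup.mk (g i) : Om ⧸ GEs P hP q) :=
  map_sum (QuotientAddGroup.mk' (GEs P hP q)) g s

private theorem RS_odd {N : ℕ} (hN : 1 ≤ N) {x y a : ℤ} (ha : Odd a) (h : Pm N (x * y) a) :
    ¬ (2 : ℤ) ∣ y := by
  intro h2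
  have h3 : (2 : ℤ) ∣ 2 ^ N := dvd_pow_self 2 (by omega)
  have h4 : (2 : ℤ) ∣ x * y := h2.mul_left x
  obtain ⟨r, rfl⟩ := ha
  rcases h with h | h
  · have h5 := (Int.dvd_iff_dvd_of_dvd_sub (h3.trans h)).1 h4
    omega
  · have h5 := (Int.dvd_iff_dvd_of_dvd_add (h3.trans h)).1 h4
    omega

theorem tRS : S_RS := by
  classical
  intro hC hG hRBa n t _ P hP f N m R χ T D D' a a0 hfm hR hRC hχ hN hT hD ha ha0 hD'
  have hf := hfm.odd
  have hf15 := hfm.dvd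
  have hfpos : 0 < f := hf.pos
  have hMpos : 0 < f * 2 ^ N := by positivity
  obtain ⟨hVP, hty, hhf⟩ := hC n t P hP f χ hf hf15 hχ
  have := hP.1.1
  set F : Ideal (OO n t) → Om ⧸ GEs P hP (N : ℚ) :=
    fun b' => QuotientAddGroup.mk (χ b' * gB f N m b' 1) with hFdef
  have hF : ∀ b b' : Ideal (OO n t), CNa f N a b → CNa f N a b' → Ray (f * 2 ^ N) b b' →
      F b = F b' := by
    intro b b' hb hb' hr
    have h1 : χ b = χ b' := by
      refine hχ.ray b b' hb.1 hb'.1 hb.2.1 hb'.2.1 ?_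
      refine (aO7 n t (f * 2 ^ N) hMpos).2.2.2.2.2.2.1 (2 * f) b b' ?_ hr
      obtain ⟨N', rfl⟩ : ∃ N', N = N' + 1 := ⟨N - 1, by omega⟩
      exact ⟨2 ^ N', by ring⟩
    have h2 := (hG n t P hP f N m b hfm hN ⟨hb.1, hb.2.1⟩).2.2.2.2 b' ⟨hb'.1, hb'.2.1⟩ hr
    rw [hFdef]
    refine (GEs_eq hP).2 ?_
    rw [h1, ← mul_sub]
    exact DL.GE.mul_left (pl2 hP) (hVP b').1 h2
  obtain ⟨hS1, hS2⟩ := hRBa n t f N a hf hf15 hN ha
  -- the first system
  have hβ1 : ∀ p : ℕ × ℕ, (f : OO n t) ∣ bp f p - 1 := by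
    intro p
    rw [bp, nat_dvd_iff, QuadraticAlgebra.re_sub, QuadraticAlgebra.im_sub, re_one, im_one]
    exact ⟨⟨p.1, by simp [bt]⟩, ⟨p.2, by simp [bt]⟩⟩
  have h1 : ∀ b ∈ R, ∀ p ∈ Bx N, Pm N (NI b * Nm (bp (n := n) (t := t) f p)) a →
      χ (sp (bp f p) * b) * gB f N m (sp (bp f p) * b) 1 =
        χ b * (toO (bp (n := n) (t := t) f p) * gB f N m b (bp f p)) := by
    intro b hb p _ hpm
    have hc2 : Cop (bp (n := n) (t := t) f p) 2 := (DS.G.aCop n t).2.2.1 _ |>.2 (RS_odd hN ha hpm)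
    have hc : Cop (bp (n := n) (t := t) f p) (2 * f) :=
      CV_cop_mul.2 ⟨hc2, CV_cop_of_dvd (hβ1 p)⟩
    have h3 := (hG n t P hP f N m b hfm hN (hR b hb)).2.2.1 (bp f p) 1 hc
      (CV_cop_of_dvd (by rw [sub_self]; exact dvd_zero _))
    rw [mul_one] at h3
    rw [hχ.mul, hty _ (hβ1 p) hc2, h3]
    ring
  set I : Finset (Ideal (OO n t) × ℕ × ℕ) :=
    (R ×ˢ Bx N).filter (fun p => Pm N (NI p.1 * Nm (bt n t f p.2.1 p.2.2)) a) with hI
  have hmem : ∀ p, p ∈ I ↔ p.1 ∈ R ∧ p.2.1 < 2 ^ N ∧ p.2.2 < 2 ^ N ∧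
      Pm N (NI p.1 * Nm (bt n t f p.2.1 p.2.2)) a := by
    intro p
    rw [hI, Bx, Finset.mem_filter, Finset.mem_product, Finset.mem_product, Finset.mem_range,
      Finset.mem_range]
    tauto
  obtain ⟨hinj1, hB1⟩ := hS1 R hRC (fun b hb => (hR b hb).cop) I hmem
  have e1 : (QuotientAddGroup.mk (SI f N R a (fun b v => χ b * (toO v * gB f N m b v))) :
      Om ⧸ GEs P hP (N : ℚ)) =
      ∑ b ∈ I.image (fun p : Ideal (OO n t) × ℕ × ℕ => sp (bt n t f p.2.1 p.2.2) * p.1), F b := by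
    rw [Finset.sum_image (fun x hx y hy h => hinj1 hx hy h), hI, Finset.sum_filter,
      Finset.sum_product, SI, RS_sum]
    refine Finset.sum_congr rfl fun b hb => ?_
    rw [RS_sum]
    refine Finset.sum_congr rfl fun p hp => ?_
    by_cases hpm : Pm N (NI b * Nm (bp (n := n) (t := t) f p)) a
    · rw [if_pos hpm]
      refine Eq.trans ?_ (if_pos (show Pm N (NI b * Nm (bt n t f p.1 p.2)) a from hpm)).symm
      exact congrArg QuotientAddGroup.mk (h1 b hb p hp hpm).symm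
    · rw [if_neg hpm]
      refine Eq.trans ?_ (if_neg (show ¬ Pm N (NI b * Nm (bt n t f p.1 p.2)) a from hpm)).symm
      exact QuotientAddGroup.mk_zero _
  -- the second system
  obtain ⟨hinj2, hB2⟩ := hS2 T D a0 hT hD ha0
  have hDD : D' = D.image (fun c => a0 * c) := by
    ext c
    rw [hD', Finset.mem_image]
    exact ⟨fun ⟨c', h, e⟩ => ⟨c', h, e.symm⟩, fun ⟨c', h, e⟩ => ⟨c', h, e.symm⟩⟩
  have hpa : ∀ c ∈ D, FB f (a0 * c) := by
    intro c hc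
    exact ⟨mul_ne_zero ha0.1 (hD.mem c hc).1,
      ((aO6 n t).1 (2 * f) a0 c).2 ⟨ha0.2.1, (hD.mem c hc).2.1⟩⟩
  have h2 : ∀ c ∈ D, ∀ h ∈ T, χ (sp h * (a0 * c)) * gB f N m (sp h * (a0 * c)) 1 =
      χ (a0 * c) * (rO (⊤ : Ideal (OO n t)) (a0 * c) *
        (toO h * gO m (a0 * c) (toC h / (f * 2 ^ N : ℕ)))) := by
    intro c hc h hh
    have hfb : FB f (a0 * c) := hpa c hc
    have hHf : Hf f h := (hT.mem h hh).1
    have h3 := (hG n t P hP f N m (a0 * c) hfm hN hfb).2.2.1 h 1 hHf.1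
      (CV_cop_of_dvd (by rw [sub_self]; exact dvd_zero _))
    rw [mul_one] at h3
    rw [hχ.mul, hhf h hHf, h3, gB]
    ring
  have e2 : (QuotientAddGroup.mk (SS f N m χ T D') : Om ⧸ GEs P hP (N : ℚ)) =
      ∑ b ∈ (D ×ˢ T).image (fun p : Ideal (OO n t) × OO n t => sp p.2 * (a0 * p.1)), F b := by
    rw [Finset.sum_image (fun x hx y hy h => hinj2 hx hy h), Finset.sum_product, SS, hDD,
      Finset.sum_image (fun x _ y _ h => mul_left_cancel₀ ha0.1 h), RS_sum]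
    refine Finset.sum_congr rfl fun c hc => ?_
    rw [Finset.mul_sum, Finset.mul_sum, RS_sum]
    exact Finset.sum_congr rfl fun h hh => congrArg QuotientAddGroup.mk (h2 c hc h hh).symm
  refine (GEs_eq hP).1 ?_
  rw [e1, e2]
  refine DS.G.aRI n t (f * 2 ^ N) (CNa f N a) _ _ _ F hMpos (hB2 _ ?_) (hB1 _ ?_) hF
  · rw [Finset.coe_image]
  · rw [Finset.coe_image]

end Pool.Agent.DR.LS
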