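import Pool.Agent.Lib.DR.LS.Spec

/-!
# Theorem DR, part LS, module SU: the comparison of `β` with `1` (helper95, after `DN/G/SU.lean` of helper63)
-/

set_option autoImplicit false

open scoped Pointwise

noncomputable section

namespace Pool.Agent.DR.LS

open Pool.Agent.MuZ Pool.Agent.FW Pool.Agent.DN
open Pool.Agent.DI (io ofC io_inj exists_io io_ofC ofC_io VP MP UP TP ex sqr sqr_sq kap)
open Pool.Agent.DN.GL (EE pH IsR)
open Pool.Agent.DL (vl GE Pl)
open Pool.Agent.DS.G (bt IsRI CN Pm Hy)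
open Pool.Agent.DR.GL (pl2 II Cls Un Orb Hn Hs PtN dv SS)

variable {n t : ℕ}

private theorem SU_pm {N : ℕ} {x y z a : ℤ} (h : Pm N (x * y) a) (hd : (2 : ℤ) ^ N ∣ y - z) :
    Pm N (x * z) a := by
  rcases h with h | h
  · left
    have e : x * z - a = (x * y - a) - x * (y - z) := by ring
    rw [e]
    exact dvd_sub h (Dvd.dvd.mul_left hd x)
  · right
    have e : x * z + a = (x * y + a) - x * (y - z) := by ring
    rw [e]
    exact dvd_sub h (Dvd.dvd.mul_left hd x)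

private theorem SU_pmn {N : ℕ} {x y z a : ℤ} (h : Pm N (x * y) a) (hd : (2 : ℤ) ^ N ∣ y + z) :
    Pm N (x * z) a := by
  rcases h with h | h
  · right
    have e : x * z + a = x * (y + z) - (x * y - a) := by ring
    rw [e]
    exact dvd_sub (Dvd.dvd.mul_left hd x) h
  · left
    have e : x * z - a = x * (y + z) - (x * y + a) := by ring
    rw [e]
    exact dvd_sub (Dvd.dvd.mul_left hd x) h

private theorem SU_pow [SqN n t] {P : Ideal ZZ} (hP : Ab2 P) {M N : ℕ} {u : OO n t}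
    (h : ((M * 2 ^ N : ℕ) : OO n t) ∣ u) : GE P 2 N (toO u) := by
  have hPp : P.IsPrime := hP.1.1
  obtain ⟨w, rfl⟩ := h
  have e : toO (((M * 2 ^ N : ℕ) : OO n t) * w) = ((2 : ℕ) : Om) ^ N * ((M : Om) * toO w) := by
    rw [toO_mul, toO_nat]
    push_cast
    ring
  rw [e]
  exact DL.GE.mul_right (pl2 hP) (Or.inr (DL.vl_two_pow (pl2 hP) N).ge) ((DI.VP.nat M).mul (toO_VP w))

private theorem SU_ten [SqN n t] {P : Ideal ZZ} (hP : Ab2 P) {u : OO n t}
    (h : ((2 ^ 10 : ℕ) : OO n t) ∣ u) : GE P 2 10 (toO u) := by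
  have h1 : ((1 * 2 ^ 10 : ℕ) : OO n t) ∣ u := by
    rwa [one_mul]
  have h2 := SU_pow hP h1
  exact_mod_cast h2

private theorem SU_coset (o4 : S_O4) (t0a : GL.C_T0a) (sub : GL.C_Sub) (chi : GL.C_Chi) (gb : C_Gb)
    [Rmf n t] {P : Ideal ZZ} (hP : Ab2 P) {f N : ℕ} {m b : Ideal (OO n t)}
    {χ : Ideal (OO n t) → Om} {z0 d : ℂ} {SH2 : Finset Om} (hm : FM f m) (hb : FB f b)
    (hχ : IsChi (2 * f) χ) (hN : 12 ≤ N) (hp : PtN n t f N z0 d)
    (hO2 : Orb z0 d (Hs (n := n) (t := t) f N) SH2)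
    {T : Finset (OO n t)} (hT : IsR N (Hs (f * NI m) N) T) {v : OO n t} (hv2 : Cop v 2)
    (hvf : (f : OO n t) ∣ v - 1) {q : ℚ} (hq1 : q ≤ 1 / 2 + dv n t P z0 d SH2) (hq2 : q ≤ 10) :
    GE P 2 q (∑ h ∈ T, χ b * ((toO (h * v) - 1) * gB f N m b (h * v))) := by
  classical
  have hPp : P.IsPrime := hP.1.1
  have h2 := pl2 hP
  have hv2f : Cop v (2 * f) := (CV_cop_mul).2 ⟨hv2, CV_cop_of_dvd hvf⟩
  obtain ⟨g1, -, -, -, -⟩ := gb n t P hP f N m b hm (by omega) hb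
  obtain ⟨-, -, hp0, hpv, -, hun, hpp, -⟩ := t0a n t P hP
  obtain ⟨-, -, -, -, -, -, -, -, hmem, -, hcop, -, -, -, -, -⟩ := o4 n t
  have hχb : VP P (χ b) := ((chi n t P hP f χ hm.odd hm.dvd hχ).1 b).1
  have hA := sub n t P hP f N m hm z0 d hp SH2 hO2 T hT b v hb hv2f
  have hv1 : GE P 2 (1 / 2) (toO v - 1) := by
    have h3 : v - 1 ∈ pp n t := by
      rw [hmem]
      rcases (hcop v).1 hv2 with h | h
      · exact Or.inl h
      · refine Or.inr ?_
        have e : v - 1 - pO n t = v - (1 + pO n t) := by ring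
        rwa [e]
    have h4 := hpp _ h3
    have e : toO v - 1 = (toO (v - 1) / toO (pO n t)) * toO (pO n t) := by
      rw [div_mul_cancel₀ _ hp0, toO_sub, toO_one]
    rw [e]
    exact DL.GE.mul_left h2 h4 (Or.inr hpv.ge)
  have hvu := (hun v hv2).1
  have hv0 : toO v ≠ 0 := DI.UP.ne_zero hvu
  have hE : ∑ h ∈ T, χ b * ((toO (h * v) - 1) * gB f N m b (h * v)) =
      χ b * ((toO v)⁻¹ * ((toO v - 1) * (∑ h ∈ T, toO (h * v) *
        (rO (⊤ : Ideal (OO n t)) b * gO m b (toC (h * v) / (f * 2 ^ N : ℕ)))) +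
        ∑ h ∈ T, toO (h - 1) * (toO v * gB f N m b (h * v)))) := by
    rw [← Finset.mul_sum]
    congr 1
    rw [eq_inv_mul_iff_mul_eq₀ hv0, Finset.mul_sum, Finset.mul_sum, ← Finset.sum_add_distrib]
    refine Finset.sum_congr rfl fun h _ => ?_
    unfold gB
    rw [toO_sub, toO_one, toO_mul]
    ring
  rw [hE]
  refine DL.GE.mul_left h2 hχb (DL.GE.mul_left h2 (DI.UP.inv hvu).1 (DL.GE.add h2 ?_ ?_))
  · exact (DL.GE.mul h2 hv1 hA).mono hq1
  · refine DL.GE.sum h2 T _ (fun h hh => ?_)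
    have hh1 := hT.mem h hh
    have k1 : GE P 2 10 (toO (h - 1)) := SU_ten hP hh1.2
    have hh2 : Cop h 2 := hh1.1.2.1
    have hh3 : (f : OO n t) ∣ h - 1 := CV_cast_dvd (Dvd.intro _ rfl) hh1.1.1
    have k2 : VP P (gB f N m b (h * v)) :=
      (g1 (h * v) (cop_mul ((CV_cop_mul).2 ⟨hh2, CV_cop_of_dvd hh3⟩) hv2f)).2.2
    exact (DL.GE.mul_right h2 k1 ((toO_VP v).mul k2)).mono hq2

theorem tSU : S_SU := by
  intro o4 t0a rep gen hd sub chi gb cos n t _ P hP f N m R χ z0 d SH a hm hR hχ hN hp hO ha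
  classical
  have hPp : P.IsPrime := hP.1.1
  have h2 := pl2 hP
  obtain ⟨hf0, hf15, hm15, hm2f, hmo, hmc, hm0⟩ := CV_fm hm
  have hfo : Odd (f * NI m) := hm.odd.mul hmo
  obtain ⟨SH2, hO2⟩ := GL.genE gen hP hp.toPt (C := Hs (n := n) (t := t) f N) GL.hs_un (GL.hs_one f N)
  obtain ⟨hd1, hd2⟩ := hd n t P hP f N z0 d hp.toPt hN SH SH2 hO hO2
  obtain ⟨q, hq⟩ : ∃ q : ℚ, q = 1 / 2 + dv n t P z0 d SH - 2 ^ 21 / 2 ^ N := ⟨_, rfl⟩
  rw [← hq]
  have hpos : (0 : ℚ) ≤ 2 ^ 21 / 2 ^ N := by positivity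
  have hq1 : q ≤ 1 / 2 + dv n t P z0 d SH2 := by
    rw [hq]
    have : dv n t P z0 d SH ≤ dv n t P z0 d SH2 + 2 ^ 21 / 2 ^ N := hd2
    linarith
  have hq2 : q ≤ 10 := by
    rw [hq]
    have : dv n t P z0 d SH ≤ 9 := hd1
    linarith
  have hqN : q ≤ N := by
    have : (12 : ℚ) ≤ N := by exact_mod_cast hN
    linarith
  obtain ⟨-, -, -, -, -, -, -, hcopN, -⟩ := o4 n t
  have hcop2 : ∀ (x : ℤ) (v : OO n t), Pm N (x * Nm v) a → Cop v 2 := by
    intro x v h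
    rw [hcopN]
    intro h1
    have h3 : (2 : ℤ) ∣ x * Nm v := Dvd.dvd.mul_left h1 x
    have h4 : (2 : ℤ) ∣ 2 ^ N := dvd_pow_self 2 (by omega)
    rw [Int.odd_iff] at ha
    rcases h with h | h
    · have h5 := dvd_trans h4 h
      omega
    · have h5 := dvd_trans h4 h
      omega
  unfold SI
  refine DL.GE.sum h2 R _ (fun b hb => ?_)
  have hbF := hR b hb
  obtain ⟨T, hT⟩ := (rep n t N (by omega)).1 (Hs (f * NI m) N)
  have hχb : VP P (χ b) := ((chi n t P hP f χ hm.odd hm.dvd hχ).1 b).1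
  obtain ⟨g1, g2, -, -, -⟩ := gb n t P hP f N m b hm (by omega) hbF
  have key := cos n t f (f * NI m) N hfo (Dvd.intro _ rfl) (by omega) T hT
    (Om ⧸ GEs P hP q)
    (fun v => QuotientAddGroup.mk (χ b * ((toO v - 1) * gB f N m b v)))
    (fun v => Pm N (NI b * Nm v) a) (fun v hv => hcop2 _ v hv) ?_ ?_ ?_ ?_
  · rw [← GEs_zero hP]
    refine Eq.trans ?_ key
    refine (map_sum (QuotientAddGroup.mk' (GEs P hP q)) _ _).trans ?_
    refine Finset.sum_congr rfl (fun p _ => ?_)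
    by_cases hp : Pm N (NI b * Nm (bp (n := n) (t := t) f p)) a
    · rw [if_pos hp, if_pos hp]
      rfl
    · rw [if_neg hp, if_neg hp]
      exact map_zero _
  · intro v u hv hd
    refine SU_pm hv ?_
    have h3 := Nm_congr (CV_cast_dvd (Dvd.intro_left _ rfl) hd : ((2 ^ N : ℕ) : OO n t) ∣ v - u)
    exact_mod_cast h3
  · intro v h hv hh
    rw [Nm_mul]
    rcases hh.1.2.2 with h5 | h5
    · refine SU_pm hv ?_
      have e : Nm v - Nm h * Nm v = -((Nm h - 1) * Nm v) := by ring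
      rw [e]
      exact (dvd_neg).2 (Dvd.dvd.mul_right h5 _)
    · refine SU_pmn hv ?_
      have e : Nm v + Nm h * Nm v = (Nm h + 1) * Nm v := by ring
      rw [e]
      exact Dvd.dvd.mul_right h5 _
  · intro v u hv hvf hd
    have hv2 : Cop v 2 := hcop2 _ v hv
    have hv2f : Cop v (2 * f) := (CV_cop_mul).2 ⟨hv2, CV_cop_of_dvd hvf⟩
    have hg : gB f N m b v = gB f N m b u := (g2 v u hv2f hd).2
    refine (GEs_eq hP).2 ?_
    have e : χ b * ((toO v - 1) * gB f N m b v) - χ b * ((toO u - 1) * gB f N m b u) =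
        χ b * (toO (v - u) * gB f N m b v) := by
      rw [← hg, toO_sub]
      ring
    rw [e]
    exact DL.GE.mono (DL.GE.mul_left h2 hχb (DL.GE.mul_right h2 (SU_pow hP hd) (g1 v hv2f).2.2)) hqN
  · intro v hv hvf
    have h3 := SU_coset o4 t0a sub chi gb hP hm hbF hχ hN hp hO2 hT (hcop2 _ v hv) hvf hq1 hq2
    exact (map_sum (QuotientAddGroup.mk' (GEs P hP q)) _ _).symm.trans
      ((GEs_zero hP).2 h3)

end Pool.Agent.DR.LS
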