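import Pool.Agent.Lib.DR.LS.Spec

/-!
# Theorem DR, part LS, module U1: the valuations of the numbers `U(a)` (helper95)
-/

set_option autoImplicit false

open scoped Pointwise

noncomputable section

namespace Pool.Agent.DR.LS

open Pool.Agent.MuZ Pool.Agent.FW Pool.Agent.DN
open Pool.Agent.DI (io ofC io_inj exists_io io_ofC ofC_io VP MP UP TP ex sqr sqr_sq kap)
open Pool.Agent.DN.GL (EE pH IsR)
open Pool.Agent.DL (vl GE Pl)
open Pool.Agent.DS.G (bt IsRI CN Pm Hy)
open Pool.Agent.DR.GL (pl2 II Cls Un Orb Hn Hs PtN dv SS)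

variable {n t : ℕ}

private theorem bp_one (f : ℕ) (p : ℕ × ℕ) : (f : OO n t) ∣ bp (n := n) (t := t) f p - 1 := by
  rw [nat_dvd_iff]
  unfold bp bt
  refine ⟨⟨p.1, ?_⟩, ⟨p.2, ?_⟩⟩
  · rw [QuadraticAlgebra.re_sub, QuadraticAlgebra.re_one]; push_cast; ring
  · rw [QuadraticAlgebra.im_sub, QuadraticAlgebra.im_one]; push_cast; ring

private theorem cop_two {v : OO n t} (h : Odd (Nm v)) : Cop v 2 := by
  obtain ⟨k, hk⟩ := h
  exact ⟨1, -k, by rw [hk]; push_cast; ring⟩

theorem tU1 : S_U1 := by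
  intro e7 hd gen lsa tp rs su n t _ P hP f N m R χ T D z0 d SH hm hR hRC hχ hN hT hD hp hO hmain a ha
  classical
  have hPp : P.IsPrime := hP.1.1
  have h2 := pl2 hP
  obtain ⟨hf0, hf15, hm15, hm2f, hmo, hmc, hm0⟩ := CV_fm hm
  have haodd : Odd a := by
    rcases ha with rfl | ⟨rfl, -⟩
    · exact odd_one
    · decide
  by_cases hex : ∃ a0 : Ideal (OO n t), CNa f N a a0
  · obtain ⟨a0, ha0⟩ := hex
    have hp2N : PrI a0 (f * 2 ^ N) := by
      refine CV_pri_mulN (CV_pri_dvd ha0.2.1 (Dvd.intro_left _ rfl)) (CV_pri_pow ?_ N)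
      exact CV_pri_dvd ha0.2.1 (Dvd.intro _ rfl)
    obtain ⟨τ0, hτ0, hΨ⟩ := e7 n t (f * 2 ^ N) a0 (by positivity) (hm.dvd.mul_right _) ha0.1 hp2N
    obtain ⟨P', hP', hTp⟩ := tp n t f N m T hm (by omega) hT τ0 hτ0 a0 hΨ P hP
    set D' : Finset (Ideal (OO n t)) := D.image (fun c => a0 * c) with hD'
    have hinj : Function.Injective (fun c : Ideal (OO n t) => a0 * c) := fun c c' h =>
      mul_left_cancel₀ ha0.1 h
    have hχ0 : VP P (χ a0) := by
      obtain ⟨k, hk, hk1⟩ := hχ.odd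
      refine DI.VP.of_pow (n := k) hk.pos ?_
      rw [hk1 a0 ha0.1 ha0.2.1]
      exact DI.VP.one
    have hmem : ∀ c ∈ D', c ≠ ⊥ ∧ PrI c (2 * f) := by
      intro c hc
      rw [hD', Finset.mem_image] at hc
      obtain ⟨c', hc', rfl⟩ := hc
      have h3 := hD.mem c' hc'
      exact ⟨mul_ne_zero ha0.1 h3.1, CV_pri_mul ha0.2.1 h3.2.1⟩
    have hsum : ∀ g : Gal(Om/ℚ), IsD n t f P g →
        MP P (∑ c ∈ D', χ c * ((kap (uN f N m T c) g).val : Om)) := by
      intro g hg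
      obtain ⟨k1, k2⟩ := hTp g hg
      have e : ∑ c ∈ D', χ c * ((kap (uN f N m T c) g).val : Om) =
          χ a0 * ∑ c ∈ D, χ c * ((kap (uN f N m T c) (τ0⁻¹ * g * τ0)).val : Om) := by
        rw [hD', Finset.sum_image (fun x _ y _ h => hinj h), Finset.mul_sum]
        refine Finset.sum_congr rfl fun c hc => ?_
        have h3 := hD.mem c hc
        rw [k2 c h3.1 h3.2.1, hχ.mul, mul_assoc]
      rw [e]
      refine DI.MP.mul_left hχ0 ?_
      exact hmain P' hP' _ k1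
    obtain ⟨l1, l2, l3⟩ := lsa n t P hP f N m χ T D' z0 d SH hm hχ hN hT hp hO hmem hsum
    have hrs := rs n t P hP f N m R χ T D D' a a0 hm hR hRC hχ (by omega) hT hD haodd ha0 (by
      intro c
      rw [hD', Finset.mem_image]
      constructor
      · rintro ⟨c', hc', rfl⟩
        exact ⟨c', hc', rfl⟩
      · rintro ⟨c', hc', rfl⟩
        exact ⟨c', hc', rfl⟩)
    have hsu := su n t P hP f N m R χ z0 d SH a hm hR hχ hN hp hO haodd
    obtain ⟨SH2, hO2⟩ := GL.genE gen hP hp.toPt (C := Hs (n := n) (t := t) f N) GL.hs_un (GL.hs_one f N)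
    have hd9 : dv n t P z0 d SH ≤ 9 := (hd n t P hP f N z0 d hp.toPt hN SH SH2 hO hO2).1
    have hε : (0 : ℚ) ≤ 2 ^ 21 / 2 ^ N := by positivity
    have hN' : (12 : ℚ) ≤ N := by exact_mod_cast hN
    obtain ⟨D0, hD0⟩ : ∃ D0 : ℚ, D0 = dv n t P z0 d SH := ⟨_, rfl⟩
    obtain ⟨ε, hε'⟩ : ∃ ε : ℚ, ε = 2 ^ 21 / 2 ^ N := ⟨_, rfl⟩
    rw [← hD0] at hd9
    rw [← hD0] at l1 l2 l3
    rw [← hD0, ← hε'] at hsu
    rw [← hε'] at hε
    rw [← hD0, ← hε']
    obtain ⟨S, hS⟩ : ∃ S : Om, S = SS f N m χ T D' := ⟨_, rfl⟩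
    rw [← hS] at l1 l2 l3 hrs
    obtain ⟨A, hA⟩ : ∃ A : Om, A = SI f N R a (fun b v => χ b * (toO v * gB f N m b v)) := ⟨_, rfl⟩
    obtain ⟨B, hB⟩ : ∃ B : Om, B = SI f N R a (fun b v => χ b * ((toO v - 1) * gB f N m b v)) := ⟨_, rfl⟩
    rw [← hA] at hrs
    rw [← hB] at hsu
    have hAB : UU f N m R χ a = A - B := by
      rw [hA, hB]
      unfold UU SI
      rw [← Finset.sum_sub_distrib]
      refine Finset.sum_congr rfl fun b _ => ?_
      rw [← Finset.sum_sub_distrib]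
      refine Finset.sum_congr rfl fun p _ => ?_
      split_ifs
      · ring
      · ring
    have hU : UU f N m R χ a = S - (S - A) - B := by
      rw [hAB]; ring
    have e1 : GE P 2 (1 / 2 + D0 - ε) (S - A) := hrs.mono (by linarith)
    rw [hU]
    refine ⟨?_, ?_, ?_⟩
    · exact DL.GE.sub h2 (DL.GE.sub h2 (l1.mono (by linarith)) (e1.mono (by linarith)))
        (hsu.mono (by linarith))
    · intro hn6 τ hτ hζ
      have k := l2 hn6 τ hτ hζ
      have e : S - (S - A) - B - τ (S - (S - A) - B) =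
          (S - τ S) - ((S - A) - τ (S - A)) - (B - τ B) := by
        simp only [map_sub]
        ring
      rw [e]
      exact DL.GE.sub h2 (DL.GE.sub h2 (k.mono (by linarith)) (DL.GE.sub h2 e1 (DL.GE.inertia h2 hτ e1)))
        (DL.GE.sub h2 hsu (DL.GE.inertia h2 hτ hsu))
    · intro hn6
      exact DL.GE.sub h2 (DL.GE.sub h2 ((l3 hn6).mono (by linarith)) e1) hsu
  · have hU : UU f N m R χ a = 0 := by
      unfold UU SI
      refine Finset.sum_eq_zero fun b hb => Finset.sum_eq_zero fun p _ => if_neg fun h => hex ?_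
      have hbF := hR b hb
      have hodd : Odd (Nm (bp (n := n) (t := t) f p)) := by
        by_contra hno
        rw [Int.not_odd_iff_even] at hno
        obtain ⟨k, hk⟩ := hno
        have h4 : (2 : ℤ) ∣ 2 ^ N := dvd_pow_self 2 (by omega)
        have h5 : (2 : ℤ) ∣ (NI b : ℤ) * Nm (bp (n := n) (t := t) f p) :=
          Dvd.dvd.mul_left ⟨k, by rw [hk]; ring⟩ _
        rw [Int.odd_iff] at haodd
        rcases h with h | h
        · have h6 := dvd_trans h4 h
          omega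
        · have h6 := dvd_trans h4 h
          omega
      have hc2 := cop_two hodd
      have hc : Cop (bp (n := n) (t := t) f p) (2 * f) := CV_cop_mul.2 ⟨hc2, CV_cop_of_dvd (bp_one f p)⟩
      have hF := CV_fb_mul (CV_fb_sp hf0 hc) hbF
      refine ⟨sp (bp (n := n) (t := t) f p) * b, hF.ne, hF.cop, ?_⟩
      have e : (NI (sp (bp (n := n) (t := t) f p) * b) : ℤ) = (NI b : ℤ) * Nm (bp (n := n) (t := t) f p) := by
        rw [CV_NI_mul]
        push_cast
        rw [CV_NI_sp, mul_comm]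
      rw [e]
      exact h
    rw [hU]
    refine ⟨DL.GE.zero _, fun _ τ _ _ => ?_, fun _ => DL.GE.zero _⟩
    rw [map_zero, sub_zero]
    exact DL.GE.zero _

end Pool.Agent.DR.LS
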