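import Pool.Agent.Lib.DR.LS.Spec

/-!
# Theorem DR, part LS, module UAct: the action of inertia on the numbers `U(a)`
-/

set_option autoImplicit false

open scoped Pointwise

noncomputable section

namespace Pool.Agent.DR.LS

open Pool.Agent.MuZ Pool.Agent.FW Pool.Agent.DN
open Pool.Agent.DI (io ofC io_inj exists_io io_ofC ofC_io VP MP UP TP ex sqr sqr_sq kap)
open Pool.Agent.DN.GL (EE pH IsR)
open Pool.Agent.DL (vl GE Pl)
open Pool.Agent.DS.G (bt IsRI CN Pm Hy)
open Pool.Agent.DR.GL (pl2 II Cls Un Orb Hn Hs PtN dv SS)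

private theorem UAct_pm1 {N : ℕ} {x a a' : ℤ} (h : Pm N a a') (hx : Pm N x a) : Pm N x a' := by
  unfold Pm at *
  rcases h with h | h <;> rcases hx with hx | hx
  · left
    have e : x - a' = (x - a) + (a - a') := by ring
    rw [e]; exact dvd_add hx h
  · right
    have e : x + a' = (x + a) - (a - a') := by ring
    rw [e]; exact dvd_sub hx h
  · right
    have e : x + a' = (x - a) + (a + a') := by ring
    rw [e]; exact dvd_add hx h
  · left
    have e : x - a' = (x + a) - (a + a') := by ring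
    rw [e]; exact dvd_sub hx h

private theorem UAct_pms {N : ℕ} {a a' : ℤ} (h : Pm N a a') : Pm N a' a := by
  unfold Pm at *
  rcases h with h | h
  · left
    rw [dvd_sub_comm]; exact h
  · right
    rw [add_comm]; exact h

private theorem UAct_pm {N : ℕ} {x a a' : ℤ} (h : Pm N a a') : Pm N x a ↔ Pm N x a' :=
  ⟨UAct_pm1 h, UAct_pm1 (UAct_pms h)⟩

private theorem UAct_pml {N : ℕ} {x y a : ℤ} (h : (2 : ℤ) ^ N ∣ x - y) : Pm N x a ↔ Pm N y a :=
  ⟨fun h1 => UAct_pms (UAct_pm1 (Or.inl h) (UAct_pms h1)),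
    fun h1 => UAct_pms (UAct_pm1 (UAct_pms (Or.inl h)) (UAct_pms h1))⟩

/-- Multiplication by an odd number. -/
private theorem UAct_mul {N : ℕ} {c x a : ℤ} (hc : ¬ (2 : ℤ) ∣ c) : Pm N x a ↔ Pm N (c * x) (c * a) := by
  have h2 : IsCoprime ((2 : ℤ) ^ N) c :=
    IsCoprime.pow_left ((Prime.coprime_iff_not_dvd Int.prime_two).2 hc)
  unfold Pm
  rw [← mul_sub, ← mul_add]
  exact or_congr ⟨fun h => Dvd.dvd.mul_left h c, fun h => h2.dvd_of_dvd_mul_left h⟩
    ⟨fun h => Dvd.dvd.mul_left h c, fun h => h2.dvd_of_dvd_mul_left h⟩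

private theorem UAct_odd {N : ℕ} (hN : 1 ≤ N) {x y a : ℤ} (ha : ¬ (2 : ℤ) ∣ a) (h : Pm N (x * y) a) :
    ¬ (2 : ℤ) ∣ y := by
  have h2 : (2 : ℤ) ∣ 2 ^ N := dvd_pow_self 2 (by omega)
  intro hy
  have hxy : (2 : ℤ) ∣ x * y := Dvd.dvd.mul_left hy x
  apply ha
  rcases h with h | h
  · exact (dvd_sub_right hxy).1 (h2.trans h)
  · exact (dvd_add_right hxy).1 (h2.trans h)

variable {n t : ℕ}

/-- The class function. -/
private def UAct_F (f N : ℕ) (m : Ideal (OO n t)) (χ : Ideal (OO n t) → Om)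
    (b : Ideal (OO n t)) (a : ℤ) (u : OO n t) : Om :=
  open Classical in
  if Pm N (NI b * Nm u) a then χ b * gB f N m b u else 0

private theorem UAct_UU (f N : ℕ) (m : Ideal (OO n t)) (R : Finset (Ideal (OO n t)))
    (χ : Ideal (OO n t) → Om) (a : ℤ) :
    UU f N m R χ a = ∑ b ∈ R, ∑ p ∈ Bx N, UAct_F f N m χ b a (bp f p) := rfl

private theorem UAct_lam [SqN n t] (b : Ideal (OO n t)) (v : OO n t) : toC v ∈ Lam b := by
  intro u _
  exact ⟨u * v, (toC_mul u v).symm⟩

theorem tUAct : S_UAct := by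
  intro hAct hChi hGb hBt n t _ P hP f N m R χ hm hR hχ hN
  refine ⟨?_, ?_⟩
  · intro a a' h
    rw [UAct_UU, UAct_UU]
    refine Finset.sum_congr rfl fun b _ => Finset.sum_congr rfl fun p _ => ?_
    unfold UAct_F
    rw [propext (UAct_pm (x := (NI b : ℤ) * Nm (bp f p)) h)]
  · intro a h τ ha hτ
    have ha2 : ¬ (2 : ℤ) ∣ a := by
      rw [← even_iff_two_dvd, Int.not_even_iff_odd]
      exact ha
    have hh2 : ¬ (2 : ℤ) ∣ Nm h := ((DS.G.aCop n t).2.2.1 h).1 hτ.cop
    have hha2 : ¬ (2 : ℤ) ∣ Nm h * a := by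
      intro h1
      rcases Int.prime_two.dvd_or_dvd h1 with h1 | h1
      · exact hh2 h1
      · exact ha2 h1
    obtain ⟨hf0, -, hm15, -, hmo, -, hm0⟩ := CV_fm hm
    have hf'o : Odd (f * NI m) := hm.odd.mul hmo
    have hf'15 : 15 ∣ f * NI m := Dvd.dvd.mul_right hm.dvd _
    have hh1 : (f : OO n t) ∣ h - 1 := CV_cast_dvd (Dvd.intro _ rfl) hτ.one
    have hM0 : ((f * 2 ^ N : ℕ) : ℂ) ≠ 0 := by
      have : 0 < f * 2 ^ N := by positivity
      exact_mod_cast this.ne'
    -- the elements `v`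
    have hvc : ∀ (b : Ideal (OO n t)) (v : OO n t) (c : ℤ), (f : OO n t) ∣ v - 1 → ¬ (2 : ℤ) ∣ c →
        Pm N (NI b * Nm v) c → Cop v 2 ∧ Cop v (2 * f) := by
      intro b v c hv hc hp
      have h1 : Cop v 2 := ((DS.G.aCop n t).2.2.1 v).2 (UAct_odd hN hc hp)
      exact ⟨h1, CV_cop_mul.2 ⟨h1, CV_cop_of_dvd hv⟩⟩
    have hbp : ∀ p ∈ Bx N, (f : OO n t) ∣ bp f p - 1 := ((hBt n t f N hm.odd).1).mem
    have hcl := (hChi n t P hP f χ hm.odd hm.dvd hχ).1
    -- the terms
    have hterm : ∀ b ∈ R, ∀ p ∈ Bx N,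
        τ (UAct_F f N m χ b a (bp f p)) = UAct_F f N m χ b (Nm h * a) (h * bp f p) := by
      intro b hb p hp
      have hbF := hR b hb
      have hpm : Pm N (NI b * Nm (bp (n := n) (t := t) f p)) a ↔
          Pm N (NI b * Nm (h * bp f p)) (Nm h * a) := by
        rw [UAct_mul (N := N) (x := (NI b : ℤ) * Nm (bp (n := n) (t := t) f p)) (a := a) hh2, Nm_mul]
        have e : Nm h * ((NI b : ℤ) * Nm (bp (n := n) (t := t) f p)) =
            (NI b : ℤ) * (Nm h * Nm (bp (n := n) (t := t) f p)) := by ring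
        rw [e]
      unfold UAct_F
      rw [← propext hpm]
      by_cases h1 : Pm N (NI b * Nm (bp (n := n) (t := t) f p)) a
      · rw [if_pos h1, if_pos h1]
        obtain ⟨hv2, hv2f⟩ := hvc b _ a (hbp p hp) ha2 h1
        have e2 : τ (χ b) = χ b := (hcl b).2 τ hτ.mem.1
        have hact := hAct n t P hP (f * NI m) N h τ hf'o hf'15 hτ
        have e3 : τ (rO (⊤ : Ideal (OO n t)) b) = rO ⊤ b :=
          (hact ⊤ (CV_fb hm (CV_fb_top f)).1).2.2.1 b (CV_fb hm hbF).1
        have hgb := (hGb n t P hP f N m b hm hN hbF).1 _ hv2f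
        have e4 : τ (gO m b (toC (bp (n := n) (t := t) f p) / (f * 2 ^ N : ℕ))) =
            gO m b (toC (h * bp f p) / (f * 2 ^ N : ℕ)) := by
          rw [((hact b (CV_fb hm hbF).1).2.2.2.2.2.2 m hm.ne hm.two hm15 (Dvd.intro_left _ rfl) _ ?_).1
            hgb.1, toC_mul, mul_div_assoc]
          have e5 : ((f * NI m * 2 ^ N : ℕ) : ℂ) *
              (toC (bp (n := n) (t := t) f p) / (f * 2 ^ N : ℕ)) =
                toC (((NI m : ℕ) : OO n t) * bp f p) := by
            rw [toC_mul, toC_nat, ← mul_div_assoc, div_eq_iff hM0]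
            push_cast
            ring
          rw [e5]
          exact UAct_lam b _
        unfold gB
        rw [map_mul, map_mul, e2, e3, e4]
      · rw [if_neg h1, if_neg h1, map_zero]
    -- periodicity and the change of the system
    have hre : ∀ b ∈ R, ∑ p ∈ Bx N, UAct_F f N m χ b (Nm h * a) (h * bp f p) =
        ∑ p ∈ Bx N, UAct_F f N m χ b (Nm h * a) (bp f p) := by
      intro b hb
      have hbF := hR b hb
      have hcop : Cop h (f * 2 ^ N) :=
        (DS.G.aCop n t).2.2.2.2.2.2.2.2 f N h (CV_cop_mul.2 ⟨hτ.cop, CV_cop_of_dvd hh1⟩)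
      obtain ⟨h', -, hh'⟩ := cop_inv hcop
      have hh'1 : (f : OO n t) ∣ h' - 1 := by
        have e : h' - 1 = (h * h' - 1) - (h - 1) * h' := by ring
        rw [e]
        exact dvd_sub (CV_cast_dvd (Dvd.intro _ rfl) hh') (Dvd.dvd.mul_right hh1 _)
      have hS := (hBt n t f N hm.odd).1
      have hS' := hS.mul hcop hh' (fun v hv => by
          have e : h * v - 1 = h * (v - 1) + (h - 1) := by ring
          rw [e]
          exact dvd_add (Dvd.dvd.mul_left hv _) hh1) (fun v hv => by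
          have e : h' * v - 1 = h' * (v - 1) + (h' - 1) := by ring
          rw [e]
          exact dvd_add (Dvd.dvd.mul_left hv _) hh'1)
      refine RpI.sum hS' hS (UAct_F f N m χ b (Nm h * a)) ?_
      intro v u hv hu hvu
      have h2N : (2 : ℤ) ^ N ∣ (NI b : ℤ) * Nm v - NI b * Nm u := by
        rw [← mul_sub]
        refine Dvd.dvd.mul_left ?_ _
        have h1 := Nm_congr (CV_cast_dvd (Dvd.intro_left _ rfl : 2 ^ N ∣ f * 2 ^ N) hvu)
        push_cast at h1
        exact h1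
      unfold UAct_F
      rw [propext (UAct_pml h2N)]
      by_cases h1 : Pm N (NI b * Nm u) (Nm h * a)
      · rw [if_pos h1, if_pos h1]
        have h3 : Pm N (NI b * Nm v) (Nm h * a) := (UAct_pml h2N).2 h1
        obtain ⟨hv2, hv2f⟩ := hvc b _ _ hv hha2 h3
        rw [((hGb n t P hP f N m b hm hN hbF).2.1 v u hv2f hvu).2]
      · rw [if_neg h1, if_neg h1]
    rw [UAct_UU, UAct_UU, map_sum]
    refine Finset.sum_congr rfl fun b hb => ?_
    rw [map_sum, ← hre b hb]
    exact Finset.sum_congr rfl fun p hp => hterm b hb p hp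

end Pool.Agent.DR.LS
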