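import Pool.Agent.Lib.DR.GL.All
import Pool.Agent.Lib.DR.C.C18
import Pool.Agent.Lib.DR.LS.Bt
import Pool.Agent.Lib.DR.LS.Gb
import Pool.Agent.Lib.DR.LS.RBa
import Pool.Agent.Lib.DR.LS.RS
import Pool.Agent.Lib.DR.LS.Cos
import Pool.Agent.Lib.DR.LS.SU
import Pool.Agent.Lib.DR.LS.U1
import Pool.Agent.Lib.DR.LS.UAct
import Pool.Agent.Lib.DR.LS.Nrm
import Pool.Agent.Lib.DR.LS.Fou
import Pool.Agent.Lib.DR.LS.CaA
import Pool.Agent.Lib.DR.LS.CaB
import Pool.Agent.Lib.DR.LS.LSm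

/-!
# Theorem DR, part LS: `S_LS`, complete, no hypotheses (author helper89)
-/

set_option autoImplicit false

noncomputable section

namespace Pool.Agent.DR.LS

open Pool.Agent.DN Pool.Agent.DR.GL

theorem aC4 : S_C4 := tC4 DS.zR1

theorem aBt : C_Bt := tBt dO4

theorem aGb : C_Gb := tGb dR1 dD2 dD9

theorem aSU : C_SU := tSU dO4 aT0a aRep aGen aHD aSub aChi aGb (tCos aBt)

theorem aU1 : C_U1 := tU1 dE7 aHD aGen aLSA aTp (tRS aChi aGb tRBa) aSU

theorem aUAct : C_UAct := tUAct aAct aChi aGb aBt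

theorem aNrm : C_Nrm := tNrm dO4

theorem aFou : C_Fou := tFou aC4 aGb aBt

theorem aCaA : C_CaA := tCaA aT0a aIn aAct aSur aTrN aTau aUAct aNrm

theorem aCaB : C_CaB := tCaB aT0a aAct aSur aTrN aUAct aNrm

/-- `S_LS`: the local step. -/
theorem zLS : S_LS := tLSm aPnt aGen aU1 aNrm aFou aCaA aCaB

end Pool.Agent.DR.LS
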