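import Pool.Agent.Lib.DR.LS.Spec

/-!
# Theorem DR, part LS, module LSm: `S_LS`, the end of the local step (helper20)

Compare `DN/G/LSm.lean`.
-/

set_option autoImplicit false

open scoped Pointwise

noncomputable section

namespace Pool.Agent.DR.LS

open Pool.Agent.MuZ Pool.Agent.FW Pool.Agent.DN
open Pool.Agent.DI (io ofC io_inj exists_io io_ofC ofC_io VP MP UP TP ex sqr sqr_sq kap)
open Pool.Agent.DN.GL (EE pH IsR)
open Pool.Agent.DL (vl GE Pl)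
open Pool.Agent.DS.G (bt IsRI CN Pm Hy)
open Pool.Agent.DR.GL (pl2 II Cls Un Orb Hn Hs PtN dv SS)

variable {n t : ℕ}

private theorem LSm_zm {q l : ℕ} (hq : 0 < q) (hl : 0 < l) : zet (q * l) ^ l = zet q := by
  apply io_inj
  have hq' : (q : ℂ) ≠ 0 := by exact_mod_cast hq.ne'
  have hl' : (l : ℂ) ≠ 0 := by exact_mod_cast hl.ne'
  rw [map_pow, CV_io_zet (Nat.mul_pos hq hl), CV_io_zet hq]
  unfold ex
  rw [← Complex.exp_nat_mul]
  congr 1
  push_cast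
  field_simp

private theorem LSm_mp {P : Ideal ZZ} (hP : Ab2 P) : ∀ (i : ℕ) (x : Om), x ^ 2 ^ i = 1 → MP P (x - 1)
  | 0, x, h => by
    have := hP.1.1
    rw [pow_zero, pow_one] at h
    rw [h, sub_self]
    exact DI.MP.zero
  | i + 1, x, h => by
    have := hP.1.1
    have h1 : (x ^ 2) ^ 2 ^ i = 1 := by
      rw [← pow_mul, ← pow_succ']
      exact h
    have h2 := LSm_mp hP i _ h1
    have hx : VP P x := (CV_up_of_pow hP.1.1 (by positivity) h).1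
    have h3 : MP P ((x - 1) ^ 2) := by
      have e : (x - 1) ^ 2 = (x ^ 2 - 1) - 2 * (x - 1) := by ring
      rw [e]
      exact h2.sub (hP.2.mul_right (hx.sub DI.VP.one))
    exact h3.of_pow

/-- The formula for the difference. -/
private theorem LSm_fou [Rmf n t] (hFou : C_Fou) {P : Ideal ZZ} (hP : Ab2 P) {f N : ℕ}
    {m : Ideal (OO n t)} {R : Finset (Ideal (OO n t))} (χ : Ideal (OO n t) → Om) (hm : FM f m)
    (hR : FR f R) {j : ℕ} (hN : 3 ≤ N) (hj : j + 3 ≤ N) (c : ℤ)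
    (hI : IsPm N (As n N ×ˢ Bs n) (fun p => (p.1 : ℤ) * p.2)) :
    xs f m R χ (c / 2 ^ j) - xs f m R χ 0 = toO (pO n t) * ((2 ^ N)⁻¹ *
      ∑ p ∈ As n N ×ˢ Bs n, ((zet (2 ^ (j + 2)) ^ (c * NI m : ℤ)) ^ (p.1 * p.2) +
        ((zet (2 ^ (j + 2)) ^ (c * NI m : ℤ)) ^ (p.1 * p.2))⁻¹ - 2) *
          UU f N m R χ ((p.1 : ℤ) * p.2)) := by
  have h1 := hFou n t P hP f N m R χ hm hR hN _ _ _ hI (c * 2 ^ (N - 3 - j))
  have h0 := hFou n t P hP f N m R χ hm hR hN _ _ _ hI 0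
  have e1 : (((c * 2 ^ (N - 3 - j) : ℤ) : ℚ) / 2 ^ (N - 3)) = c / 2 ^ j := by
    have e : N - 3 = (N - 3 - j) + j := by omega
    have e' : (2 : ℚ) ^ (N - 3) = 2 ^ (N - 3 - j) * 2 ^ j := by
      rw [← pow_add, ← e]
    rw [e']
    push_cast
    field_simp
  have e0 : (((0 : ℤ) : ℚ) / 2 ^ (N - 3)) = 0 := by
    rw [Int.cast_zero, zero_div]
  rw [e1] at h1
  rw [e0] at h0
  rw [h1, h0, ← mul_sub, ← mul_sub, ← Finset.sum_sub_distrib]
  congr 2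
  refine Finset.sum_congr rfl fun p _ => ?_
  have hz : zet (2 ^ (N - 1)) ^ (c * 2 ^ (N - 3 - j) * NI m * ((p.1 : ℤ) * p.2) : ℤ) =
      (zet (2 ^ (j + 2)) ^ (c * NI m : ℤ)) ^ (p.1 * p.2) := by
    have e : 2 ^ (N - 1) = 2 ^ (j + 2) * 2 ^ (N - 3 - j) := by
      rw [← pow_add]
      congr 1
      omega
    rw [← LSm_zm (q := 2 ^ (j + 2)) (l := 2 ^ (N - 3 - j)) (by positivity) (by positivity), ← e,
      ← zpow_natCast (zet (2 ^ (N - 1))) (2 ^ (N - 3 - j)), ← zpow_mul, ← zpow_natCast, ← zpow_mul]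
    congr 1
    push_cast
    ring
  rw [zpow_neg, hz]
  simp only [zero_mul, neg_zero, zpow_zero]
  ring

theorem tLSm : S_LSm := by
  intro hPnt hGen hU1 hNrm hFou hCaA hCaB n t _ f m R χ P hm hR hRC hχ hP hyp c j
  have hPp : P.IsPrime := hP.1.1
  have h2 : Pl P 2 := pl2 hP
  obtain ⟨θ, hθ⟩ : ∃ θ, θ = zet (2 ^ (j + 2)) ^ (c * NI m : ℤ) := ⟨_, rfl⟩
  have hj1 : (0 : ℕ) < 2 ^ (j + 2) := by positivity
  have hθ1 : θ ^ 2 ^ (j + 2) = 1 := by
    rw [hθ, ← zpow_natCast, ← zpow_mul, mul_comm, zpow_mul, zpow_natCast, CV_zet_pow hj1, one_zpow]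
  by_cases hθe : θ = 1
  · have h := LSm_fou hFou hP χ hm hR (N := j + 3) (j := j) (by omega) (by omega) c
      (hNrm n t (j + 3) (by omega)).1
    rw [← hθ, hθe] at h
    rw [h]
    have e : ∑ p ∈ As n (j + 3) ×ˢ Bs n, ((1 : Om) ^ (p.1 * p.2) + (1 ^ (p.1 * p.2))⁻¹ - 2) *
        UU f (j + 3) m R χ ((p.1 : ℤ) * p.2) = 0 := by
      refine Finset.sum_eq_zero fun a _ => ?_
      rw [one_pow, inv_one]
      norm_num
    rw [e, mul_zero, mul_zero]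
    exact DI.MP.zero
  have hθ0 : θ - 1 ≠ 0 := sub_ne_zero.2 hθe
  have hvpos : 0 < vl P 2 (θ - 1) := (DL.vl_pos h2 hθ0).2 (LSm_mp hP _ _ hθ1)
  obtain ⟨N1, hN1⟩ := exists_nat_gt ((2 : ℚ) ^ 21 / vl P 2 (θ - 1))
  obtain ⟨N, hN, T, hT, D, hD, hd⟩ := hyp (max 12 (max (j + 3) N1))
  have hN12 : 12 ≤ N := (le_max_left _ _).trans hN
  have hNj : j + 3 ≤ N := (le_max_left _ _).trans ((le_max_right _ _).trans hN)
  have hNN : N1 ≤ N := (le_max_right _ _).trans ((le_max_right _ _).trans hN)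
  have hsm : (2 : ℚ) ^ 21 / 2 ^ N ≤ vl P 2 (θ - 1) := by
    have h1 : (2 : ℚ) ^ 21 / vl P 2 (θ - 1) < 2 ^ N := by
      refine hN1.trans_le ?_
      have h3 : N1 ≤ 2 ^ N := hNN.trans Nat.lt_two_pow_self.le
      exact_mod_cast h3
    rw [div_lt_iff₀ hvpos] at h1
    rw [div_le_iff₀ (by positivity), mul_comm]
    exact h1.le
  have hθ2 : θ ^ 2 ^ N = 1 := by
    have e : 2 ^ N = 2 ^ (j + 2) * 2 ^ (N - (j + 2)) := by
      rw [← pow_add]
      congr 1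
      omega
    rw [e, pow_mul, hθ1, one_pow]
  obtain ⟨z0, d, hPt⟩ := hPnt n t f N hm.odd hm.dvd (by omega)
  obtain ⟨SH, hSH⟩ := GL.genE hGen hP hPt.toPt (fun h hh => GL.hn_un (f := f) (N := N) h hh)
    (GL.hn_one f N)
  have hU := hU1 n t P hP f N m R χ T D z0 d SH hm hR hRC hχ hN12 hT hD hPt hSH hd
  have hfin := LSm_fou hFou hP χ hm hR (N := N) (j := j) (by omega) hNj c
    (hNrm n t N (by omega)).1
  rw [← hθ, Finset.sum_product_right] at hfin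
  rw [hfin]
  by_cases hn : n % 8 = 6
  · have hB : Bs n = {1, 3} := by
      unfold Bs
      rw [if_pos hn]
    have key : ∀ b : ℕ, Odd b → ((b : ℤ) = 1 ∨ (b : ℤ) = 3 ∧ n % 8 = 6) →
        GE P 2 (1 / 2) (toO (pO n t) * ((2 ^ N)⁻¹ * ∑ a ∈ As n N,
          (θ ^ (a * b) + (θ ^ (a * b))⁻¹ - 2) * UU f N m R χ ((a : ℤ) * b))) := fun b hb hb' =>
      hCaB n t P hP hn f N m R χ z0 d SH θ hm hR hχ hN12 hPt hSH hθ2 hθe hsm b hb
        ((hU b hb').2.2 hn)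
    have k1 := key 1 odd_one (Or.inl (by norm_num))
    have k3 := key 3 (by decide) (Or.inr ⟨by norm_num, hn⟩)
    rw [hB, Finset.sum_pair (by norm_num), mul_add, mul_add]
    exact (k1.add h2 k3).mp h2 (by norm_num)
  · have hB : Bs n = {1} := by
      unfold Bs
      rw [if_neg hn]
    have k := hCaA n t P hP hn f N m R χ z0 d SH θ hm hR hχ hN12 hPt hSH hθ2 hθe hsm
      (hU 1 (Or.inl rfl)).1 ((hU 1 (Or.inl rfl)).2.1 hn)
    rw [hB, Finset.sum_singleton]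
    have e : ∑ a ∈ As n N, (θ ^ (a * 1) + (θ ^ (a * 1))⁻¹ - 2) *
        UU f N m R χ ((a : ℤ) * ((1 : ℕ) : ℤ)) =
        ∑ a ∈ As n N, (θ ^ a + (θ ^ a)⁻¹ - 2) * UU f N m R χ a := by
      refine Finset.sum_congr rfl fun a _ => ?_
      rw [mul_one, Nat.cast_one, mul_one]
    rw [e]
    exact k

end Pool.Agent.DR.LS
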