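import Pool.Agent.Lib.DN.CV.Rp
import Pool.Agent.Lib.DS.G.All
import Pool.Agent.Lib.DR.GL.SpecB
import Pool.Agent.Lib.DR.GL.SpecT

/-!
# Theorem DR, part LS (author helper89): from the local step (`DR/GL/SpecB.lean`) to `S_LS`

Port of `DN/G/SpecB.lean` (helper21). `M = f * 2 ^ N`; `gB f N m b v = (fr(b)/fr(1)) g_b(v/M)`; `β` runs through the elements `bp f p = 1 + f (x + y w)`, `p = (x, y) ∈ Bx N` (modulo `M`).
`f' = f * NI m` (an odd multiple of `f`): the classes of inertia elements are taken for `f'`, so that `GL.C_Act` applies to `g`. `ε = 2^21/2^N`. `UU a` is the sum of `χ(b) gB(b, β)` over the classes with norm `± a`.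

Tools. `DL/Va.lean`: `GE P 2 q x` (`v(x) ≥ q` or `x = 0`), `vl P 2`, `GE.add`, `GE.sub`, `GE.neg`, `GE.mul`, `GE.mul_left`, `GE.mul_right`, `GE.sum`, `GE.mono`, `GE.mp`, `GE.vp_iff`, `GE.div`, `GE.inertia`, `vl_pow`, ...
(first argument `GL.pl2 hP : Pl P 2`; `have := hP.1.1` for the instance `P.IsPrime`, `hP : Ab2 P`). `DI/Val.lean`: `VP.add`, `MP.of_pow`, `UP.mul`, ... `DN/Base.lean`: `toO_..`, `toC_..`, `lam_..`, `tor_..`, `cop_..`, `Nm_..`.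
`DN/CV/Bas.lean` (helper97, all `SqN` except `CV_tm`): `CV_..` (`CV_fm`, `CV_fb`, `CV_NI_odd`, `CV_NI_sp`, `CV_zet_pow`, `CV_zet_congr`, `CV_cop_of_dvd`, `CV_cast_mul`, `CV_pri_..`, ...), `DN/CV/Rp.lean`: `RpI` (indexed systems of representatives), `RpI.sum`, `RpI.mul`, `RpI.ga`, `Rp_canc`.
COMPLETE, to be used directly: parts O, L (`aO1 .. aO12` without `aO4`, `aL1 .. aL5`, `aL7`), B (`aB1 .. aB16`: `import Pool.Agent.Lib.DN.B.All` where needed), part G for all `SqN` (`DS/G/All.lean`, namespace `DS.G`: `aCop`, `aHNf`, `aRUp`, `aRI`, `aR2`, `aRB`, `aRD`, `aNQ`, `aRayF`).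

RULES: the statement `S_X` is to be proved as `theorem tX : S_X` in the module `Pool/Agent/Lib/DR/LS/X.lean` with the first line
`import Pool.Agent.Lib.DR.LS.Spec`, `set_option autoImplicit false`, `open scoped Pointwise`, `noncomputable section`, `namespace Pool.Agent.DR.LS` and the `open`
lines of this file. Auxiliary declarations are `private`. All modules are independent. Most are adaptations of the proved modules `DN/G/X.lean` with the same name.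
-/

set_option autoImplicit false

open scoped Pointwise

noncomputable section

namespace Pool.Agent.DR.LS

open Pool.Agent.MuZ Pool.Agent.FW Pool.Agent.DN
open Pool.Agent.DI (io ofC io_inj exists_io io_ofC ofC_io VP MP UP TP ex sqr sqr_sq kap)
open Pool.Agent.DN.GL (EE pH IsR)
open Pool.Agent.DL (vl GE Pl)
open Pool.Agent.DS.G (bt IsRI CN Pm Hy)
open Pool.Agent.DR.GL (pl2 II Cls Un Orb Hn Hs PtN dv SS)

variable {n t : ℕ}

/-! ## Definitions -/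

/-- The pairs `(x, y)` modulo `2 ^ N`. -/
def Bx (N : ℕ) : Finset (ℕ × ℕ) := Finset.range (2 ^ N) ×ˢ Finset.range (2 ^ N)

/-- `1 + f (x + y w)`. -/
def bp (f : ℕ) (p : ℕ × ℕ) : OO n t := bt n t f p.1 p.2

/-- The term `(fr(b)/fr(1)) g_b(v/(f 2^N))`. -/
def gB (f N : ℕ) (m b : Ideal (OO n t)) (v : OO n t) : Om :=
  rO (⊤ : Ideal (OO n t)) b * gO m b (toC v / (f * 2 ^ N : ℕ))

open Classical in
/-- The sum over the classes `(b, β)`, `b ∈ R`, `β = 1 + f (x + y w)` modulo `f 2^N`, with `N(b) N(β) = ± a` modulo `2^N`. -/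
def SI (f N : ℕ) (R : Finset (Ideal (OO n t))) (a : ℤ) (φ : Ideal (OO n t) → OO n t → Om) : Om :=
  ∑ b ∈ R, ∑ p ∈ Bx N, if Pm N (NI b * Nm (bp (n := n) (t := t) f p)) a then φ b (bp f p) else 0

/-- The number `U(a)`. -/
def UU (f N : ℕ) (m : Ideal (OO n t)) (R : Finset (Ideal (OO n t)))
    (χ : Ideal (OO n t) → Om) (a : ℤ) : Om :=
  SI f N R a (fun b v => χ b * gB f N m b v)

/-- The ideals prime to `2 f` with norm `± a` modulo `2 ^ N`. -/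
def CNa (f N : ℕ) (a : ℤ) (b : Ideal (OO n t)) : Prop := b ≠ ⊥ ∧ PrI b (2 * f) ∧ Pm N (NI b) a

/-- The norms of the elements prime to `2`, modulo `2 ^ N` and up to sign. -/
def As (n N : ℕ) : Finset ℕ :=
  (Finset.range (2 ^ N)).filter
    (fun a => if n % 2 = 1 then a % 4 = 1 else if n % 8 = 2 then a % 8 = 1 ∨ a % 8 = 3 else a % 8 = 1)

/-- Representatives of the odd numbers modulo the norms of the elements, up to sign. -/
def Bs (n : ℕ) : Finset ℕ := if n % 8 = 6 then {1, 3} else {1}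

/-- A system of representatives of the odd integers modulo `2 ^ N` and up to sign. -/
structure IsPm (N : ℕ) {ι : Type} (I : Finset ι) (g : ι → ℤ) : Prop where
  odd : ∀ i ∈ I, Odd (g i)
  ex : ∀ s : ℤ, Odd s → ∃ i ∈ I, Pm N s (g i)
  uni : ∀ i ∈ I, ∀ j ∈ I, Pm N (g i) (g j) → i = j

/-- The additive group of the `x` with `v(x) ≥ q`. -/
def GEs (P : Ideal ZZ) (hP : Ab2 P) (q : ℚ) : AddSubgroup Om where
  carrier := {x | GE P 2 q x}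
  zero_mem' := DL.GE.zero q
  add_mem' := by
    intro x y hx hy
    have := hP.1.1
    exact DL.GE.add (pl2 hP) hx hy
  neg_mem' := by
    intro x hx
    have := hP.1.1
    exact DL.GE.neg (pl2 hP) hx

theorem GEs_eq {P : Ideal ZZ} (hP : Ab2 P) {q : ℚ} {x y : Om} :
    (QuotientAddGroup.mk x : Om ⧸ GEs P hP q) = QuotientAddGroup.mk y ↔ GE P 2 q (x - y) := by
  have := hP.1.1
  rw [QuotientAddGroup.eq]
  change GE P 2 q (-x + y) ↔ GE P 2 q (x - y)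
  have e1 : -x + y = -(x - y) := by ring
  rw [e1]
  constructor
  · intro h
    have h1 := DL.GE.neg (pl2 hP) h
    rwa [neg_neg] at h1
  · intro h
    exact DL.GE.neg (pl2 hP) h

theorem GEs_zero {P : Ideal ZZ} (hP : Ab2 P) {q : ℚ} {x : Om} :
    (QuotientAddGroup.mk x : Om ⧸ GEs P hP q) = 0 ↔ GE P 2 q x :=
  QuotientAddGroup.eq_zero_iff x

/-! ## 1. Representatives, class functions -/

open Classical in
/-- The systems of representatives modulo `f 2^N`. -/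
def C_Bt : Prop :=
  ∀ (n t : ℕ) [Rmf n t] (f N : ℕ), Odd f →
    RpI (fun v : OO n t => (f : OO n t) ∣ v - 1) (f * 2 ^ N) (Bx N) (bp f) ∧
    (1 ≤ N →
      RpI (fun v : OO n t => (f : OO n t) ∣ v - 1 ∧ Cop v 2) (f * 2 ^ N)
        ((Bx N).filter (fun p => Cop (bp (n := n) (t := t) f p) 2)) (bp f) ∧
      RpI (fun v : OO n t => (f : OO n t) ∣ v - 1 ∧ Cop v 2) (f * 2 ^ N)
        (tm2 n t f ×ˢ Bx (N - 1)) (fun p => p.1 * ⟨1 + 2 * f * p.2.1, 2 * f * p.2.2⟩)) ∧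
    ∀ α ∈ tm2 n t f, (f : OO n t) ∣ α - 1 ∧ Cop α 2 ∧ Cop α (2 * f) ∧ α ≠ 0

/-- (110 lines) **Bt** (from O4). Adapt `DN/G/Bt.lean`. PROOF. First: `v = 1 + f γ`, `γ = ⟨x', y'⟩`; `p` = the residues of `x', y'` modulo `2^N`; injectivity: `f 2^N ∣ f (x - x')` gives `2^N ∣ x - x'` (`nat_dvd_iff`), both `< 2^N`. Second: from the first; `Cop` is invariant (`cop_congr`, `2 ∣ f 2^N`). Third: `RpI.ga` with `e = 2 f`, `q' = 2^(N-1)`, `S = tm2 n t f`, `α = id`,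
and `RpI .. (2 f) (tm2 n t f) id`: the two elements `1` and `α1 = ⟨1 - f (n % 2), f⟩` are `1` modulo `f`; `2 ∣ α1 - (1 + pO)` (`f` odd; `pO = ⟨n % 2, 1⟩`), S_O4: `Cop v 2` iff `2 ∣ v - 1` or `2 ∣ v - (1 + pO)`; not `2 ∣ pO` (second coordinate). `2 ∣ v - α` and `f ∣ v - α` give `2 f ∣ v - α` (`CV_cast_mul`). -/
def S_Bt : Prop := S_O4 → C_Bt

/-- The terms `gB`: homogeneity, class function modulo `2^N`. -/
def C_Gb : Prop :=
  ∀ (n t : ℕ) [Rmf n t] (P : Ideal ZZ), Ab2 P → ∀ (f N : ℕ) (m b : Ideal (OO n t)), FM f m → 1 ≤ N → FB f b →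
    (∀ v : OO n t, Cop v (2 * f) → toC v / (f * 2 ^ N : ℕ) ∉ Lam (m * b) ∧
      VP P (gO m b (toC v / (f * 2 ^ N : ℕ))) ∧ VP P (gB f N m b v)) ∧
    (∀ v u : OO n t, Cop v (2 * f) → ((f * 2 ^ N : ℕ) : OO n t) ∣ v - u →
      gO m b (toC v / (f * 2 ^ N : ℕ)) = gO m b (toC u / (f * 2 ^ N : ℕ)) ∧ gB f N m b v = gB f N m b u) ∧
    (∀ v u : OO n t, Cop v (2 * f) → Cop u (2 * f) →
      gB f N m (sp v * b) u = toO v * gB f N m b (v * u)) ∧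
    (∀ v u : OO n t, Cop v 2 → (f : OO n t) ∣ v - 1 → Cop u (2 * f) →
      gO m (sp v * b) (toC u / (f * 2 ^ N : ℕ)) = gO m b (toC (v * u) / (f * 2 ^ N : ℕ))) ∧
    ∀ b' : Ideal (OO n t), FB f b' → Ray (f * 2 ^ N) b b' → GE P 2 N (gB f N m b 1 - gB f N m b' 1)

/-- (150 lines) **Gb** (from R1, D2, D9). Adapt `DN/G/Gb.lean` word for word (`aNQ` is `DS.G.aNQ`; `GE P` is `GE P 2`; S_D2: the seventh item is `UP P (rO b (a * b))`). `toO a1` in the last item is a unit at `P` because `a1` is prime to `2` (norm). -/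
def S_Gb : Prop := S_R1 → S_D2 → S_D9 → C_Gb

/-- **RBa, RDa**. The two systems of classes modulo `f 2^N` with norm `± a`. -/
def C_RBa : Prop :=
  ∀ (n t : ℕ) [Rmf n t] (f N : ℕ) (a : ℤ), Odd f → 15 ∣ f → 1 ≤ N → Odd a →
    (∀ R : Finset (Ideal (OO n t)), IsRC f R → (∀ b ∈ R, PrI b (2 * f)) →
      ∀ I : Finset (Ideal (OO n t) × ℕ × ℕ),
      (∀ p, p ∈ I ↔ p.1 ∈ R ∧ p.2.1 < 2 ^ N ∧ p.2.2 < 2 ^ N ∧ Pm N (NI p.1 * Nm (bt n t f p.2.1 p.2.2)) a) →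
      Set.InjOn (fun p : Ideal (OO n t) × ℕ × ℕ => sp (bt n t f p.2.1 p.2.2) * p.1) (I : Set _) ∧
      ∀ B : Finset (Ideal (OO n t)), (B : Set (Ideal (OO n t))) =
        (fun p : Ideal (OO n t) × ℕ × ℕ => sp (bt n t f p.2.1 p.2.2) * p.1) '' (I : Set _) →
        IsRI (f * 2 ^ N) (CNa f N a) B) ∧
    ∀ (T : Finset (OO n t)) (D : Finset (Ideal (OO n t))) (a0 : Ideal (OO n t)), DS.IsRep f N T →
      IsDS f N D → CNa f N a a0 →
      Set.InjOn (fun p : Ideal (OO n t) × OO n t => sp p.2 * (a0 * p.1))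
        ((D ×ˢ T : Finset (Ideal (OO n t) × OO n t)) : Set _) ∧
      ∀ B : Finset (Ideal (OO n t)), (B : Set (Ideal (OO n t))) =
        (fun p : Ideal (OO n t) × OO n t => sp p.2 * (a0 * p.1)) ''
          ((D ×ˢ T : Finset (Ideal (OO n t) × OO n t)) : Set _) →
        IsRI (f * 2 ^ N) (CNa f N a) B

/-- (280 lines) **RBa**. PROOF. First part: the proof of `DS/G/RB.lean` (helper21, 234 lines) word for word with `a` in place of `1` (`Pm N (NI b) a`, `a` odd: then `NI b` is odd; the multiplicativity `NI (sp β * b) = Nm β * NI b`). Second part: from `DS.G.aRD` for `D` (`IsDS`: `DR.IsDS.mem`, `ex`, `uni` are its hypotheses; see `DR/G/GR.lean`, `isDS_iff`): the products `sp h * c` are a system for `CN f N`;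
multiplication by `a0`: let `a1` be an ideal prime to `2 f` with `Ray (f 2^N) (a1 * a0) ⊤` (e.g. `a1 = cjI a0 * sp j`, `a0 * cjI a0 = sp (NI a0)` (`aO3`), `j` a natural number with `NI a0 * j = 1` modulo `f 2^N`); the norm of `a1` is `± a⁻¹` modulo `2^N` (`NI (a1 a0) = Nm` of a number `= 1` modulo `f 2^N`). `ex`: `b` with `CNa f N a b`: `a1 * b` has norm `± 1`, so `Ray (a1 b) (sp h * c)`, multiply by `a0` (`aO7`): `Ray b (sp h * (a0 * c))`.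
`mem`: norms. `uni` and injectivity: `Ray (sp h a0 c) (sp h' a0 c')`, multiply by `a1`: `Ray (sp h c) (sp h' c')`, so `(c, h) = (c', h')`. -/
def S_RBa : Prop := C_RBa

/-- **RS**. Reindexing: the classes modulo `f 2^N` with norm `± a`. -/
def C_RS : Prop :=
  ∀ (n t : ℕ) [Rmf n t] (P : Ideal ZZ), Ab2 P → ∀ (f N : ℕ) (m : Ideal (OO n t))
    (R : Finset (Ideal (OO n t))) (χ : Ideal (OO n t) → Om) (T : Finset (OO n t))
    (D D' : Finset (Ideal (OO n t))) (a : ℤ) (a0 : Ideal (OO n t)), FM f m → FR f R → IsRC f R →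
    IsChi (2 * f) χ → 1 ≤ N → DS.IsRep f N T → IsDS f N D → Odd a → CNa f N a a0 →
    (∀ c : Ideal (OO n t), c ∈ D' ↔ ∃ c' ∈ D, c = a0 * c') →
    GE P 2 N (SS f N m χ T D' - SI f N R a (fun b v => χ b * (toO v * gB f N m b v)))

/-- (150 lines) **RS** (from Chi, Gb, RBa). Adapt `DN/G/RS.lean`. PROOF. `A = Om ⧸ GEs P hP N`, `F b' = mk (χ b' * gB f N m b' 1)` (`GEs_eq`). `F b = F b'` for `CNa f N a b`, `CNa f N a b'`, `Ray (f 2^N) b b'`: `χ b = χ b'` (`Ray (2 f)`: `aO7` (7), `2 f ∣ f 2^N`), Gb (5), `GE.mul_left`. FIRST SYSTEM: RBa (1) with `I = (R ×ˢ Bx N).filter (..)`, `B = I.image (fun p => sp (bt ..) * p.1)`;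
`∑_(b' ∈ B) F b' = ∑_(p ∈ I) F (sp β * b)` (`Finset.sum_image`), and `χ (sp β * b) * gB (sp β * b) 1 = χ b * (toO β * gB b β)` (`IsChi.mul`, Chi (2), Gb (3) with `u = 1`; `Pm` implies that `Nm β` is odd, so `Cop β 2` (`DS.G.aCop` (3)) and `Cop β (2 f)`, `f ∣ β - 1`). This is `mk` of `SI ..`. SECOND SYSTEM: RBa (2) with
`B' = (D ×ˢ T).image (fun p => sp p.2 * (a0 * p.1))`: `χ (sp h * (a0 c)) * gB (sp h * (a0 c)) 1 = χ (a0 c) * (toO h * gB (a0 c) h)` (`HN f N h`: `Hf f h`, Chi (3), `Cop h (2 f)`; Gb (3)); the sum over `D'` is the sum over `D` (`D' = D.image (a0 * ·)`, injective: `a0 ≠ ⊥`, `mul_left_cancel₀`). `DS.G.aRI` (`M = f 2^N`, `C = CNa f N a`): the two sums of `F` are equal. -/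
def S_RS : Prop := GL.C_Chi → C_Gb → C_RBa → C_RS

open Classical in
/-- **Cos**. A sum over a union of cosets of the group `Hs f' N` vanishes if the sums over the cosets do. -/
def C_Cos : Prop :=
  ∀ (n t : ℕ) [Rmf n t] (f f' N : ℕ), Odd f' → f ∣ f' → 10 ≤ N → ∀ T : Finset (OO n t), IsR N (Hs f' N) T →
    ∀ (A : Type) [AddCommGroup A] (a : OO n t → A) (C : OO n t → Prop), (∀ v, C v → Cop v 2) →
      (∀ v u : OO n t, C v → ((f * 2 ^ N : ℕ) : OO n t) ∣ v - u → C u) →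
      (∀ v h : OO n t, C v → Hs f' N h → C (h * v)) →
      (∀ v u : OO n t, C v → (f : OO n t) ∣ v - 1 → ((f * 2 ^ N : ℕ) : OO n t) ∣ v - u → a v = a u) →
      (∀ v : OO n t, C v → (f : OO n t) ∣ v - 1 → ∑ h ∈ T, a (h * v) = 0) →
      (∑ p ∈ Bx N, if C (bp f p) then a (bp f p) else 0) = 0

/-- (160 lines) **Cos** (from Bt). Adapt `DN/G/Cos.lean` (`Hq f' N` is now `Hs f' N`; `4 ∣ h - 1` is now `2^10 ∣ h - 1`; the norm is `± 1` modulo `2^N`: closed under products). PROOF. Strong induction on the number of elements of `J = {p ∈ Bx N | C (bp p)}` (for all `C` with the first three properties). `J = ∅`: clear. Otherwise let `v0 = bp p0`, `p0 ∈ J`, and `E v :⇔ (f : O) ∣ v - 1 ∧ ∃ h, Hs f' N h ∧ f 2^N ∣ v - h * v0`. `Hs f' N` is closed under products, contains `1` (`GL.hs_one`), and every `h` with `Hs f' N h` has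
an inverse: `h''` with `Hs f' N h''`, `f' 2^N ∣ h h'' - 1` (`cop_inv` modulo `f' 2^N`; `f' ∣ h'' - 1`, `2^10 ∣ h'' - 1` as `10 ≤ N`, `Nm h'' = ± 1` modulo `2^N`: `Nm_mul`, `Nm_congr`). `C' v :⇔ C v ∧ ¬ ∃ h, Hs f' N h ∧ f 2^N ∣ v - h * v0` has the first three properties, and `p0` is not in its set `J'`. The sum over `J` is the sum over `J'` (`0` by induction) plus the sum over
`{p ∈ Bx N | E (bp p)}`, which is `∑ h ∈ T, a (h * v0) = 0` by `RpI.sum` for the property `Q = E` and the two systems `(Bx N).filter (E ∘ bp)`, `bp` (Bt) and `T`, `fun h => h * v0` (`mem`: `Hs f' N h`, `f ∣ h - 1`; `inj`: `f 2^N ∣ (h - h') v0`, so `2^N ∣ h - h'` (`Rp_canc`), `IsR.uni`; `ex`: `IsR.ex`: `2^N ∣ h - h1`, and `f ∣ h - h1`, so `f 2^N ∣ h - h1` (`CV_cast_mul`)). -/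
def S_Cos : Prop := C_Bt → C_Cos

/-- **SU**. The comparison of `β` with `1`. -/
def C_SU : Prop :=
  ∀ (n t : ℕ) [Rmf n t] (P : Ideal ZZ), Ab2 P → ∀ (f N : ℕ) (m : Ideal (OO n t))
    (R : Finset (Ideal (OO n t))) (χ : Ideal (OO n t) → Om) (z0 d : ℂ) (SH : Finset Om) (a : ℤ), FM f m →
    FR f R → IsChi (2 * f) χ → 12 ≤ N → PtN n t f N z0 d → Orb z0 d (Hn (n := n) (t := t) f N) SH → Odd a →
    GE P 2 (1 / 2 + dv n t P z0 d SH - 2 ^ 21 / 2 ^ N)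
      (SI f N R a (fun b v => χ b * ((toO v - 1) * gB f N m b v)))

/-- (170 lines) **SU** (from O4, T0a, Rep, Gen, HD, Sub, Chi, Gb, Cos). Compare `DN/G/SU.lean`. PROOF. `q = 1/2 + dv SH - 2^21/2^N`; `SH2` with `Orb z0 d (Hs f N) SH2` (`GL.genE`, `GL.hs_un`, `GL.hs_one`); HD: `dv SH ≤ 9`, `dv SH - 2^21/2^N ≤ dv SH2`, so `q ≤ 1/2 + dv SH2` and `q ≤ 10 ≤ N`. `GE.sum` over `b ∈ R`: fix `b` (`FB f b`). `f' = f * NI m` is odd (`CV_fm`). `T` with `IsR N (Hs f' N) T` (Rep (1)). Cos with `A = Om ⧸ GEs P hP q`, `C v :⇔ Pm N (NI b * Nm v) a` (so `Nm v` is odd; invariant by `Nm_congr`,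
and by `h` with `Hs f' N h`: `Nm h = ± 1` modulo `2^N`), `a v = mk (χ b * ((toO v - 1) * gB f N m b v))`. PERIODICITY (`f 2^N ∣ v - u`): `gB` (Gb (2)), and `toO v - toO u = toO (v - u)` is `2^N` times an integral element: the difference is in `GE P 2 N`. COSETS: fix `v`, `f ∣ v - 1`, `C v`, so `Cop v 2`, `Cop v (2 f)`. `A1 = ∑_(h ∈ T) toO (h v) * gB b (h v)`: `GE (dv SH2)` (Sub for `c = b`). `B1 = ∑_(h ∈ T) gB b (h v)`:
`toO v * B1 = A1 - ∑ toO (h - 1) * (toO v * gB b (h v))`, `2^10 ∣ h - 1`: the last sum is `GE 10`. `toO v` is a unit (T0a), `GE (1/2) (toO v - 1)`: `v - 1 ∈ pp` (S_O4: `Cop v 2` iff `2 ∣ v - 1` or `2 ∣ v - 1 - pO`), T0a: `toO (v - 1)/toO pO` integral and `vl (toO pO) = 1/2`. So the sum is `χ b * (A1 - B1)`, `A1 - B1 = (toO v)⁻¹ * ((toO v - 1) * A1 + (GE 10))`: `GE q`. -/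
def S_SU : Prop :=
  S_O4 → GL.C_T0a → GL.C_Rep → GL.C_Gen → GL.C_HD → GL.C_Sub → GL.C_Chi → C_Gb → C_Cos → C_SU

/-- **U1**. The valuations of the numbers `U(a)`, `a ∈ Bs n`. -/
def C_U1 : Prop :=
  ∀ (n t : ℕ) [Rmf n t] (P : Ideal ZZ), Ab2 P → ∀ (f N : ℕ) (m : Ideal (OO n t))
    (R : Finset (Ideal (OO n t))) (χ : Ideal (OO n t) → Om) (T : Finset (OO n t))
    (D : Finset (Ideal (OO n t))) (z0 d : ℂ) (SH : Finset Om), FM f m → FR f R → IsRC f R →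
    IsChi (2 * f) χ → 12 ≤ N → DS.IsRep f N T → IsDS f N D → PtN n t f N z0 d →
    Orb z0 d (Hn (n := n) (t := t) f N) SH →
    (∀ P' : Ideal ZZ, Ab2 P' → ∀ g : Gal(Om/ℚ), IsD n t f P' g →
      MP P (∑ c ∈ D, χ c * ((kap (uN f N m T c) g).val : Om))) →
    ∀ a : ℤ, (a = 1 ∨ a = 3 ∧ n % 8 = 6) →
      GE P 2 (dv n t P z0 d SH - 2 ^ 21 / 2 ^ N) (UU f N m R χ a) ∧
      (n % 8 ≠ 6 → ∀ τ ∈ P.inertia Gal(Om/ℚ), (∀ ζ : Om, ζ ^ 2 ^ N = 1 → τ ζ = ζ⁻¹) →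
        GE P 2 (1 / 2 + dv n t P z0 d SH - 2 ^ 21 / 2 ^ N) (UU f N m R χ a - τ (UU f N m R χ a))) ∧
      (n % 8 = 6 → GE P 2 (1 / 2 + dv n t P z0 d SH - 2 ^ 21 / 2 ^ N) (UU f N m R χ a))

/-- (140 lines) **U1** (from E7, HD, Gen, LSA, Tp, RS, SU). PROOF. If there is no ideal `a0` with `CNa f N a a0` then `UU a = 0`: every term of `SI` with `Pm N (NI b * Nm β) a` would give `a0 = sp β * b` (`NI a0 = Nm β * NI b`; `Nm β` is odd since `a` is odd; `FB f (sp β * b)`: `CV_fb_mul`, `CV_fb_sp`): all claims are trivial (`GE.zero`). (For `a = 1`: `a0 = ⊤`.) Let `CNa f N a a0`. S_E7: `τ0 ∈ GK`, `Psi τ0 (f 2^N) a0` (`PrI a0 (f 2^N)`: `CV_pri_..`).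
Tp for `P`: `P'`. `D' = D.image (a0 * ·)` (classical), injective (`a0 ≠ ⊥`). For `g` with `IsD n t f P g`: `∑_(c ∈ D') χ c κ(uN c, g) = ∑_(c ∈ D) χ (a0 c) κ(uN (a0 c), g) = χ a0 * ∑_(c ∈ D) χ c κ(uN c, τ0⁻¹ g τ0)`, in `M_P` by the hypothesis for `P'` (`VP P (χ a0)`: `χ a0 ^ m' = 1` or `0`: LSA does not need it; use `DI.VP.of_pow`). LSA for `D'` (`c ≠ ⊥`, `PrI c (2 f)`). RS: `SS .. D' = SI(toO v * gB) + GE N`; `SI` is additive:
`UU a = SI(toO v * gB) - SI((toO v - 1) * gB)`, SU for the second. HD (`SH2` by `GL.genE`): `dv SH ≤ 9`, so `N ≥ 1/2 + dv SH`. All claims follow (`GE.inertia` for `τ`; `dv - ε ≤ dv`, `1/2 + dv - ε ≤ 1/2 + dv ≤ 1 + dv`). -/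
def S_U1 : Prop := S_E7 → GL.C_HD → GL.C_Gen → GL.C_LSA → GL.C_Tp → C_RS → C_SU → C_U1

/-- **UAct**. The action of inertia on the numbers `U(a)`. -/
def C_UAct : Prop :=
  ∀ (n t : ℕ) [Rmf n t] (P : Ideal ZZ), Ab2 P → ∀ (f N : ℕ) (m : Ideal (OO n t))
    (R : Finset (Ideal (OO n t))) (χ : Ideal (OO n t) → Om), FM f m → FR f R → IsChi (2 * f) χ → 1 ≤ N →
    (∀ a a' : ℤ, Pm N a a' → UU f N m R χ a = UU f N m R χ a') ∧
    ∀ (a : ℤ) (h : OO n t) (τ : Gal(Om/ℚ)), Odd a → Cls P (f * NI m) N h τ →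
      τ (UU f N m R χ a) = UU f N m R χ (Nm h * a)

/-- (130 lines) **UAct** (from Act, Chi, Gb, Bt). Adapt `DN/G/UAct.lean` (without `c3`, `zt`). PROOF. (1) `Pm N x a ↔ Pm N x a'` if `Pm N a a'`. (2) `f' = f * NI m`, odd, `15 ∣ f'`. Let `b ∈ R`, `v = bp f p`, `Pm N (NI b * Nm v) a`: `Nm v` is odd (`a` odd, `N ≥ 1`), `Cop v (2 f)` (`f ∣ v - 1`). `τ (χ b) = χ b` (Chi (1); `Cls.mem`: `τ` is in the inertia group), `τ (rO ⊤ b) = rO ⊤ b` (Act (3)),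
`τ (gO m b (toC v / M)) = gO m b (toC (h * v) / M)` (Act (7) for `f'`: `NI m ∣ f'`, `(f' 2^N) z = toC (NI m * v) ∈ Lam b`, `z ∉ Lam (m * b)`: Gb (1)). So `τ (UU a) = ∑_b ∑_p F_b (h * bp f p)`, `F_b u = if Pm N (NI b * Nm u) (Nm h * a) then χ b * gB f N m b u else 0`, because `Pm N (NI b * Nm v) a ↔ Pm N (NI b * Nm (h * v)) (Nm h * a)` (`Nm h` is odd, so invertible modulo `2^N`).
`F_b` is periodic modulo `f 2^N` on the elements `= 1` modulo `f` (Gb (2), `Nm_congr`). `RpI.mul` (with an inverse of `h` modulo `f 2^N`, which is `= 1` modulo `f`) and `RpI.sum` for the first system of Bt: `∑_p F_b (h * bp f p) = ∑_p F_b (bp f p)`. -/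
def S_UAct : Prop := GL.C_Act → GL.C_Chi → C_Gb → C_Bt → C_UAct

/-- The sets `As`, `Bs`. -/
def C_Nrm : Prop :=
  ∀ (n t : ℕ) [Rmf n t] (N : ℕ), 3 ≤ N →
    IsPm N (As n N ×ˢ Bs n) (fun p => (p.1 : ℤ) * p.2) ∧
    (∀ a ∈ As n N, Odd a) ∧
    (∀ (f' a : ℕ), Odd f' → a ∈ As n N → ∃ h : OO n t, (f' : OO n t) ∣ h - 1 ∧ Cop h 2 ∧ (2 : ℤ) ^ N ∣ Nm h - a) ∧
    (∀ h : OO n t, Cop h 2 → ∃ a ∈ As n N, (2 : ℤ) ^ N ∣ Nm h - a ∨ (2 : ℤ) ^ N ∣ Nm h + a) ∧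
    (∀ a ∈ As n N, ∀ a' ∈ As n N, ((2 : ℤ) ^ N ∣ (a : ℤ) - a' ∨ (2 : ℤ) ^ N ∣ (a : ℤ) + a') → a = a') ∧
    (n % 8 ≠ 6 → ∀ h : OO n t, Cop h 2 → ¬ (2 : ℤ) ^ N ∣ Nm h + 1)

/-- (170 lines) **Nrm** (from O4). PROOF. `n % 4 = 1` or `n % 4 = 2` (S_O4), so `n % 2 = 1`, `n % 8 = 2` or `n % 8 = 6`. Elementary, by the three cases. `IsPm`: odd `s`: exactly one of `s`, `-s` modulo `8` is in the allowed set of `As` (for `n % 8 = 6`: `± 1` modulo `8` with `b = 1`, `± 3` modulo `8` with `b = 3`: `s = 3 a` modulo `2^N`, `3` invertible, `a = 1` modulo `8` after a sign); `a = s mod 2^N` (`Int.emod`, `Int.toNat`); `8 ∣ 2^N`.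
NORMS: LEMMA S: for an integer `u = 1` modulo `8` and `k` there is an odd integer `s` with `2^k ∣ s² - u` (induction on `k ≥ 3`: `s` or `s + 2^(k-1)`). `Nm ⟨x, y⟩ = x² + n y²` (`t = 0`). `a = 1` modulo `8`: `y = 0`; `n % 4 = 1`, `a = 5` modulo `8`: `y = 2`, `a - 4 n = 1` modulo `8`; `n % 8 = 2`, `a = 3` modulo `8`: `y = 1`, `a - n = 1` modulo `8`. Then change `x`, `y` modulo `2^N` so that `f' ∣ x - 1`, `f' ∣ y` (`f'` odd). `Cop h 2`: the norm is odd.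
The norms of `h` with `Cop h 2` modulo `8`: S_O4 (`4 ∣ Nm h - 1` for `n % 4 = 1`; `8 ∣ Nm h - 1` or `8 ∣ Nm h - (1 + n)`): `{1, 5}`, `{1, 3}`, `{1, 7}`; in the last case one of `Nm h`, `-Nm h` is `1` modulo `8`. -/
def S_Nrm : Prop := S_O4 → C_Nrm

/-- **Fou**. The formula for `xs`. -/
def C_Fou : Prop :=
  ∀ (n t : ℕ) [Rmf n t] (P : Ideal ZZ), Ab2 P → ∀ (f N : ℕ) (m : Ideal (OO n t))
    (R : Finset (Ideal (OO n t))) (χ : Ideal (OO n t) → Om), FM f m → FR f R → 3 ≤ N →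
    ∀ (ι : Type) (I : Finset ι) (g : ι → ℤ), IsPm N I g → ∀ c : ℤ,
      xs f m R χ (c / 2 ^ (N - 3)) = toO (pO n t) * ((2 ^ N)⁻¹ * ∑ i ∈ I,
        (zet (2 ^ (N - 1)) ^ (c * NI m * g i : ℤ) + zet (2 ^ (N - 1)) ^ (-(c * NI m * g i) : ℤ)) *
          UU f N m R χ (g i))

/-- (170 lines) **Fou** (from C4, Gb, Bt). Adapt `DN/G/Fou.lean` (without `c3`, `zt`; the points are `r/4`; a general system `IsPm` in place of `od N`). PROOF. `q = 2^(N-1)`, `ζ = zet q`, `M = f 2^N = 2 f q`, `ν = NI m` (odd). (1) Let `b ∈ R`, `c' : ℤ`, `α ∈ tm2 n t f` (Bt (4); `FB f (sp α * b)`; `PrI (sp α * b) q`; `q.Coprime ν`). S_C4 for `sp α * b` and `(c' / q : ℚ) = (c' / 2^(N-3)) / 4`, `NI (sp α * b) = Nm α * NI b` (`CV_NI_sp`), Gb (4) (`u = ⟨1 + 2 f x, 2 f y⟩` is `1` modulo `2 f`):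
`etaM (2 f) m (sp α * b) (c'/q) = (1/q) ∑_(x, y < q) ζ^(c' (ν NI b Nm (α u))) * gO m b (toC (α u) / M)`. So by Bt (second and third system, `RpI.sum`; the summand `Φ_c' v = ζ^(c' (ν NI b Nm v)) * gO m b (toC v / M)` is periodic modulo `M` on the `v` prime to `2 f`: Gb (2), `Nm_congr`): `etE f m b (c'/2^(N-3)) = (1/q) ∑_(p ∈ Bx N, Cop (bp f p) 2) Φ_c' (bp f p)`.
(2) With `c' = c` and `c' = -c`, `2 q = 2^N`: `xs = toO pO (2^N)⁻¹ ∑_b χ b rO ⊤ b ∑_(p, Cop) (ζ^(c ν s) + ζ^(-(c ν s))) gO m b (..)`, `s = NI b * Nm (bp f p)`, an odd integer. (3) For every odd integer `s` there is exactly one `i ∈ I` with `Pm N s (g i)` (`IsPm`; `Pm` is an equivalence relation), and then `ζ^(c ν s) + ζ^(-(c ν s)) = ζ^(c ν g i) + ζ^(-(c ν g i))`; if `Pm N s (g i)` then `s` is odd.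
So insert `1 = ∑_(i ∈ I) [Pm N s (g i)]` and exchange the sums: the right side by the definition of `UU`, `SI`, `gB`. -/
def S_Fou : Prop := S_C4 → C_Gb → C_Bt → C_Fou

/-! ## 2. The end of the local step -/

/-- **CaA**. The final estimate, `n` not `6` modulo `8`. -/
def C_CaA : Prop :=
  ∀ (n t : ℕ) [Rmf n t] (P : Ideal ZZ), Ab2 P → n % 8 ≠ 6 → ∀ (f N : ℕ) (m : Ideal (OO n t))
    (R : Finset (Ideal (OO n t))) (χ : Ideal (OO n t) → Om) (z0 d : ℂ) (SH : Finset Om) (θ : Om), FM f m →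
    FR f R → IsChi (2 * f) χ → 12 ≤ N → PtN n t f N z0 d → Orb z0 d (Hn (n := n) (t := t) f N) SH →
    θ ^ 2 ^ N = 1 → θ ≠ 1 → (2 : ℚ) ^ 21 / 2 ^ N ≤ vl P 2 (θ - 1) →
    GE P 2 (dv n t P z0 d SH - 2 ^ 21 / 2 ^ N) (UU f N m R χ 1) →
    (∀ τ ∈ P.inertia Gal(Om/ℚ), (∀ ζ : Om, ζ ^ 2 ^ N = 1 → τ ζ = ζ⁻¹) →
      GE P 2 (1 / 2 + dv n t P z0 d SH - 2 ^ 21 / 2 ^ N) (UU f N m R χ 1 - τ (UU f N m R χ 1))) →
    MP P (toO (pO n t) * ((2 ^ N)⁻¹ * ∑ a ∈ As n N, (θ ^ a + (θ ^ a)⁻¹ - 2) * UU f N m R χ a))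

/-- (220 lines) **CaA** (from T0a, In, Act, Sur, TrN, Tau, UAct, Nrm). PROOF. `D = dv SH`, `ε = 2^21/2^N`, `v = vl P 2 (θ - 1) ≥ ε`, `U = UU 1`, `f' = f * NI m` (odd, `15 ∣ f'`, `f ∣ f'`: `CV_fm`). `z1 = (θ - 1) U`, `z2 = (θ⁻¹ - 1) U`: `GE D` (`vl (θ⁻¹ - 1) = v`: `θ⁻¹ - 1 = -(θ - 1) θ⁻¹`, `θ` a unit). For `a ∈ As n N` let `h_a` be from Nrm (3) (for `f'`), `s a` with `Cls P f' N h_a (s a)` (Sur). Act (6): `s a θ = θ ^ (Nm h_a).toNat = θ ^ a`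
(`Nm h_a ≥ 0`, `2^N ∣ Nm h_a - a`, `θ ^ 2^N = 1`), `s a U = UU (Nm h_a) = UU a` (UAct). So `s a z1 = (θ^a - 1) UU a`, `s a z2 = ((θ^a)⁻¹ - 1) UU a`. INVARIANCE: `σ` with `Cls P f' N h σ`, `Hn f' N h`: `2^N ∣ Nm h - 1` (Nrm (6) excludes `-1`), `σ θ = θ`, `σ U = U`: `σ z1 = z1`, `σ z2 = z2`. `τ` from Tau (1): `τ ζ = ζ⁻¹`. CONJUGATION: for `σ` with `Cls P f' N h σ` the element `τ⁻¹ σ τ` is in `II n t P`
(`P.inertia` is a group; `GK` has index two, or: `τ⁻¹ σ τ` fixes `wO` because `τ (wO) = ± wO`), so it has a class `h''` (In (1)), and for a primitive root `ζ` of order `2^N`: `τ⁻¹ σ τ ζ = τ⁻¹ (ζ⁻¹)^(Nm h) = ζ^(Nm h)`: `2^N ∣ Nm h'' - Nm h` (Act (6), `IsPrimitiveRoot`). So if `Hn f' N h` then `τ⁻¹ σ τ` fixes `z1`, i.e. `σ (τ z1) = τ z1`; and for `a ∈ As`: `(s a)⁻¹ (τ⁻¹ (s a) τ)` is in `II`, its class has norm `1` modulo `2^N` (it fixes `ζ`), so it fixes `z1`: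
`s a (τ z1) = τ (s a z1)`. TRACES: TrN with `A = As n N` (Nrm (3), (4), (5)): (i) for `z = toO pO * z1` (`GE (1/2 + D)`, fixed; `σ (toO pO) = toO pO`: `GK_toO`): `GE N (toO pO * Σ1)`, `Σ1 = ∑_a s a z1`. (ii) for `z = z2 - τ z1 = (θ⁻¹ - 1)(U - τ U)` (`τ (θ - 1) = θ⁻¹ - 1`): `GE (1/2 + D)` (`v ≥ ε`): `GE N (Σ2 - τ Σ1)`, `Σ2 = ∑_a s a z2`. END: the number is `toO pO (2^N)⁻¹ (Σ1 + Σ2)`. `t = toO pO (2^N)⁻¹ Σ1`: `VP P t` by (i)
(`vl (2^N) = N`). `toO pO (2^N)⁻¹ Σ2 = toO pO (2^N)⁻¹ τ Σ1 + (GE (1/2)) = (toO pO / τ (toO pO)) * τ t + (GE (1/2))`. T0a: `toO pO / τ (toO pO)` is `1` modulo `P` (the inverse of `τ (toO pO)/toO pO`, a unit), `MP P (τ t - t)` (`VP.inertia`): so the number is `2 t = 0` modulo `P`. -/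
def S_CaA : Prop :=
  GL.C_T0a → GL.C_In → GL.C_Act → GL.C_Sur → GL.C_TrN → GL.C_Tau → C_UAct → C_Nrm → C_CaA

/-- **CaB**. The final estimate, `n = 6` modulo `8`. -/
def C_CaB : Prop :=
  ∀ (n t : ℕ) [Rmf n t] (P : Ideal ZZ), Ab2 P → n % 8 = 6 → ∀ (f N : ℕ) (m : Ideal (OO n t))
    (R : Finset (Ideal (OO n t))) (χ : Ideal (OO n t) → Om) (z0 d : ℂ) (SH : Finset Om) (θ : Om), FM f m →
    FR f R → IsChi (2 * f) χ → 12 ≤ N → PtN n t f N z0 d → Orb z0 d (Hn (n := n) (t := t) f N) SH →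
    θ ^ 2 ^ N = 1 → θ ≠ 1 → (2 : ℚ) ^ 21 / 2 ^ N ≤ vl P 2 (θ - 1) → ∀ b : ℕ, Odd b →
    GE P 2 (1 / 2 + dv n t P z0 d SH - 2 ^ 21 / 2 ^ N) (UU f N m R χ b) →
    GE P 2 (1 / 2) (toO (pO n t) * ((2 ^ N)⁻¹ * ∑ a ∈ As n N,
      (θ ^ (a * b) + (θ ^ (a * b))⁻¹ - 2) * UU f N m R χ (a * b)))

/-- (130 lines) **CaB** (from T0a, Act, Sur, TrN, UAct, Nrm). PROOF. `D = dv SH`, `ε = 2^21/2^N`, `f' = f * NI m`. `κ = θ^b + (θ^b)⁻¹ - 2 = (θ^b - 1)² (θ^b)⁻¹`, `θ^b - 1 = (θ - 1) *` (integral): `GE ε κ` (`VP P (θ - 1)`, `θ` a unit). `z = κ * UU b`: `GE (1/2 + D)`. As in CaA: `s a` with class `h_a` (for `f'`), `s a θ = θ^a`, `s a (UU b) = UU (Nm h_a * b) = UU (a * b)` (UAct (2), (1); `b` odd), so `s a z = (θ^(a b) + (θ^(a b))⁻¹ - 2) * UU (a b)`. INVARIANCE: `Cls P f' N h σ`, `Hn f' N h`: `Nm h = ± 1` modulo `2^N`,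
`σ θ = θ` or `θ⁻¹`, so `σ κ = κ`, and `σ (UU b) = UU (Nm h b) = UU b`. TrN with `A = As n N`: `GE N (∑_a s a z)`; multiply by `(2^N)⁻¹` (`GE.div`) and by `toO pO` (`GE (1/2)`, T0a). -/
def S_CaB : Prop := GL.C_T0a → GL.C_Act → GL.C_Sur → GL.C_TrN → C_UAct → C_Nrm → C_CaB

/-- (170 lines) **LSm**: `S_LS` (from Pnt, Gen, U1, Nrm, Fou, CaA, CaB). Compare the first half of `DN/G/LSm.lean`. PROOF. Let `c : ℤ`, `j`. `ν = NI m`. `θ = zet (2^(j+2)) ^ (c * ν)` (an integer power). `θ ^ 2^(j+2) = 1`. CASE `θ = 1`: below. CASE `θ ≠ 1`: `v = vl P 2 (θ - 1) > 0`: `MP P (θ - 1)` (`MP P (x^2 - 1)` implies `MP P (x - 1)` for integral `x`: `(x - 1)² = x² - 1 - 2 (x - 1)`; induction). Choose `N0` with `12 ≤ N0`, `j + 3 ≤ N0`, `2^21/2^N0 ≤ v` (and in the first case the first two), and `N ≥ N0`, `T`, `D` from the hypothesis.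
`c' = c * 2^(N-3-j)`: `c / 2^j = c' / 2^(N-3)`, `zet (2^(N-1)) ^ (2^(N-3-j)) = zet (2^(j+2))` (`zet k = ofC (ex (1/k))`; prove `zet (k * l) ^ l = zet k` by `io`, see `DN/G/LSm.lean`). Fou for the system `As n N ×ˢ Bs n`, `g p = p.1 * p.2` (Nrm (1)), for `c'` and for `0` (`((0 : ℤ) : ℚ) / 2^(N-3) = 0`): with `θ_p = θ ^ (p.1 * p.2)`:
`xs (c/2^j) - xs 0 = toO pO * ((2^N)⁻¹ * ∑_(p ∈ As n N ×ˢ Bs n) (θ_p + θ_p⁻¹ - 2) * UU (p.1 * p.2))` (`Finset.sum_product_right`: a sum over `b ∈ Bs n` of sums over `a ∈ As n N`). If `θ = 1` it is `0`. Otherwise: Pnt: `z0, d` (`PtN`); `GL.genE` with `Hn f N` (`GL.hn_un`, `GL.hn_one`): `SH`; U1 (the hypothesis is the one of `S_LS`). `n % 8 ≠ 6`: `Bs n = {1}`: CaA. `n % 8 = 6`: `Bs n = {1, 3}`: CaB for `b = 1` and `b = 3`; `GE (1/2)` implies `MP` (`GE.mp`). -/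
def S_LSm : Prop :=
  GL.C_Pnt → GL.C_Gen → C_U1 → C_Nrm → C_Fou → C_CaA → C_CaB → S_LS

/-! ## The composition -/

/-- `S_LS`. -/
theorem asmLS (i : GL.GLIn) (d9 : S_D9) (e7 : S_E7) (c4 : S_C4) (t0a : GL.C_T0a) (o : GL.GLOut)
    (u : GL.GLOutB) (bt : S_Bt) (gb : S_Gb) (rba : S_RBa) (rs : S_RS) (cos : S_Cos) (su : S_SU)
    (u1 : S_U1) (uact : S_UAct) (nrm : S_Nrm) (fou : S_Fou) (caA : S_CaA) (caB : S_CaB) (lsm : S_LSm) :
    S_LS :=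
  have Bt := bt i.O4
  have Gb := gb i.R1 i.D2 d9
  have SU := su i.O4 t0a o.Rep o.Gen o.HD u.Sub u.Chi Gb (cos Bt)
  have U1 := u1 e7 o.HD o.Gen u.LSA u.Tp (rs u.Chi Gb rba) SU
  have UAct := uact o.Act u.Chi Gb Bt
  have Nrm := nrm i.O4
  lsm u.Pnt o.Gen U1 Nrm (fou c4 Gb Bt) (caA t0a o.In o.Act o.Sur o.TrN u.Tau UAct Nrm)
    (caB t0a o.Act o.Sur o.TrN UAct Nrm)

end Pool.Agent.DR.LS
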